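import Pool.Agent.Lib.MP_436e1a_gt.I.Push
import Pool.Agent.Lib.MP_436e1a_gt.A.Proj
import Pool.Agent.Lib.MP_436e1a_gt.A.Transport

/-! Framings extend along regular homotopies. -/

open scoped Topology ContDiff
open Set

namespace Pool.Agent.CSP

/-- the projection onto the plane orthogonal to `x` -/
noncomputable def frx_e (x : E 3) : E 3 →L[ℝ] E 3 := 1 - (innerSL ℝ x).smulRight x

theorem frx_e_apply (x v : E 3) : frx_e x v = v - inner ℝ x v • x := by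
  simp [frx_e]

theorem frx_e_cd : ContDiff ℝ ∞ frx_e :=
  contDiff_const.sub ((innerSL ℝ (E := E 3)).contDiff.smulRight contDiff_id)

theorem frx_e_inner {x : E 3} (hx : x ∈ S2) (v : E 3) : inner ℝ x (frx_e x v) = 0 := by
  have h : ‖x‖ = 1 := by simpa using hx
  rw [frx_e_apply, inner_sub_right, inner_smul_right, real_inner_self_eq_norm_sq, h]
  ring

theorem frx_e_e {x : E 3} (hx : x ∈ S2) (v : E 3) : frx_e x (frx_e x v) = frx_e x v := by
  rw [frx_e_apply x (frx_e x v), frx_e_inner hx, zero_smul, sub_zero]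

theorem frx_inc_add (x y : E 3) : inc (x + y) = inc x + inc y := by
  ext i
  fin_cases i <;> simp [inc]

theorem frx_inc_zero : inc 0 = 0 := by
  ext i
  fin_cases i <;> simp [inc]

/-- the retraction of a neighbourhood of `Sc` to the sphere -/
noncomputable def frx_u (v : E 5) : E 3 := nrm (pr3 v)

theorem frx_u_cd : ContDiffOn ℝ ∞ frx_u {v | pr3 v ≠ 0} :=
  contDiffOn_nrm.comp contDiff_pr3.contDiffOn fun _ hv => hv

theorem frx_u_inc {x : E 3} (hx : x ∈ S2) : frx_u (inc x) = x := by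
  rw [frx_u, pr3_inc, nrm_of_S2 hx]

theorem frx_ne {v : E 5} (hv : v ∈ Sc) : pr3 v ≠ 0 := ne_zero_of_S2 (mem_Sc.1 hv).1

theorem frx_u_der {x : E 3} (hx : x ∈ S2) :
    ∃ L : E 5 →L[ℝ] E 3, HasFDerivAt frx_u L (inc x) ∧ ∀ ξ, L ξ = frx_e x (pr3 ξ) := by
  have h1 : DifferentiableAt ℝ pr3 (inc x) :=
    contDiff_pr3.differentiable (by simp) _
  have h2 : DifferentiableAt ℝ (nrm : E 3 → E 3) (pr3 (inc x)) := by
    rw [pr3_inc]
    exact lnk_diff_nrm (ne_zero_of_S2 hx)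
  refine ⟨_, h2.hasFDerivAt.comp (inc x) h1.hasFDerivAt, fun ξ => ?_⟩
  rw [ContinuousLinearMap.comp_apply, fderiv_pr3, pr3_inc, fderiv_nrm (by simpa using hx),
    frx_e_apply]

/-- an open interval on which the family is still regular -/
theorem frx_J {W : Type} [NormedAddCommGroup W] [NormedSpace ℝ W] {O : Set (ℝ × E 3)}
    (hO : IsOpen O) (hK : Icc (0 : ℝ) 1 ×ˢ S2 ⊆ O) {M : ℝ × E 3 → E 3 →L[ℝ] W}
    (hM : ContinuousOn M O)
    (hi : ∀ p ∈ Icc (0 : ℝ) 1 ×ˢ S2, ∀ v, inner ℝ p.2 v = 0 → M p v = 0 → v = 0) :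
    ∃ J : Set ℝ, IsOpen J ∧ Convex ℝ J ∧ Icc 0 1 ⊆ J ∧ J ×ˢ S2 ⊆ O ∧
      ∀ p ∈ J ×ˢ S2, ∀ v, inner ℝ p.2 v = 0 → M p v = 0 → v = 0 := by
  let L : ℝ × E 3 → E 3 →L[ℝ] W × ℝ := fun p => (M p).prod (innerSL ℝ p.2)
  have hL : ContinuousOn L O := by
    have e : L = fun p => (ContinuousLinearMap.inl ℝ W ℝ).comp (M p) +
        (ContinuousLinearMap.inr ℝ W ℝ).comp (innerSL ℝ p.2) := by
      funext p
      ext v <;> simp [L]
    rw [e]
    exact (continuousOn_const.clm_comp hM).add (continuousOn_const.clm_comp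
      ((innerSL ℝ (E := E 3)).continuous.comp continuous_snd).continuousOn)
  have ho : IsOpen (O ∩ L ⁻¹' {A | Function.Injective A}) :=
    hL.isOpen_inter_preimage hO ContinuousLinearMap.isOpen_injective
  have hs : Icc (0 : ℝ) 1 ×ˢ S2 ⊆ O ∩ L ⁻¹' {A | Function.Injective A} := fun p hp =>
    ⟨hK hp, (injective_iff_map_eq_zero (L p)).2 fun v hv =>
      hi p hp v (congrArg Prod.snd hv) (congrArg Prod.fst hv)⟩
  obtain ⟨u, v, hu, -, h1, h2, h3⟩ :=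
    generalized_tube_lemma isCompact_Icc (isCompact_sphere (0 : E 3) 1) ho hs
  obtain ⟨δ, hδ, h4⟩ := isCompact_Icc.exists_thickening_subset_open hu h1
  have h5 : Metric.thickening δ (Icc (0 : ℝ) 1) ×ˢ S2 ⊆ O ∩ L ⁻¹' {A | Function.Injective A} :=
    (prod_mono h4 h2).trans h3
  refine ⟨_, Metric.isOpen_thickening, (convex_Icc 0 1).thickening δ,
    Metric.self_subset_thickening hδ _, fun p hp => (h5 hp).1, fun p hp v a b => ?_⟩
  exact (injective_iff_map_eq_zero (L p)).1 (h5 hp).2 v (Prod.ext b a)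

/-- the linear algebra of the injectivity of the transported frame -/
theorem frx_inj {W : Type} [NormedAddCommGroup W] [NormedSpace ℝ W] {x : E 3} (hx : x ∈ S2)
    {M : E 3 →L[ℝ] W} {D : E 5 →L[ℝ] W} {Θ Q Q₀ : W →L[ℝ] W} (hΘ : Function.Injective Θ)
    (hD : Function.Injective D) (hM : ∀ v, inner ℝ x v = 0 → M v = 0 → v = 0)
    (hQ : ∀ v, Q (M (frx_e x v)) = M (frx_e x v)) (hc : Q * Θ = Θ * Q₀)
    (h0 : ∀ z, ∃ σ, Q₀ z = D (inc (frx_e x σ))) {ξ : E 5}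
    (h : M (frx_e x (pr3 ξ)) + Θ (D ξ - D (inc (frx_e x (pr3 ξ)))) = 0) : ξ = 0 := by
  set τ := frx_e x (pr3 ξ) with hτ
  set z := D ξ - D (inc τ) with hz
  have h1 : Q (Θ z) = Θ z := by
    have a : Θ z = -M τ := eq_neg_of_add_eq_zero_right h
    rw [a, map_neg, hQ]
  have h2 : Q₀ z = z := hΘ ((DFunLike.congr_fun hc z).symm.trans h1)
  obtain ⟨σ, hσ⟩ := h0 z
  have h3 : ξ = inc (τ + frx_e x σ) := by
    apply hD
    rw [frx_inc_add, map_add, ← hσ, h2, hz]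
    abel
  have h4 : τ = τ + frx_e x σ := by
    have a := congrArg (fun y => frx_e x (pr3 y)) h3
    simp only [pr3_inc, map_add] at a
    rw [frx_e_e hx, ← hτ] at a
    rw [hτ, frx_e_e hx] at a
    exact a
  have h5 : frx_e x σ = 0 := by simpa using h4
  have h6 : z = 0 := by rw [← h2, hσ, h5, frx_inc_zero, map_zero]
  rw [h6, map_zero, add_zero] at h
  have h7 : τ = 0 := hM τ (frx_e_inner hx _) h
  rw [h3, h5, h7, add_zero, frx_inc_zero]

namespace Ctx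

variable {c : Ctx}

/-- a family of framed immersed spheres -/
structure FFam (c : Ctx) (H : ℝ × E 5 → c.Y) : Prop where
  sm : c.SmNear H (Icc 0 1 ×ˢ Sc)
  sgn : ∀ t ∈ Icc (0 : ℝ) 1, ∀ v ∈ Sc,
    c.Sgn (c.q (H (t, v))) (fderiv ℝ (c.am fun w => H (t, w)) v) 1

/-- Sketch. Let `f₁ (t, x) = f (t, nrm x)`, `M (t, x) = D_x (am f₁)`, injective on `x ^ ⊥` on an open
product `J × W₀ ⊇ Icc 0 1 × S2`; `exists_leftInv` gives `R`, and `Q = M e R P ≤ P`, `P = P (q (f₁ (t, x)))`.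
`transport2` gives `Θ`. Push `(t, v) ↦ f (t, u)`, `u = nrm (pr3 v)`, by
`w (t, v) = Θ (t, u) (am h₀ v - am h₀ (inc u))` (`exists_push`). At `(t, inc u)` the derivative in `v` is
`ξ ↦ M (t, u) (tangential part) + Θ (t, u) (D h₀ (normal part))`; it is injective: apply `1 - Q`, use
`(1 - Q) Θ = Θ (1 - Q₀)`, `range Q₀ = D h₀ (inc u ^ ⊥)` (`fderiv_congr_S2`). Sign: `Sgn.of_preconnected` in
`t`. At time `0` use `eq_nhdsSet`. -/
theorem exists_ffam {h₀ : E 5 → c.Y} (hs : c.SmNear h₀ Sc)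
    (hg : ∀ v ∈ Sc, c.Sgn (c.q (h₀ v)) (fderiv ℝ (c.am h₀) v) 1) {f : ℝ × E 3 → c.Y}
    (hf : c.SmNear f (Icc 0 1 ×ˢ S2)) (hr : c.Reg f) (h0 : ∀ x ∈ S2, f (0, x) = h₀ (inc x)) :
    ∃ H, c.FFam H ∧ (∀ᶠ v in 𝓝ˢ Sc, H (0, v) = h₀ v) ∧
      ∀ t ∈ Icc (0 : ℝ) 1, ∀ x ∈ S2, H (t, inc x) = f (t, x) := by
  obtain ⟨O, hO, hKO, hfO⟩ := id hf
  obtain ⟨O₀, hO₀, hK₀, hh₀⟩ := id hs
  let M : ℝ × E 3 → E 3 →L[ℝ] E c.N := fun p =>
    (fderiv ℝ (c.am f) p).comp (ContinuousLinearMap.inr ℝ ℝ (E 3))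
  have hMa : ∀ p v, M p v = fderiv ℝ (c.am f) p (0, v) := fun p v => rfl
  have hM : ContDiffOn ℝ ∞ M O :=
    (hfO.2.fderiv_of_isOpen hO (by simp)).clm_comp contDiffOn_const
  obtain ⟨J, hJo, hJc, hJ1, hJO, hJi⟩ := frx_J hO hKO hM.continuousOn
    fun p hp v a b => (reg_iff hf).1 hr p.1 hp.1 p.2 hp.2 v a b
  obtain ⟨R, hR, hR'⟩ := exists_leftInv ∞ (O := J ×ˢ S2) (e := fun p => frx_e p.2)
    (frx_e_cd.comp contDiff_snd).contDiffOn (hM.mono hJO)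
    (fun p hp => ContinuousLinearMap.ext fun v => frx_e_e hp.2 v)
    fun p hp v a b => hJi p hp v (by rw [← a]; exact frx_e_inner hp.2 v) b
  let P : ℝ × E 3 → E c.N →L[ℝ] E c.N := fun p => c.P (c.q (f p))
  let Q : ℝ × E 3 → E c.N →L[ℝ] E c.N := fun p => (M p).comp ((R p).comp (P p))
  have hQa : ∀ p z, Q p z = M p (R p (P p z)) := fun p z => rfl
  have hP : ContDiffOn ℝ ∞ P (J ×ˢ S2) := hfO.contDiffOn_P.mono hJO
  have hPM : ∀ p ∈ J ×ˢ S2, ∀ v, P p (M p v) = M p v := fun p hp v =>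
    P_fderiv_am ((hfO.2.contDiffAt (hO.mem_nhds (hJO hp))).differentiableAt (by simp)) _
  have hQM : ∀ p ∈ J ×ˢ S2, ∀ v, Q p (M p (frx_e p.2 v)) = M p (frx_e p.2 v) := fun p hp v => by
    rw [hQa, hPM p hp, (hR' p hp).1]
  obtain ⟨Θ, hΘ, hΘ0, hΘc, hΘu⟩ := transport2 ∞ hJc hJ1 (isCompact_sphere (0 : E 3) 1)
    subset_rfl (P := P) (Q := Q) hP ((hM.mono hJO).clm_comp (hR.clm_comp hP))
    (fun p _ => c.P_mul_P _)
    (fun p hp => ContinuousLinearMap.ext fun z => by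
      show Q p (Q p z) = Q p z
      rw [hQa p z, ← (hR' p hp).2, hQM p hp])
    (fun p hp => ContinuousLinearMap.ext fun z => hPM p hp _)
    fun p _ => ContinuousLinearMap.ext fun z => by
      show M p (R p (P p (P p z))) = M p (R p (P p z))
      rw [show P p (P p z) = P p z from DFunLike.congr_fun (c.P_mul_P _) z]
  let φ : ℝ × E 5 → ℝ × E 3 := fun p => (p.1, frx_u p.2)
  have hφ : ContDiffOn ℝ ∞ φ (univ ×ˢ {v | pr3 v ≠ 0}) :=
    contDiffOn_fst.prodMk (frx_u_cd.comp contDiffOn_snd fun p hp => hp.2)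
  have hgs : c.SmNear (fun p => f (φ p)) (Icc 0 1 ×ˢ Sc) :=
    hf.comp (isOpen_univ.prod tl_isOpen) (fun p hp => ⟨trivial, frx_ne hp.2⟩) hφ
      fun p hp => ⟨hp.1, nrm_mem (frx_ne hp.2)⟩
  let a : E 5 → E c.N := fun v => c.am h₀ v - c.am h₀ (inc (frx_u v))
  have ha : ContDiffOn ℝ ∞ a (O₀ ∩ {v | pr3 v ≠ 0}) :=
    (hh₀.2.mono inter_subset_left).sub (hh₀.2.comp
      (contDiff_inc.comp_contDiffOn (frx_u_cd.mono inter_subset_right))
      fun v hv => hK₀ (inc_mem_Sc.2 (nrm_mem hv.2)))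
  have ha0 : ∀ x ∈ S2, a (inc x) = 0 := fun x hx => by
    simp only [a, frx_u_inc hx, sub_self]
  have hΘφ : ContDiffOn ℝ ∞ (fun p => Θ (φ p)) (J ×ˢ (O₀ ∩ {v | pr3 v ≠ 0})) :=
    hΘ.comp (hφ.mono fun p hp => ⟨trivial, hp.2.2⟩) fun p hp => ⟨hp.1, nrm_mem hp.2.2⟩
  have hOo : IsOpen (J ×ˢ (O₀ ∩ {v | pr3 v ≠ 0})) := hJo.prod (hO₀.inter tl_isOpen)
  have hKo : Icc (0 : ℝ) 1 ×ˢ Sc ⊆ J ×ˢ (O₀ ∩ {v | pr3 v ≠ 0}) := fun p hp =>
    ⟨hJ1 hp.1, hK₀ hp.2, frx_ne hp.2⟩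
  obtain ⟨H, hH, hev, hder⟩ := exists_push hgs hOo hKo (w := fun p => Θ (φ p) (a p.2))
    (hΘφ.clm_apply (ha.comp contDiffOn_snd fun p hp => hp.2))
    (by
      rintro ⟨t, _⟩ ⟨-, x, hx, rfl⟩
      show Θ _ (a (inc x)) = 0
      rw [ha0 x hx, map_zero])
  have hHf : ∀ t ∈ Icc (0 : ℝ) 1, ∀ x ∈ S2, H (t, inc x) = f (t, x) := fun t ht x hx => by
    rw [(hev.self_of_nhdsSet (t, inc x) ⟨ht, inc_mem_Sc.2 hx⟩).2
      (by
        show Θ _ (a (inc x)) = 0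
        rw [ha0 x hx, map_zero])]
    simp only [φ, frx_u_inc hx]
  have z01 : (0 : ℝ) ∈ Icc (0 : ℝ) 1 := ⟨le_rfl, zero_le_one⟩
  have hH0 : ∀ᶠ v in 𝓝ˢ Sc, H (0, v) = h₀ v := by
    refine eq_nhdsSet hs (hH.slice z01) ?_ ?_
    · have t0 : Filter.Tendsto (fun v : E 5 => ((0 : ℝ), v)) (𝓝ˢ Sc) (𝓝ˢ (Icc 0 1 ×ˢ Sc)) :=
        Continuous.tendsto_nhdsSet (by fun_prop) fun v hv => ⟨z01, hv⟩
      filter_upwards [t0.eventually hev, tl_isOpen.mem_nhdsSet.2 fun v hv => frx_ne hv]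
        with v hv hv'
      have hu : frx_u v ∈ S2 := nrm_mem hv'
      have e1 : c.am (fun p => f (φ p)) (0, v) = c.am h₀ (inc (frx_u v)) := by
        show c.ι (c.q (f (0, frx_u v))) = _
        rw [h0 _ hu]
        rfl
      have e2 : Θ (φ (0, v)) = 1 := hΘ0 _ hu
      show c.am H (0, v) = _
      rw [hv.1, e1, e2]
      show c.ρ (c.am h₀ (inc (frx_u v)) + (c.am h₀ v - c.am h₀ (inc (frx_u v)))) = _
      rw [add_sub_cancel]
      exact c.ρ_ι _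
    · rintro _ ⟨x, hx, rfl⟩
      rw [hHf 0 z01 x hx, h0 x hx]
  refine ⟨H, ⟨hH, ?_⟩, hH0, hHf⟩
  rintro t₁ ht₁ _ ⟨x, hx, rfl⟩
  have hxc : inc x ∈ Sc := inc_mem_Sc.2 hx
  have hdH : ∀ t ∈ Icc (0 : ℝ) 1, DifferentiableAt ℝ (c.am H) (t, inc x) := fun t ht =>
    hH.differentiableAt ⟨ht, hxc⟩
  have hd₀ := hs.differentiableAt hxc
  obtain ⟨L, hL, hL'⟩ := frx_u_der hx
  have hinc : ∀ y, HasFDerivAt inc (fderiv ℝ inc y) y := fun y =>
    (contDiff_inc.differentiable (by simp) y).hasFDerivAt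
  refine Sgn.of_preconnected (S := Icc (0 : ℝ) 1) (p := fun t => c.q (H (t, inc x)))
    (a := fun t => fderiv ℝ (c.am fun w => H (t, w)) (inc x)) isPreconnected_Icc ?_ ?_
    (fun t ht u => P_fderiv_am ((hH.slice ht).differentiableAt hxc) u) ?_ z01 ?_ t₁ ht₁
  · exact c.continuous_q.comp_continuousOn
      (hH.continuousOn.comp (by fun_prop) fun t ht => ⟨ht, hxc⟩)
  · obtain ⟨O₁, hO₁, hK₁, hH₁⟩ := id hH
    have c1 : ContinuousOn (fun t : ℝ => (fderiv ℝ (c.am H) (t, inc x)).comp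
        (ContinuousLinearMap.inr ℝ ℝ (E 5))) (Icc 0 1) :=
      ((hH₁.2.continuousOn_fderiv_of_isOpen hO₁ (by simp)).comp (by fun_prop)
        fun t ht => hK₁ ⟨ht, hxc⟩).clm_comp continuousOn_const
    exact c1.congr fun t ht => ContinuousLinearMap.ext fun u => fderiv_slice (hdH t ht) u
  · intro t ht ξ hξ
    have hp : (t, x) ∈ J ×ˢ S2 := ⟨hJ1 ht, hx⟩
    have hp0 : ((0 : ℝ), x) ∈ J ×ˢ S2 := ⟨hJ1 z01, hx⟩
    have eφ : φ (t, inc x) = (t, x) := by simp only [φ, frx_u_inc hx]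
    have dφ : HasFDerivAt φ ((ContinuousLinearMap.fst ℝ ℝ (E 5)).prod
        (L.comp (ContinuousLinearMap.snd ℝ ℝ (E 5)))) (t, inc x) :=
      hasFDerivAt_fst.prodMk (HasFDerivAt.comp (g := frx_u) (f := Prod.snd) (t, inc x) hL
        hasFDerivAt_snd)
    have d1 : fderiv ℝ (c.am fun p => f (φ p)) (t, inc x) (0, ξ) = M (t, x) (frx_e x (pr3 ξ)) := by
      have b : HasFDerivAt (c.am f) (fderiv ℝ (c.am f) (t, x)) (φ (t, inc x)) := by
        rw [eφ]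
        exact (hf.differentiableAt (v := (t, x)) ⟨ht, hx⟩).hasFDerivAt
      have b' : HasFDerivAt (c.am fun p => f (φ p)) _ (t, inc x) :=
        HasFDerivAt.comp (g := c.am f) (f := φ) (t, inc x) b dφ
      rw [b'.fderiv, hMa, ← hL']
      rfl
    have da : HasFDerivAt a (fderiv ℝ (c.am h₀) (inc x) -
        (fderiv ℝ (c.am h₀) (inc x)).comp ((fderiv ℝ inc x).comp L)) (inc x) := by
      have b : HasFDerivAt (c.am h₀) (fderiv ℝ (c.am h₀) (inc x)) (inc (frx_u (inc x))) := by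
        rw [frx_u_inc hx]
        exact hd₀.hasFDerivAt
      have b' : HasFDerivAt inc (fderiv ℝ inc x) (frx_u (inc x)) := by
        rw [frx_u_inc hx]
        exact hinc x
      exact hd₀.hasFDerivAt.sub (HasFDerivAt.comp (g := c.am h₀) (f := inc ∘ frx_u) (inc x) b
        (HasFDerivAt.comp (inc x) b' hL))
    have d2 : fderiv ℝ (fun p : ℝ × E 5 => Θ (φ p) (a p.2)) (t, inc x) (0, ξ) =
        Θ (t, x) (fderiv ℝ (c.am h₀) (inc x) ξ -
          fderiv ℝ (c.am h₀) (inc x) (inc (frx_e x (pr3 ξ)))) := by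
      have m : (t, inc x) ∈ Icc (0 : ℝ) 1 ×ˢ Sc := ⟨ht, hxc⟩
      have b := ((hΘφ.contDiffAt (hOo.mem_nhds (hKo m))).differentiableAt (by simp)).hasFDerivAt
      have b' : HasFDerivAt (fun p : ℝ × E 5 => a p.2) _ (t, inc x) :=
        HasFDerivAt.comp (g := a) (f := Prod.snd) (t, inc x) da hasFDerivAt_snd
      rw [(b.clm_apply b').fderiv]
      simp [ha0 x hx, eφ, hL', fderiv_inc]
    have hq : c.q (f (0, x)) = c.q (h₀ (inc x)) := by rw [h0 x hx]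
    have d3 : ∀ u, P (0, x) (fderiv ℝ (c.am h₀) (inc x) u) = fderiv ℝ (c.am h₀) (inc x) u :=
      fun u => by
        show c.P (c.q (f (0, x))) _ = _
        rw [hq]
        exact P_fderiv_am hd₀ u
    have d4 : ∀ z, P (t, x) (Θ (t, x) z) = Θ (t, x) (P (0, x) z) := fun z =>
      DFunLike.congr_fun (hΘc _ hp).1 z
    change fderiv ℝ (c.am fun w => H (t, w)) (inc x) ξ = 0 at hξ
    rw [fderiv_slice (hdH t ht), hder (t, inc x) ⟨ht, hxc⟩, d1, d2, eφ] at hξ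
    change _ + P (t, x) _ = 0 at hξ
    rw [d4, map_sub, d3, d3] at hξ
    refine frx_inj hx (Q := Q (t, x)) (Q₀ := Q (0, x)) ?_ (hg _ hxc).inj (hJi _ hp) (hQM _ hp)
      (hΘc _ hp).2 (fun z => ⟨R (0, x) (P (0, x) z), ?_⟩) hξ
    · obtain ⟨U, hU⟩ := hΘu (t, x) ⟨ht, hx⟩
      rw [← hU]
      exact (ContinuousLinearEquiv.unitsEquiv ℝ _ U).injective
    · have b : HasFDerivAt (c.am fun y => h₀ (inc y)) _ x :=
        HasFDerivAt.comp (g := c.am h₀) (f := inc) x hd₀.hasFDerivAt (hinc x)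
      rw [hQa, ← (hR' _ hp0).2, hMa, ← fderiv_slice (hf.differentiableAt (v := (0, x)) ⟨z01, hx⟩),
        fderiv_congr_S2 (a := fun y => h₀ (inc y)) hx (frx_e_inner hx _) b.differentiableAt
          ((hf.slice z01).differentiableAt hx)
          (eventually_nhdsWithin_of_forall fun y hy => by rw [h0 y hy]), b.fderiv,
        ContinuousLinearMap.comp_apply, fderiv_inc, frx_e_e hx]
  · have e : (fun w => H (0, w)) =ᶠ[𝓝 (inc x)] h₀ := hH0.filter_mono (nhds_le_nhdsSet hxc)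
    have e' : (c.am fun w => H (0, w)) =ᶠ[𝓝 (inc x)] c.am h₀ :=
      e.mono fun w hw => congrArg (fun y => c.ι (c.q y)) hw
    show c.Sgn (c.q (H (0, inc x))) (fderiv ℝ (c.am fun w => H (0, w)) (inc x)) 1
    rw [e'.fderiv_eq, show H (0, inc x) = h₀ (inc x) from e.self_of_nhds]
    exact hg _ hxc

end Ctx

end Pool.Agent.CSP
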