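import Pool.Agent.Lib.MP_436e1a_gt.I.Sat
import Pool.Agent.Lib.MP_436e1a_gt.I.Frx
import Pool.Agent.Lib.MP_436e1a_gt.H.Iface

/-! Satellites of a family of framed spheres with one self-crossing. -/

open scoped Topology RealInnerProductSpace
open Set

namespace Pool.Agent.CSP

/-- the first point of the crossing -/
noncomputable def xA : E 3 := !₂[1, 0, 0]

theorem xA_mem : xA ∈ S2 ∧ -xA ∈ S2 ∧ xA ≠ -xA := by
  refine ⟨mem_S2.2 (by simp [xA]), mem_S2.2 (by simp [xA]), fun h => ?_⟩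
  have h1 := congrArg (fun u : E 3 => u 0) h
  simp [xA] at h1
  linarith

theorem cab_neg (u : E 3) : dd (-u) = -dd u := by
  have h : cub (-u) = -cub u := by
    rw [← neg_one_smul ℝ u, cub_smul, ← neg_one_smul ℝ (cub u)]
    norm_num
  rw [dd, dd, h, nrm, nrm, norm_neg, smul_neg]

theorem cab_norm {u : E 3} (hu : u ∈ S2) (h : dd u 2 = 0) : u 2 = 0 ∧ ‖cub u‖ = 1 := by
  have h0 := norm_ne_zero_iff.2 (cub_ne_zero (ne_zero_of_S2 hu))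
  have h1 := mem_S2.1 hu
  have h2 : u 2 = 0 := by
    have h3 : ‖cub u‖⁻¹ * (u 2 * (u 0 ^ 2 + u 1 ^ 2 + u 2 ^ 2)) = 0 := h
    rw [h1, mul_one] at h3
    exact (mul_eq_zero.1 h3).resolve_left (inv_ne_zero h0)
  refine ⟨h2, (pow_eq_one_iff_of_nonneg (norm_nonneg _) two_ne_zero).1 ?_⟩
  rw [h2] at h1
  rw [ml_sq]
  simp only [cub, PiLp.toLp_apply, Matrix.cons_val, h2]
  linear_combination ((u 0 ^ 2 + u 1 ^ 2) ^ 2 + (u 0 ^ 2 + u 1 ^ 2) + 1) * h1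

theorem cab_dd_iff {u : E 3} (hu : u ∈ S2) : dd u = xA ↔ cub u = xA := by
  constructor
  · intro h
    rw [← h, dd, nrm_of_norm (cab_norm hu (by simp [h, xA])).2]
  · intro h
    rw [dd, h, nrm_of_S2 xA_mem.1]

theorem cab_pre : (S2 ∩ dd ⁻¹' {xA}).ncard = 3 := by
  have h3 : √3 ^ 2 = 3 := Real.sq_sqrt (by norm_num)
  have h4 : 0 < √3 := Real.sqrt_pos.2 (by norm_num)
  refine ncard_eq_three.2 ⟨xA, !₂[-1 / 2, √3 / 2, 0], !₂[-1 / 2, -(√3 / 2), 0], fun h => ?_,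
    fun h => ?_, fun h => ?_, Subset.antisymm ?_ ?_⟩
  · have h1 := congrArg (fun u : E 3 => u 0) h
    simp [xA] at h1
    linarith
  · have h1 := congrArg (fun u : E 3 => u 0) h
    simp [xA] at h1
    linarith
  · have h1 := congrArg (fun u : E 3 => u 1) h
    simp at h1
    linarith
  · rintro u ⟨hu, h⟩
    have h2 := (cab_norm hu (by rw [show dd u = xA from h]; simp [xA])).1
    have h5 := (cab_dd_iff hu).1 h
    have e0 : u 0 ^ 3 - 3 * u 0 * u 1 ^ 2 = 1 := congrArg (fun u : E 3 => u 0) h5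
    have e1 : 3 * u 0 ^ 2 * u 1 - u 1 ^ 3 = 0 := congrArg (fun u : E 3 => u 1) h5
    have h1 := mem_S2.1 hu
    rw [h2] at h1
    have e2 : (u 0 - 1) * (2 * u 0 + 1) ^ 2 = 0 := by linear_combination e0 + 3 * u 0 * h1
    rcases mul_eq_zero.1 e2 with e | e
    · have a0 : u 0 = 1 := by linarith
      have a1 : u 1 = 0 := pow_eq_zero_iff two_ne_zero |>.1 (by rw [a0] at h1; linarith)
      exact Or.inl (ml_ext a0 a1 h2)
    · have a0 : u 0 = -1 / 2 := by linarith [pow_eq_zero_iff two_ne_zero |>.1 e]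
      have e3 : (u 1 - √3 / 2) * (u 1 + √3 / 2) = 0 := by
        rw [a0] at h1
        linear_combination h1 - 1 / 4 * h3
      rcases mul_eq_zero.1 e3 with e | e
      · exact Or.inr (Or.inl (ml_ext a0 (sub_eq_zero.1 e) h2))
      · exact Or.inr (Or.inr (ml_ext a0 (eq_neg_of_add_eq_zero_left e) h2))
  · have key : ∀ u : E 3, u ∈ S2 → cub u = xA → u ∈ S2 ∩ dd ⁻¹' {xA} := fun u hu h =>
      ⟨hu, (cab_dd_iff hu).2 h⟩
    rintro u (rfl | rfl | rfl)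
    · exact key _ xA_mem.1 (by refine ml_ext ?_ ?_ ?_ <;> simp [cub, xA])
    · refine key _ (mem_S2.2 ?_) (ml_ext ?_ ?_ ?_) <;>
        simp only [cub, xA, PiLp.toLp_apply, Matrix.cons_val]
      · linear_combination 1 / 4 * h3
      · linear_combination 3 / 8 * h3
      · linear_combination -(√3 / 8) * h3
      · ring
    · refine key _ (mem_S2.2 ?_) (ml_ext ?_ ?_ ?_) <;>
        simp only [cub, xA, PiLp.toLp_apply, Matrix.cons_val]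
      · linear_combination 1 / 4 * h3
      · linear_combination 3 / 8 * h3
      · linear_combination (√3 / 8) * h3
      · ring

/-- `± xA` have three preimages each: height `0` and `z ^ 3 = ± 1` -/
theorem dd_preimage : (S2 ∩ dd ⁻¹' {xA}).ncard = 3 ∧ (S2 ∩ dd ⁻¹' {-xA}).ncard = 3 := by
  refine ⟨cab_pre, ?_⟩
  refine Eq.trans ?_ ((ncard_image_of_injective (S2 ∩ dd ⁻¹' {xA}) neg_injective).trans cab_pre)
  refine congrArg _ (Subset.antisymm ?_ ?_)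
  · rintro u ⟨hu, h⟩
    refine ⟨-u, ⟨by simpa using hu, ?_⟩, neg_neg u⟩
    rw [mem_preimage, cab_neg, show dd u = -xA from h, neg_neg]
    rfl
  · rintro _ ⟨u, ⟨hu, h⟩, rfl⟩
    refine ⟨by simpa using hu, ?_⟩
    rw [mem_preimage, cab_neg, show dd u = xA from h]
    rfl

theorem cab_diff {u : E 3} (hu : u ∈ S2) : DifferentiableAt ℝ dd u :=
  (contDiffOn_dd.contDiffAt (isOpen_compl_singleton.mem_nhds (ne_zero_of_S2 hu))).differentiableAt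
    (by simp)

theorem cab_fderiv (u v : E 3) :
    fderiv ℝ cub u v 1 = 6 * u 0 * u 1 * v 0 + 3 * (u 0 ^ 2 - u 1 ^ 2) * v 1 ∧
      fderiv ℝ cub u v 2 = v 2 * (u 0 ^ 2 + u 1 ^ 2 + u 2 ^ 2) +
        u 2 * (2 * u 0 * v 0 + 2 * u 1 * v 1 + 2 * u 2 * v 2) := by
  have hd : DifferentiableAt ℝ cub u := contDiff_cub.differentiable (by simp) u
  have h : ∀ i, HasDerivAt (fun t : ℝ => u i + t * v i) (v i) 0 := fun i => by
    simpa using ((hasDerivAt_id (0 : ℝ)).mul_const (v i)).const_add (u i)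
  constructor
  · rw [tl_coord hd]
    refine tl_col (differentiableAt_euclidean.1 hd 1)
      ((((((h 0).pow 2).const_mul 3).mul (h 1)).sub ((h 1).pow 3)).congr_deriv ?_)
    simp
    ring
  · rw [tl_coord hd]
    refine tl_col (differentiableAt_euclidean.1 hd 2)
      (((h 2).mul ((((h 0).pow 2).add ((h 1).pow 2)).add ((h 2).pow 2))).congr_deriv ?_)
    simp

/-- on the equator `dd` is an immersion of the sphere; its derivative is tangent -/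
theorem dd_regular {u : E 3} (hu : u ∈ S2) (h2 : dd u = xA ∨ dd u = -xA) {v : E 3}
    (hv : ⟪u, v⟫ = 0) : ⟪dd u, fderiv ℝ dd u v⟫ = 0 ∧ (fderiv ℝ dd u v = 0 → v = 0) := by
  obtain ⟨σ, hσ, h3⟩ : ∃ σ : ℝ, σ ≠ 0 ∧ dd u = σ • xA :=
    h2.elim (fun h => ⟨1, one_ne_zero, by rw [h, one_smul]⟩)
      fun h => ⟨-1, by norm_num, by rw [h, neg_one_smul]⟩
  obtain ⟨h4, h5⟩ := cab_norm hu (by simp [h3, xA])
  have h6 : dd u = cub u := nrm_of_norm h5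
  have hd : DifferentiableAt ℝ cub u := contDiff_cub.differentiable (by simp) u
  have h7 : fderiv ℝ dd u v = fderiv ℝ cub u v - ⟪cub u, fderiv ℝ cub u v⟫ • cub u := by
    rw [← fderiv_nrm h5]
    exact congrArg (· v) (fderiv_comp u (lnk_diff_nrm (cub_ne_zero (ne_zero_of_S2 hu))) hd)
  rw [h7, h6]
  refine ⟨by rw [inner_sub_right, inner_smul_right, real_inner_self_eq_norm_sq, h5]; ring,
    fun h => ?_⟩
  rw [h6] at h3
  have e0 : u 0 ^ 3 - 3 * u 0 * u 1 ^ 2 = σ := by simpa [cub, xA] using congrArg (· 0) h3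
  have e1 := congrArg (fun u : E 3 => u 1) h
  have e2 := congrArg (fun u : E 3 => u 2) h
  simp only [h3, xA, PiLp.sub_apply, PiLp.smul_apply, Matrix.cons_val, smul_zero,
    sub_zero, PiLp.zero_apply, (cab_fderiv u v).1, (cab_fderiv u v).2, mem_S2.1 hu] at e1 e2
  rw [inner_E3, h4] at hv
  rw [h4] at e2
  refine ml_ext ((mul_eq_zero_iff_left hσ).1 ?_) ((mul_eq_zero_iff_left hσ).1 ?_) ?_
  · linear_combination -(u 1 / 3) * e1 + (u 0 ^ 2 - u 1 ^ 2) * hv - v 0 * e0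
  · linear_combination (u 0 / 3) * e1 - 2 * u 0 * u 1 * hv - v 1 * e0
  · simpa using e2

theorem cab_chain {V V' W : Type} [NormedAddCommGroup V] [NormedSpace ℝ V] [NormedAddCommGroup V']
    [NormedSpace ℝ V'] [NormedAddCommGroup W] [NormedSpace ℝ W] {F : ℝ × V' → W} {ψ : V → V'}
    {t : ℝ} {x : V} (hF : DifferentiableAt ℝ F (t, ψ x)) (hψ : DifferentiableAt ℝ ψ x) :
    DifferentiableAt ℝ (fun p : ℝ × V => F (p.1, ψ p.2)) (t, x) ∧ ∀ τ v,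
      fderiv ℝ (fun p : ℝ × V => F (p.1, ψ p.2)) (t, x) (τ, v) =
        fderiv ℝ F (t, ψ x) (τ, fderiv ℝ ψ x v) := by
  have h := hF.hasFDerivAt.comp (t, x) ((hasFDerivAt_id t).prodMap (t, x) hψ.hasFDerivAt)
  exact ⟨h.differentiableAt, fun τ v => congrArg (· (τ, v)) h.fderiv⟩

theorem cab_split {X : Type} [TopologicalSpace X] {p : X} {P : ℝ × X → Prop}
    (h : ∀ᶠ z in 𝓝 ((0 : ℝ), p), P z) :
    ∃ N ∈ 𝓝 p, ∀ᶠ ε in 𝓝[>] (0 : ℝ), 0 < ε ∧ ∀ p' ∈ N, P (ε, p') := by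
  rw [nhds_prod_eq, Filter.eventually_prod_iff] at h
  obtain ⟨pa, ha, pb, hb, h⟩ := h
  refine ⟨_, hb, ?_⟩
  filter_upwards [self_mem_nhdsWithin, ha.filter_mono nhdsWithin_le_nhds] with ε h1 h2
  exact ⟨h1, fun p' hp => h h2 hp⟩

theorem cab_cpt {X B : Type} [TopologicalSpace X] {K : Set X} (hK : IsCompact K) {l : Filter B}
    {P : B → X → Prop} (h : ∀ p ∈ K, ∃ N ∈ 𝓝 p, ∀ᶠ b in l, ∀ p' ∈ N, P b p') :
    ∀ᶠ b in l, ∀ p ∈ K, P b p :=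
  hK.induction_on (p := fun s => ∀ᶠ b in l, ∀ p ∈ s, P b p) (by simp)
    (fun _ _ hst ht => ht.mono fun _ hb p hp => hb p (hst hp))
    (fun _ _ hs ht => (hs.and ht).mono fun _ hb p hp => hp.elim (hb.1 p) (hb.2 p))
    fun p hp => (h p hp).imp fun _ hN => ⟨mem_nhdsWithin_of_mem_nhds hN.1, hN.2⟩

theorem cab_K : IsCompact (Icc (0 : ℝ) 1 ×ˢ S2 ×ˢ S2) :=
  isCompact_Icc.prod ((isCompact_sphere _ _).prod (isCompact_sphere _ _))

theorem cab_sat {φ : ℝ → E 3 → E 5} (hφ : Sat φ) {u : E 3} (hu : u ∈ S2) :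
    ContinuousAt (fun p : ℝ × E 3 => φ p.1 p.2) (0, u) := by
  have h : (univ ×ˢ {0}ᶜ : Set (ℝ × E 3)) ∈ 𝓝 ((0 : ℝ), u) :=
    (isOpen_univ.prod isOpen_compl_singleton).mem_nhds ⟨trivial, ne_zero_of_S2 hu⟩
  exact hφ.sm.continuousOn.continuousAt h

namespace Ctx

variable {c : Ctx} {H : ℝ × E 5 → c.Y} {φ : ℝ → E 3 → E 5}

theorem cab_loc (hH : c.FFam H) {t : ℝ} (ht : t ∈ Icc (0 : ℝ) 1) {v : E 5} (hv : v ∈ Sc) :
    ∃ A' K', IsOpen A' ∧ IsOpen K' ∧ t ∈ A' ∧ v ∈ K' ∧ c.SmOn H (A' ×ˢ K') ∧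
      ∀ b ∈ A', InjOn (fun x => c.am H (b, x)) K' ∧
        ∀ x ∈ K', ∀ w, fderiv ℝ (c.am H) (b, x) (0, w) = 0 → w = 0 := by
  obtain ⟨O, hO, hK, hs⟩ := hH.sm
  obtain ⟨A', K', h1, h2, h3, h4, h5, h6⟩ := locinj_at hO hs.2 (hK ⟨ht, hv⟩) fun w hw => by
    rw [← fderiv_slice (hH.sm.differentiableAt ⟨ht, hv⟩)] at hw
    exact (hH.sgn t ht v hv).inj (hw.trans (map_zero _).symm)
  exact ⟨A', K', h1, h2, h3, h4, hs.mono h5, h6⟩

theorem cab_cont (hH : c.FFam H) (hφ : Sat φ) {p : ℝ × E 3 × E 3} (ht : p.1 ∈ Icc (0 : ℝ) 1)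
    {π : E 3 × E 3 → E 3} (hπ : Continuous π) (hu : π p.2 ∈ S2) :
    ContinuousAt (fun z : ℝ × ℝ × E 3 × E 3 => φ z.1 (π z.2.2)) (0, p) ∧
      ContinuousAt (fun z : ℝ × ℝ × E 3 × E 3 => H (z.2.1, φ z.1 (π z.2.2))) (0, p) := by
  have h1 : ContinuousAt (fun z : ℝ × ℝ × E 3 × E 3 => φ z.1 (π z.2.2)) (0, p) :=
    ContinuousAt.comp (g := fun p : ℝ × E 3 => φ p.1 p.2)
      (f := fun z : ℝ × ℝ × E 3 × E 3 => (z.1, π z.2.2)) (x := (0, p)) (cab_sat hφ hu)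
      (continuous_fst.prodMk (hπ.comp continuous_snd.snd)).continuousAt
  exact ⟨h1, ContinuousAt.comp (g := H)
    (f := fun z : ℝ × ℝ × E 3 × E 3 => (z.2.1, φ z.1 (π z.2.2))) (x := (0, p))
    (hH.sm.continuousAt ⟨ht, hφ.zero _ hu⟩) (continuousAt_snd.fst.prodMk h1)⟩

theorem cab_lab {g g' : c.G} {y : c.Y} (h : g' • y = g • y) : g' = g := by
  have h1 : (g⁻¹ * g') • y = y := by rw [mul_smul, h, inv_smul_smul]
  exact (inv_mul_eq_one.1 (c.smul_eq_self h1)).symm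

theorem cab_flip {f : ℝ × E 3 → c.Y} {g : c.G} (hg : g = g⁻¹) {t : ℝ} {s : ℤˣ} {x y : E 3}
    (hc : c.Cross f (fun p => g • f p) s t x y) : c.Cross f (fun p => g • f p) (-s) t y x := by
  have h := hc.symm.smul g
  have e : (fun p => g • g • f p) = f := funext fun p => by
    nth_rewrite 1 [hg]
    exact inv_smul_smul g _
  rwa [e] at h

/-- satellites of a framed family are regular families (`locinj_at` or openness of injectivity of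
`D_v (am H)` near `Icc 0 1 ×ˢ Sc`, chain rule) -/
theorem FFam.reg_sat (hH : c.FFam H) (hφ : Sat φ) : ∀ᶠ ε in 𝓝[>] (0 : ℝ),
    c.SmNear (fun p : ℝ × E 3 => H (p.1, φ ε p.2)) (Icc 0 1 ×ˢ S2) ∧
      c.Reg fun p : ℝ × E 3 => H (p.1, φ ε p.2) := by
  obtain ⟨O, hO, hK, hs⟩ := hH.sm
  have h1 : Icc (0 : ℝ) 1 ×ˢ Sc ⊆
      interior {p | p ∈ O ∧ ∀ w, fderiv ℝ (c.am H) p (0, w) = 0 → w = 0} := by
    rintro ⟨t, v⟩ ⟨ht, hv⟩
    obtain ⟨A', K', h1, h2, h3, h4, -, h6⟩ := cab_loc hH ht hv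
    refine mem_interior_iff_mem_nhds.2 ?_
    filter_upwards [hO.mem_nhds (hK ⟨ht, hv⟩), (h1.prod h2).mem_nhds ⟨h3, h4⟩] with p h7 h8
    exact ⟨h7, (h6 p.1 h8.1).2 p.2 h8.2⟩
  obtain ⟨J, W, -, hW, hJ, hW', h2⟩ :=
    generalized_tube_lemma isCompact_Icc isCompact_Sc isOpen_interior h1
  obtain ⟨δ, hδ, h3⟩ := hφ.eventually (hW.mem_nhdsSet.2 hW')
  filter_upwards [Ioo_mem_nhdsGT hδ] with ε hε
  have h4 : ∀ t ∈ Icc (0 : ℝ) 1, ∀ u ∈ S2, (t, φ ε u) ∈ O ∧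
      ∀ w, fderiv ℝ (c.am H) (t, φ ε u) (0, w) = 0 → w = 0 := fun t ht u hu => by
    have h9 := interior_subset
      (h2 (mk_mem_prod (hJ ht) (h3 ε (by rw [abs_of_pos hε.1]; exact hε.2) u hu)))
    exact h9
  have h5 : c.SmNear H O := ⟨O, hO, Subset.rfl, hs⟩
  have h6 := hφ.sm.comp (f := fun u : E 3 => (ε, u)) (s := {0}ᶜ)
    (contDiffOn_const.prodMk contDiffOn_id) fun u hu => ⟨trivial, hu⟩
  have h7 : c.SmNear (fun p : ℝ × E 3 => H (p.1, φ ε p.2)) (Icc 0 1 ×ˢ S2) :=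
    h5.comp (φ := fun p : ℝ × E 3 => (p.1, φ ε p.2)) (isOpen_univ.prod isOpen_compl_singleton)
      (prod_mono (subset_univ _) fun _ => ne_zero_of_S2)
      (contDiffOn_fst.prodMk (h6.comp contDiffOn_snd fun _ hp => hp.2))
      fun p hp => (h4 p.1 hp.1 p.2 hp.2).1
  refine ⟨h7, (reg_iff h7).2 fun t ht x hx v hv h0 => hφ.imm ε hε.1 x hx v hv ?_⟩
  have h8 : DifferentiableAt ℝ (φ ε) x :=
    (h6.contDiffAt (isOpen_compl_singleton.mem_nhds (ne_zero_of_S2 hx))).differentiableAt (by simp)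
  exact (h4 t ht x hx).2 _
    (((cab_chain (h5.differentiableAt (h4 t ht x hx).1) h8).2 0 v).symm.trans h0)

/-- Near a triple `(t, u, u')` that is not a double point of the limit there are no double points for
small `ε > 0` and any label. Sketch. Let `v = φ 0 u`, `v' = φ 0 u'`. If `q (H (t, v)) ≠ q (H (t, v'))` use
continuity. If `v = v'` then `q ∘ H (t', ·)` is injective near `v` for `t'` near `t` (`locinj_at` for
`am H`), so `φ ε u₁ = φ ε u₂` and `u₁ = u₂`. -/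
theorem FFam.no_double (hH : c.FFam H) (hφ : Sat φ) {p : ℝ × E 3 × E 3} (ht : p.1 ∈ Icc (0 : ℝ) 1)
    (hu : p.2.1 ∈ S2) (hu' : p.2.2 ∈ S2)
    (h : c.q (H (p.1, φ 0 p.2.1)) = c.q (H (p.1, φ 0 p.2.2)) → φ 0 p.2.1 = φ 0 p.2.2) :
    ∃ N ∈ 𝓝 p, ∀ᶠ ε in 𝓝[>] (0 : ℝ), ∀ p' ∈ N, ∀ g : c.G,
      p' ∉ c.Zs (fun w : ℝ × E 3 => H (w.1, φ ε w.2)) g := by
  obtain ⟨a1, a2⟩ := cab_cont hH hφ ht continuous_fst hu
  obtain ⟨b1, b2⟩ := cab_cont hH hφ ht continuous_snd hu'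
  by_cases hq : c.q (H (p.1, φ 0 p.2.1)) = c.q (H (p.1, φ 0 p.2.2))
  · obtain ⟨A', K', h1, h2, h3, h4, -, h6⟩ := cab_loc hH ht (hφ.zero _ hu)
    have h4' : φ 0 p.2.2 ∈ K' := by
      rw [← h hq]
      exact h4
    obtain ⟨N, hN, h7⟩ := cab_split ((continuousAt_snd.fst.eventually (h1.mem_nhds h3)).and
      ((a1.eventually (h2.mem_nhds h4)).and (b1.eventually (h2.mem_nhds h4'))))
    refine ⟨N, hN, h7.mono fun ε hε p' hp g hZ => hZ.2.2.2.1 ?_⟩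
    obtain ⟨h8, h9, h10⟩ := hε.2 p' hp
    refine hφ.inj ε hε.1 hZ.2.1 hZ.2.2.1 ((h6 _ h8).1 h9 h10 (c.am_eq_iff.2 ?_))
    exact (congrArg c.q hZ.2.2.2.2).trans (c.q_smul g _)
  · obtain ⟨N, hN, h7⟩ := cab_split (((c.continuous_q.continuousAt.comp a2).prodMk
      (c.continuous_q.continuousAt.comp b2)).eventually
        (isClosed_diagonal.isOpen_compl.mem_nhds hq))
    exact ⟨N, hN, h7.mono fun ε hε p' hp g hZ =>
      hε.2 p' hp ((congrArg c.q hZ.2.2.2.2).trans (c.q_smul g _))⟩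

/-- meridians have no double points (`FFam.no_double` and compactness; `mer 0` is constant) -/
theorem FFam.zs_mer (hH : c.FFam H) (b : Bool) : ∀ᶠ ε in 𝓝[>] (0 : ℝ), ∀ g : c.G,
    c.Zs (fun w : ℝ × E 3 => H (w.1, mer ε (rfb b w.2))) g = ∅ := by
  refine (cab_cpt cab_K fun p hp => hH.no_double (sat_mer.rfb b) hp.1 hp.2.1 hp.2.2
    fun _ => by simp only [mer, zero_smul]).mono fun ε hε g => ?_
  exact eq_empty_of_forall_notMem fun p hp => hε p ⟨hp.1, hp.2.1, hp.2.2.1⟩ g hp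

theorem cab_cross (hH : c.FFam H) {f : ℝ × E 3 → c.Y} (hf : c.SmNear f (Icc 0 1 ×ˢ S2))
    (e : ∀ t ∈ Icc (0 : ℝ) 1, ∀ x ∈ S2, H (t, inc x) = f (t, x)) {g : c.G} {t : ℝ}
    (ht : t ∈ Ioo (0 : ℝ) 1) {s : ℤˣ} {u u' : E 3} (hu : u ∈ S2) (hu' : u' ∈ S2)
    (h1 : dd u = xA ∨ dd u = -xA) (h2 : dd u' = xA ∨ dd u' = -xA)
    (hc : c.Cross f (fun p => g • f p) s t (dd u) (dd u')) :
    ∃ ε, c.Cross (fun w : ℝ × E 3 => H (w.1, sig 0 w.2))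
      (fun w : ℝ × E 3 => g • H (w.1, sig 0 w.2)) ε t u u' := by
  have ht' := Ioo_subset_Icc_self ht
  have m : ∀ x ∈ S2, dd x ∈ S2 := fun x hx => dd_mem (ne_zero_of_S2 hx)
  have d : ∀ x ∈ S2, DifferentiableAt ℝ (c.am f) (t, x) := fun x hx =>
    hf.differentiableAt ⟨ht', hx⟩
  have d1 := fun x hx => cab_chain (d _ (m x hx)) (cab_diff hx)
  have d2 : ∀ x ∈ S2, DifferentiableAt ℝ (c.am fun w : ℝ × E 3 => H (w.1, sig 0 w.2)) (t, x) := by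
    intro x hx
    have h3 : DifferentiableAt ℝ (fun y => inc (dd y)) x :=
      (contDiff_inc.differentiable (by simp) _).comp x (cab_diff hx)
    simp only [sig_zero]
    exact (cab_chain (ψ := fun y => inc (dd y)) (x := x)
      (hH.sm.differentiableAt ⟨ht', inc_mem_Sc.2 (m x hx)⟩) h3).1
  have ev : ∀ x : E 3, ∀ᶠ p in 𝓝[univ ×ˢ S2] (t, x), H (p.1, sig 0 p.2) = f (p.1, dd p.2) := by
    intro x
    filter_upwards [self_mem_nhdsWithin, mem_nhdsWithin_of_mem_nhds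
      (continuousAt_fst.eventually (Icc_mem_nhds ht.1 ht.2))] with p h3 h4
    rw [sig_zero, e _ h4 _ (m _ h3.2)]
  have k := (exists_cross_iff (m u hu) (m u' hu') (d _ (m u hu))
    (by rw [c.am_smul]; exact d _ (m u' hu')) hc.1).1 ⟨s, hc⟩
  obtain ⟨ε, hε⟩ := (exists_cross_iff (f := fun w : ℝ × E 3 => f (w.1, dd w.2))
    (g := fun w : ℝ × E 3 => g • f (w.1, dd w.2)) hu hu' (d1 u hu).1
    (by rw [c.am_smul]; exact (d1 u' hu').1) hc.1).2 fun τ v w hv hw h0 => by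
      rw [c.am_smul] at h0 k
      obtain ⟨k1, k2, k3⟩ := k τ _ _ (dd_regular hu h1 hv).1 (dd_regular hu' h2 hw).1
        (((d1 u hu).2 τ v).symm.trans (h0.trans ((d1 u' hu').2 τ w)))
      exact ⟨k1, (dd_regular hu h1 hv).2 k2, (dd_regular hu' h2 hw).2 k3⟩
  exact ⟨ε, hε.congr hu hu' (d1 u hu).1 (d2 u hu) (by rw [c.am_smul]; exact (d1 u' hu').1)
    (by rw [c.am_smul]; exact d2 u' hu') (ev u) ((ev u').mono fun p hp => congrArg (g • ·) hp)⟩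

/-- The cable has nine double points (eighteen ordered ones) with label `g` and none with another
label. Sketch. `if_stab` with `B = ℝ`, `l = 𝓝[>] 0`, `a (ε, t, u) = H (t, sig ε u)`,
`a (0, t, u) = f (t, dd u)` on `S2` (`sig_zero`), and `Z₀ = {t₀} × (A × A' ∪ A' × A)`, `A`, `A'` the
preimages of `± xA`. Crossings: `exists_cross_iff` for `f` and `dd_regular` (`fderiv_congr_fam`); the
second half by `Cross.smul`, `Cross.symm`, `g = g⁻¹`. Other points: `FFam.no_double`. For a label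
`g' ≠ g`: at points of `Z₀` the values `a` and `g' • a` differ (free action), so nearby too; but the
neighbourhood has to be uniform in `g'`: near a point of `Z₀`, `a p₁ = g' • a p₂` with `a p₁` close to
`g • a p₂` forces `g' = g` (`q_locInj`). Compactness of `Icc 0 1 × S2 × S2`. -/
theorem FFam.zs_sig (hH : c.FFam H) {f : ℝ × E 3 → c.Y} (hf : c.SmNear f (Icc 0 1 ×ˢ S2))
    (e : ∀ t ∈ Icc (0 : ℝ) 1, ∀ x ∈ S2, H (t, inc x) = f (t, x)) {g : c.G} (hg : g = g⁻¹) {t₀ : ℝ}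
    (ht : t₀ ∈ Ioo (0 : ℝ) 1) {s : ℤˣ} (hc : c.Cross f (fun p => g • f p) s t₀ xA (-xA))
    (ho : ∀ t ∈ Icc (0 : ℝ) 1, ∀ x ∈ S2, ∀ y ∈ S2, c.q (f (t, x)) = c.q (f (t, y)) →
      x = y ∨ (t = t₀ ∧ ((x = xA ∧ y = -xA) ∨ (x = -xA ∧ y = xA)))) :
    ∀ᶠ ε in 𝓝[>] (0 : ℝ), (c.Nd (fun w : ℝ × E 3 => H (w.1, sig ε w.2)) g ∧
      (c.Zs (fun w : ℝ × E 3 => H (w.1, sig ε w.2)) g).ncard = 18) ∧
      ∀ g' : c.G, g' ≠ g → c.Zs (fun w : ℝ × E 3 => H (w.1, sig ε w.2)) g' = ∅ := by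
  have m : ∀ x ∈ S2, dd x ∈ S2 := fun x hx => dd_mem (ne_zero_of_S2 hx)
  have f1 : (S2 ∩ dd ⁻¹' {xA}).Finite := finite_of_ncard_ne_zero (by rw [dd_preimage.1]; norm_num)
  have f2 : (S2 ∩ dd ⁻¹' {-xA}).Finite := finite_of_ncard_ne_zero (by rw [dd_preimage.2]; norm_num)
  obtain ⟨Z, hZ⟩ : ∃ Z : Set (ℝ × E 3 × E 3), Z = Prod.mk t₀ ''
      ((S2 ∩ dd ⁻¹' {xA}) ×ˢ (S2 ∩ dd ⁻¹' {-xA}) ∪ (S2 ∩ dd ⁻¹' {-xA}) ×ˢ (S2 ∩ dd ⁻¹' {xA})) :=
    ⟨_, rfl⟩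
  have z1 : Z.Finite := hZ ▸ ((f1.prod f2).union (f2.prod f1)).image _
  have z2 : Z.ncard = 18 := by
    rw [hZ, ncard_image_of_injective _ (Prod.mk_right_injective t₀), ncard_union_eq
      (disjoint_left.2 fun p h1 h2 => xA_mem.2.2 (Eq.trans (Eq.symm h1.1.2) h2.1.2))
      (f1.prod f2) (f2.prod f1), ncard_prod, ncard_prod, dd_preimage.1, dd_preimage.2]
  have z3 : ∀ p ∈ Z, p.1 ∈ Ioo (0 : ℝ) 1 ∧ p.2.1 ∈ S2 ∧ p.2.2 ∈ S2 ∧ p.2.1 ≠ p.2.2 ∧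
      ∃ ε, c.Cross (fun w : ℝ × E 3 => H (w.1, sig 0 w.2))
        (fun w : ℝ × E 3 => g • H (w.1, sig 0 w.2)) ε p.1 p.2.1 p.2.2 := by
    rw [hZ]
    rintro _ ⟨⟨u, u'⟩, ⟨⟨h1, h2⟩, h3, h4⟩ | ⟨⟨h1, h2⟩, h3, h4⟩, rfl⟩
    · have h2' : dd u = xA := h2
      have h4' : dd u' = -xA := h4
      refine ⟨ht, h1, h3, fun h => xA_mem.2.2 (h2'.symm.trans ((congrArg dd h).trans h4')),
        cab_cross hH hf e ht h1 h3 (Or.inl h2') (Or.inr h4') (s := s) ?_⟩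
      rwa [h2', h4']
    · have h2' : dd u = -xA := h2
      have h4' : dd u' = xA := h4
      refine ⟨ht, h1, h3, fun h => xA_mem.2.2 (h4'.symm.trans ((congrArg dd h).symm.trans h2')),
        cab_cross hH hf e ht h1 h3 (Or.inr h2') (Or.inl h4') (s := -s) ?_⟩
      rw [h2', h4']
      exact cab_flip hg hc
  have z4 : ∀ p : ℝ × E 3 × E 3, p.1 ∈ Icc (0 : ℝ) 1 → p.2.1 ∈ S2 → p.2.2 ∈ S2 → p ∉ Z →
      ∃ N ∈ 𝓝 p, ∀ᶠ ε in 𝓝[>] (0 : ℝ), ∀ p' ∈ N, ∀ g : c.G,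
        p' ∉ c.Zs (fun w : ℝ × E 3 => H (w.1, sig ε w.2)) g := by
    intro p h1 h2 h3 h4
    refine hH.no_double sat_sig h1 h2 h3 fun h => ?_
    rw [sig_zero, sig_zero] at h ⊢
    rw [e _ h1 _ (m _ h2), e _ h1 _ (m _ h3)] at h
    rcases ho _ h1 _ (m _ h2) _ (m _ h3) h with h5 | ⟨h5, h6⟩
    · rw [h5]
    · exact absurd (hZ ▸ ⟨p.2, h6.imp (fun h => ⟨⟨h2, h.1⟩, h3, h.2⟩)
        fun h => ⟨⟨h2, h.1⟩, h3, h.2⟩, Prod.ext h5.symm rfl⟩) h4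
  have sm : c.SmNear (fun z : ℝ × ℝ × E 3 => H (z.2.1, sig z.1 z.2.2)) ({0} ×ˢ Icc 0 1 ×ˢ S2) := by
    refine hH.sm.comp (φ := fun z : ℝ × ℝ × E 3 => (z.2.1, sig z.1 z.2.2))
      (O₁ := univ ×ˢ univ ×ˢ {0}ᶜ) (isOpen_univ.prod (isOpen_univ.prod isOpen_compl_singleton))
      (fun z hz => ⟨trivial, trivial, ne_zero_of_S2 hz.2.2⟩)
      (contDiffOn_snd.fst.prodMk (contDiffOn_sig.comp (f := fun z : ℝ × ℝ × E 3 => (z.1, z.2.2))
        (contDiffOn_fst.prodMk contDiffOn_snd.snd) fun z hz => ⟨trivial, hz.2.2⟩))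
      fun z hz => ⟨hz.2.1, ?_⟩
    change sig z.1 z.2.2 ∈ Sc
    rw [show z.1 = 0 from hz.1]
    exact sat_sig.zero _ hz.2.2
  have h1 := if_stab sm (l := 𝓝[>] 0) nhdsWithin_le_nhds (g := g) z1 z3 fun p a1 a2 a3 a4 =>
    (z4 p a1 a2 a3 a4).imp fun N hN => ⟨hN.1, hN.2.mono fun ε hε p' hp => hε p' hp g⟩
  have h2 := cab_cpt cab_K (l := 𝓝[>] (0 : ℝ)) (P := fun ε p => ∀ g' : c.G, g' ≠ g →
      p ∉ c.Zs (fun w : ℝ × E 3 => H (w.1, sig ε w.2)) g') fun p hp => by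
    by_cases hp' : p ∈ Z
    · obtain ⟨-, -, -, -, ε, hε⟩ := z3 p hp'
      obtain ⟨W, hW, hi⟩ := c.q_locInj (H (p.1, sig 0 p.2.1))
      have a := (cab_cont hH sat_sig hp.1 continuous_fst hp.2.1).2
      have b := (c.continuous_smul g).continuousAt.comp
        (cab_cont hH sat_sig hp.1 continuous_snd hp.2.2).2
      have hW' : W ∈ 𝓝 (g • H (p.1, sig 0 p.2.2)) := by
        rw [← show H (p.1, sig 0 p.2.1) = g • H (p.1, sig 0 p.2.2) from hε.1]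
        exact hW
      obtain ⟨N, hN, h7⟩ := cab_split ((a.eventually hW).and (b.eventually hW'))
      refine ⟨N, hN, h7.mono fun ε hε p' hp g' hg' hZ => hg' (cab_lab (hZ.2.2.2.2.symm.trans ?_))⟩
      exact hi (hε.2 p' hp).1 (hε.2 p' hp).2
        ((congrArg c.q hZ.2.2.2.2).trans ((c.q_smul g' _).trans (c.q_smul g _).symm))
    · exact (z4 p hp.1 hp.2.1 hp.2.2 hp').imp fun N hN =>
        ⟨hN.1, hN.2.mono fun ε hε p' hp g' _ => hε p' hp g'⟩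
  filter_upwards [h1, h2] with ε a1 a2
  exact ⟨⟨a1.1, a1.2.trans z2⟩, fun g' hg' => eq_empty_of_forall_notMem fun p hp =>
    a2 p ⟨hp.1, hp.2.1, hp.2.2.1⟩ g' hg' hp⟩

/-- the double points of the core family itself -/
theorem zs_core {f : ℝ × E 3 → c.Y} {g : c.G} (hg : g = g⁻¹) {t₀ : ℝ} (ht : t₀ ∈ Ioo (0 : ℝ) 1)
    {s : ℤˣ} (hc : c.Cross f (fun p => g • f p) s t₀ xA (-xA))
    (ho : ∀ t ∈ Icc (0 : ℝ) 1, ∀ x ∈ S2, ∀ y ∈ S2, c.q (f (t, x)) = c.q (f (t, y)) →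
      x = y ∨ (t = t₀ ∧ ((x = xA ∧ y = -xA) ∨ (x = -xA ∧ y = xA)))) :
    (c.Nd f g ∧ (c.Zs f g).ncard = 2) ∧ ∀ g' : c.G, g' ≠ g → c.Zs f g' = ∅ := by
  have hc' := cab_flip hg hc
  have h1 : ∀ g' : c.G, ∀ p ∈ c.Zs f g', p = (t₀, xA, -xA) ∨ p = (t₀, -xA, xA) := by
    rintro g' ⟨t, x, y⟩ ⟨a1, a2, a3, a4, a5⟩
    rcases ho t a1 x a2 y a3 ((congrArg c.q a5).trans (c.q_smul g' _)) with h | ⟨h, h' | h'⟩
    · exact absurd h a4
    · exact Or.inl (Prod.ext h (Prod.ext h'.1 h'.2))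
    · exact Or.inr (Prod.ext h (Prod.ext h'.1 h'.2))
  have h2 : c.Zs f g = {(t₀, xA, -xA), (t₀, -xA, xA)} := by
    refine Subset.antisymm (h1 g) ?_
    rintro _ (rfl | rfl)
    · exact ⟨Ioo_subset_Icc_self ht, xA_mem.1, xA_mem.2.1, xA_mem.2.2, hc.1⟩
    · exact ⟨Ioo_subset_Icc_self ht, xA_mem.2.1, xA_mem.1, xA_mem.2.2.symm, hc'.1⟩
  refine ⟨⟨⟨h2 ▸ toFinite _, fun p hp => ?_⟩, ?_⟩, fun g' hg' =>
    eq_empty_of_forall_notMem fun p hp => hg' ?_⟩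
  · rcases h1 g p hp with rfl | rfl
    exacts [⟨_, hc⟩, ⟨_, hc'⟩]
  · rw [h2]
    exact ncard_pair fun h => xA_mem.2.2 (congrArg (·.2.1) h)
  · rcases h1 g' p hp with rfl | rfl
    · exact cab_lab (hp.2.2.2.2.symm.trans hc.1)
    · exact cab_lab (hp.2.2.2.2.symm.trans hc'.1)

end Ctx

end Pool.Agent.CSP
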