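import Pool.Agent.Lib.MP_436e1a_gt.I.Push
import Pool.Agent.Lib.MP_436e1a_gt.A.Gen
import Pool.Agent.Lib.MP_436e1a_gt.A.ThinL

/-! Spheres in a 5-manifold are homotopic to links. -/

open scoped Topology ContDiff
open Set

namespace Pool.Agent.CSP

/-- parametric general position on a thin set -/
theorem embl_gen {B V W : Type} [NormedAddCommGroup B] [NormedSpace ℝ B] [FiniteDimensional ℝ B]
    [NormedAddCommGroup V] [NormedSpace ℝ V] [NormedAddCommGroup W] [NormedSpace ℝ W]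
    [FiniteDimensional ℝ W] [MeasurableSpace B] [BorelSpace B] (μ : MeasureTheory.Measure B)
    [μ.IsAddHaarMeasure] {k n : ℕ} (hk : k < n) {T : Set V} (hT : Thin k T) {O : Set (B × V)}
    (hO : IsOpen O) {w : B × V → W} (hw : ContDiffOn ℝ ∞ w O)
    (hr : ∀ p ∈ O, ∃ R : Submodule ℝ W, n ≤ Module.finrank ℝ R ∧ ∀ t ∈ R, ∃ β : B,
      HasDerivAt (fun s : ℝ => w (p.1 + s • β, p.2)) t 0) :
    ∀ᵐ b ∂μ, ∀ v ∈ T, (b, v) ∈ O → w (b, v) ≠ 0 := by
  obtain ⟨Q, φ, hφ, hc⟩ := hT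
  have key : ∀ m, ∀ᵐ b ∂μ, ∀ u ∈ Q m, (b, φ m u) ∈ O → w (b, φ m u) ≠ 0 := fun m => by
    let e : B × E k → B × V := fun p => (p.1, φ m p.2)
    have he : ContDiffOn ℝ ∞ e (univ ×ˢ Q m) :=
      contDiff_fst.contDiffOn.prodMk ((hφ m).2.comp contDiff_snd.contDiffOn fun p hp => hp.2)
    have hO₂ : IsOpen (univ ×ˢ Q m ∩ e ⁻¹' O) :=
      he.continuousOn.isOpen_inter_preimage (isOpen_univ.prod (hφ m).1) hO
    have hw₂ : ContDiffOn ℝ ∞ (w ∘ e) (univ ×ˢ Q m ∩ e ⁻¹' O) :=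
      hw.comp (he.mono inter_subset_left) fun p hp => hp.2
    have h := gen0 μ (n := n) (by rwa [finrank_euclideanSpace_fin]) hO₂ hw₂ fun p hp _ => by
      obtain ⟨R, hR, h⟩ := hr (e p) hp.2
      refine hR.trans (Submodule.finrank_mono fun t ht => ?_)
      obtain ⟨β, hβ⟩ := h t ht
      have h1 := ((hw₂.contDiffAt (hO₂.mem_nhds hp)).differentiableAt (by simp)).hasFDerivAt
      have h2 : HasDerivAt (fun s : ℝ => (p.1 + s • β, p.2)) (β, 0) 0 := by
        have := ((hasDerivAt_id (0 : ℝ)).smul_const β).const_add p.1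
        rw [one_smul] at this
        exact this.prodMk (hasDerivAt_const _ _)
      exact ⟨(β, 0), (h1.comp_hasDerivAt_of_eq 0 h2 (by simp)).unique hβ⟩
    filter_upwards [h] with b hb u hu h1 using hb u ⟨⟨mem_univ _, hu⟩, h1⟩
  filter_upwards [MeasureTheory.ae_all_iff.2 key] with b hb v hv
  obtain ⟨m, u, hu, rfl⟩ := mem_iUnion.1 (hc hv)
  exact hb m u hu

theorem embl_lin {W : Type} [NormedAddCommGroup W] [NormedSpace ℝ W] {v : E 3} (hv : v ≠ 0)
    (z : W) : ∃ A : E 3 →L[ℝ] W, A v = z := by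
  refine ⟨(innerSL ℝ v).smulRight ((‖v‖ ^ 2)⁻¹ • z), ?_⟩
  rw [ContinuousLinearMap.smulRight_apply, innerSL_apply_apply, real_inner_self_eq_norm_sq,
    smul_inv_smul₀ (pow_ne_zero _ (norm_ne_zero_iff.2 hv))]

namespace Ctx

variable {c : Ctx} {ι : Type} [Finite ι]

/-- the parameters -/
abbrev emblB (c : Ctx) (ι : Type) : Type := ι → E c.N × (E 3 →L[ℝ] E c.N)

/-- the perturbed map -/
noncomputable def emblH (g : ι → E 3 → E c.N) (b : emblB c ι) (i : ι) (x : E 3) : E c.N :=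
  g i x + ((b i).1 + (b i).2 x)

omit [Finite ι] in
theorem embl_add (g : ι → E 3 → E c.N) (b β : emblB c ι) (s : ℝ) (i : ι) (x : E 3) :
    emblH g (b + s • β) i x = emblH g b i x + s • ((β i).1 + (β i).2 x) := by
  simp only [emblH, Pi.add_apply, Pi.smul_apply, Prod.fst_add, Prod.snd_add, Prod.smul_fst,
    Prod.smul_snd, add_apply, smul_apply, smul_add]
  abel

section

variable {κ : Type} [Fintype κ] {g : κ → E 3 → E c.N} (hg : ∀ i, ContDiff ℝ ∞ (g i))

include hg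

theorem embl_cd (i : κ) : ContDiff ℝ ∞ fun p : emblB c κ × E 3 => emblH g p.1 i p.2 := by
  have h : ContDiff ℝ ∞ fun p : emblB c κ × E 3 => p.1 i :=
    (contDiff_apply ℝ _ i).comp contDiff_fst
  exact ((hg i).comp contDiff_snd).add (h.fst.add (h.snd.clm_apply contDiff_snd))

variable [MeasurableSpace (emblB c κ)] [BorelSpace (emblB c κ)]
  (μ : MeasureTheory.Measure (emblB c κ)) [μ.IsAddHaarMeasure]

theorem embl_imm (i : κ) : ∀ᵐ b ∂μ, ∀ x ∈ S2, ∀ v ∈ S2, emblH g b i x ∈ c.U →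
    fderiv ℝ c.ρ (emblH g b i x) (fderiv ℝ (g i) x v + (b i).2 v) ≠ 0 := by
  classical
  have h1 : ContDiff ℝ ∞ fun p : emblB c κ × E 3 × E 3 => emblH g p.1 i p.2.1 :=
    (embl_cd hg i).comp (contDiff_fst.prodMk contDiff_snd.fst)
  have h2 : ContDiff ℝ ∞ fun p : emblB c κ × E 3 × E 3 => (p.1 i).2 :=
    ((contDiff_apply ℝ _ i).comp contDiff_fst).snd
  have h3 : ContDiff ℝ ∞ (fderiv ℝ (g i)) := (hg i).fderiv_right (by simp)
  have h4 : ContDiffOn ℝ ∞ (fderiv ℝ c.ρ) c.U :=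
    c.contDiffOn_ρ.fderiv_of_isOpen c.A.U_open (by simp)
  have key := embl_gen μ (n := 5) (by norm_num) (thin_S2.prod thin_S2)
    (O := {p : emblB c κ × E 3 × E 3 | emblH g p.1 i p.2.1 ∈ c.U} ∩ {p | p.2.2 ≠ 0})
    ((c.A.U_open.preimage h1.continuous).inter
      (isOpen_ne_fun continuous_snd.snd continuous_const))
    (w := fun p => fderiv ℝ c.ρ (emblH g p.1 i p.2.1)
      (fderiv ℝ (g i) p.2.1 p.2.2 + (p.1 i).2 p.2.2))
    ((h4.comp h1.contDiffOn fun p hp => hp.1).clm_apply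
      (((h3.comp contDiff_snd.fst).clm_apply contDiff_snd.snd).add
        (h2.clm_apply contDiff_snd.snd)).contDiffOn) fun p hp => by
    refine ⟨(fderiv ℝ c.ρ (emblH g p.1 i p.2.1)).range, ?_, ?_⟩
    · rw [c.range_fderiv_ρ hp.1, c.finrank_range_dι]
    · rintro _ ⟨z, rfl⟩
      obtain ⟨A, hA⟩ := embl_lin hp.2 z
      refine ⟨fun _ => (-A p.2.1, A), ?_⟩
      simp only [embl_add, neg_add_cancel, smul_zero, add_zero, Pi.add_apply, Pi.smul_apply,
        Prod.snd_add, Prod.smul_snd, add_apply,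
        smul_apply, hA]
      have := (((hasDerivAt_id (0 : ℝ)).smul_const z).const_add ((p.1 i).2 p.2.2)).const_add
        (fderiv ℝ (g i) p.2.1 p.2.2)
      rw [one_smul] at this
      exact (fderiv ℝ c.ρ (emblH g p.1 i p.2.1)).hasFDerivAt.comp_hasDerivAt 0 this
  filter_upwards [key] with b hb x hx v hv hU using hb (x, v) ⟨hx, hv⟩ ⟨hU, ne_zero_of_S2 hv⟩

theorem embl_inj (i j : κ) : ∀ᵐ b ∂μ, ∀ x ∈ S2, ∀ y ∈ S2, emblH g b i x ∈ c.U →
    emblH g b j y ∈ c.U → c.ρ (emblH g b i x) = c.ρ (emblH g b j y) → i = j ∧ x = y := by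
  classical
  have h1 : ContDiff ℝ ∞ fun p : emblB c κ × E 3 × E 3 => emblH g p.1 i p.2.1 :=
    (embl_cd hg i).comp (contDiff_fst.prodMk contDiff_snd.fst)
  have h2 : ContDiff ℝ ∞ fun p : emblB c κ × E 3 × E 3 => emblH g p.1 j p.2.2 :=
    (embl_cd hg j).comp (contDiff_fst.prodMk contDiff_snd.snd)
  have h3 : IsOpen {p : emblB c κ × E 3 × E 3 | ¬ (i = j ∧ p.2.1 = p.2.2)} := by
    by_cases hij : i = j
    · simp only [hij, true_and]
      exact isOpen_ne_fun continuous_snd.fst continuous_snd.snd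
    · simp only [hij, false_and, not_false_eq_true, ofPred_true, isOpen_univ]
  have key := embl_gen μ (n := 5) (by norm_num) (thin_S2.prod thin_S2)
    (O := ({p : emblB c κ × E 3 × E 3 | emblH g p.1 i p.2.1 ∈ c.U} ∩
      {p | emblH g p.1 j p.2.2 ∈ c.U}) ∩ {p | ¬ (i = j ∧ p.2.1 = p.2.2)})
    (((c.A.U_open.preimage h1.continuous).inter (c.A.U_open.preimage h2.continuous)).inter h3)
    (w := fun p => c.ρ (emblH g p.1 i p.2.1) - c.ρ (emblH g p.1 j p.2.2))
    ((c.contDiffOn_ρ.comp h1.contDiffOn fun p hp => hp.1.1).sub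
      (c.contDiffOn_ρ.comp h2.contDiffOn fun p hp => hp.1.2)) fun p hp => by
    refine ⟨(fderiv ℝ c.ρ (emblH g p.1 i p.2.1)).range, ?_, ?_⟩
    · rw [c.range_fderiv_ρ hp.1.1, c.finrank_range_dι]
    · rintro _ ⟨z, rfl⟩
      have hβ : ∃ β : emblB c κ, (β i).1 + (β i).2 p.2.1 = z ∧ (β j).1 + (β j).2 p.2.2 = 0 := by
        by_cases hij : i = j
        · obtain ⟨A, hA⟩ := embl_lin (sub_ne_zero.2 fun e => hp.2 ⟨hij, e⟩) z
          exact ⟨fun _ => (-A p.2.2, A), by rw [← hA, map_sub, neg_add_eq_sub], neg_add_cancel _⟩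
        · refine ⟨Pi.single i (z, 0), ?_, ?_⟩
          · simp
          · simp [Pi.single_eq_of_ne (Ne.symm hij)]
      obtain ⟨β, e1, e2⟩ := hβ
      refine ⟨β, ?_⟩
      simp only [embl_add, e1, e2, smul_zero, add_zero]
      have := ((hasDerivAt_id (0 : ℝ)).smul_const z).const_add (emblH g p.1 i p.2.1)
      rw [one_smul] at this
      exact ((c.sm_ρ hp.1.1).hasFDerivAt.comp_hasDerivAt_of_eq 0 this (by simp)).sub_const _
  filter_upwards [key] with b hb x hx y hy hU hU' e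
  by_contra hne
  exact hb (x, y) ⟨hx, hy⟩ ⟨⟨hU, hU'⟩, hne⟩ (sub_eq_zero.2 e)

end

/-- Smooth the maps on a shell and add a small generic affine map. -/
theorem exists_link_htp {a : ι → E 3 → c.Y} (ha : ∀ i, ContinuousOn (a i) S2) :
    ∃ L, c.Link L ∧ ∀ i, HtpOn S2 (a i) (L i) := by
  have := Fintype.ofFinite ι
  obtain ⟨δ, hδ, hrad⟩ := c.exists_rad
  let f : ι → E 3 → c.Y := fun i x => a i (nrm x)
  have hf : ∀ i, ContinuousOn (f i) {0}ᶜ := fun i =>
    (ha i).comp contDiffOn_nrm.continuousOn fun x hx => nrm_mem hx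
  have hK : {x : E 3 | 1 / 2 ≤ ‖x‖} ⊆ {0}ᶜ := fun x hx h0 => by
    rw [mem_singleton_iff.1 h0, mem_ofPred_eq, norm_zero] at hx
    norm_num at hx
  choose g hg hg0 hgc using fun i => smoothkeep (isClosed_le continuous_const continuous_norm)
    isClosed_empty isOpen_empty Subset.rfl (c.continuousOn_am ((hf i).mono hK)) contDiffOn_empty
    (half_pos hδ)
  borelize (emblB c ι)
  let μ : MeasureTheory.Measure (emblB c ι) := MeasureTheory.Measure.addHaar
  have hae := (MeasureTheory.ae_all_iff.2 (embl_imm hg μ)).and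
    (MeasureTheory.ae_all_iff.2 fun i => MeasureTheory.ae_all_iff.2 (embl_inj hg μ i))
  obtain ⟨b, ⟨himm, hinj⟩, hb⟩ := ((freq_of_ae μ hae).and_eventually
    (Metric.ball_mem_nhds (0 : emblB c ι) (show 0 < δ / 6 by positivity))).exists
  rw [dist_zero_right] at hb
  let O : Set (E 3) := {x | 1 / 2 < ‖x‖} ∩ {x | ‖x‖ < 2}
  have hO : IsOpen O :=
    (isOpen_lt continuous_const continuous_norm).inter (isOpen_lt continuous_norm continuous_const)
  have hO0 : O ⊆ {0}ᶜ := fun x hx => hK (show 1 / 2 ≤ ‖x‖ from le_of_lt hx.1)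
  have hSO : S2 ⊆ O := fun x hx => by
    have : ‖x‖ = 1 := mem_sphere_zero_iff_norm.1 hx
    exact ⟨by rw [mem_ofPred_eq, this]; norm_num, by rw [mem_ofPred_eq, this]; norm_num⟩
  have hcd : ∀ i, ContDiff ℝ ∞ (emblH g b i) := fun i =>
    (embl_cd hg i).comp (contDiff_const.prodMk contDiff_id)
  have hwn : ∀ i, ∀ x ∈ O, ∀ s ∈ Icc (0 : ℝ) 1,
      c.am (f i) x + s • (emblH g b i x - c.am (f i) x) ∈ c.U := fun i x hx s hs => by
    refine hrad (c.q (f i x)) _ ?_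
    have h1 := hgc i x (show 1 / 2 ≤ ‖x‖ from le_of_lt hx.1)
    have h2 : ‖(b i).1‖ ≤ ‖b‖ := (norm_fst_le _).trans (norm_le_pi_norm b i)
    have h3 : ‖(b i).2 x‖ ≤ ‖b‖ * 2 := ((b i).2.le_opNorm x).trans
      (mul_le_mul ((norm_snd_le _).trans (norm_le_pi_norm b i)) (le_of_lt hx.2) (norm_nonneg _)
        (norm_nonneg _))
    have h4 : ‖emblH g b i x - c.am (f i) x‖ ≤
        ‖g i x - c.am (f i) x‖ + (‖(b i).1‖ + ‖(b i).2 x‖) := by
      rw [emblH, add_sub_right_comm]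
      exact norm_add_le_of_le le_rfl (norm_add_le _ _)
    have h5 : ‖s • (emblH g b i x - c.am (f i) x)‖ ≤ ‖emblH g b i x - c.am (f i) x‖ := by
      rw [norm_smul, Real.norm_of_nonneg hs.1]
      exact mul_le_of_le_one_left (norm_nonneg _) hs.2
    linarith
  choose H H1 H2 H3 H4 using fun i => c.lift_push ((hf i).mono hO0)
    ((hcd i).continuous.continuousOn.sub (c.continuousOn_am ((hf i).mono hO0))) (hwn i)
  have h01 : (1 : ℝ) ∈ Icc (0 : ℝ) 1 := ⟨zero_le_one, le_rfl⟩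
  have hU : ∀ i, ∀ x ∈ O, emblH g b i x ∈ c.U := fun i x hx => by
    have := hwn i x hx 1 h01
    rwa [one_smul, add_sub_cancel] at this
  have hend : ∀ i, ∀ x ∈ O, c.am (fun x => H i (1, x)) x = c.ρ (emblH g b i x) := fun i x hx => by
    have := H3 i (1, x) ⟨h01, hx⟩
    rwa [one_smul, Pi.sub_apply, add_sub_cancel] at this
  refine ⟨fun i x => H i (1, x), ⟨fun i => ⟨O, hO, hSO, ?_, ?_⟩, fun i x hx v _ h0 => ?_,
    fun i j x hx y hy e => ?_⟩, fun i => ⟨H i, (H1 i).mono (prod_mono Subset.rfl hSO),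
      fun x hx => ?_, fun _ _ => rfl⟩⟩
  · exact (H1 i).comp (continuous_const.prodMk continuous_id).continuousOn fun x hx => ⟨h01, hx⟩
  · exact (c.contDiffOn_ρ.comp (hcd i).contDiffOn (hU i)).congr (hend i)
  · by_contra hv
    refine himm i x hx (nrm v) (nrm_mem hv) (hU i x (hSO hx)) ?_
    have h1 : HasFDerivAt (emblH g b i) (fderiv ℝ (g i) x + (b i).2) x :=
      ((hg i).differentiable (by simp) x).hasFDerivAt.add ((b i).2.hasFDerivAt.const_add _)
    have h2 := ((c.sm_ρ (hU i x (hSO hx))).hasFDerivAt.comp x h1).congr_of_eventuallyEq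
      (Filter.eventually_of_mem (hO.mem_nhds (hSO hx)) (hend i))
    rw [h2.fderiv] at h0
    rw [nrm, map_smul, map_smul, ← smul_add, map_smul]
    exact smul_eq_zero_of_right _ h0
  · refine hinj i j x hx y hy (hU i x (hSO hx)) (hU j y (hSO hy)) ?_
    rw [← hend i x (hSO hx), ← hend j y (hSO hy)]
    exact c.am_eq_iff.2 e
  · rw [H2 i x (hSO hx)]
    exact congrArg (a i) (nrm_of_S2 hx)

end Ctx

end Pool.Agent.CSP
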