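import Pool.Agent.Lib.MP_436e1a_gt.I.Frx
import Pool.Agent.Lib.MP_436e1a_gt.A.Pi2
import Pool.Agent.Lib.MP_436e1a_gt.B.Ext

/-! Uniqueness of framings. -/

open scoped Topology ContDiff RealInnerProductSpace
open Set

namespace Pool.Agent.CSP

theorem fr2_det (X : E 3 →L[ℝ] E 5) (Y : E 5 →L[ℝ] E 3) :
    (1 + X.comp Y).det = (1 + Y.comp X).det := by
  let b := (EuclideanSpace.basisFun (Fin 5) ℝ).toBasis
  let b' := (EuclideanSpace.basisFun (Fin 3) ℝ).toBasis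
  change LinearMap.det (LinearMap.id + (X : E 3 →ₗ[ℝ] E 5).comp (Y : E 5 →ₗ[ℝ] E 3)) =
    LinearMap.det (LinearMap.id + (Y : E 5 →ₗ[ℝ] E 3).comp (X : E 3 →ₗ[ℝ] E 5))
  rw [← LinearMap.det_toMatrix b, ← LinearMap.det_toMatrix b', map_add, map_add,
    LinearMap.toMatrix_comp b b' b, LinearMap.toMatrix_comp b' b b', LinearMap.toMatrix_id,
    LinearMap.toMatrix_id, Matrix.det_one_add_mul_comm]

theorem fr2_lin {J : E 3 →L[ℝ] E 5} {ν : E 5 →L[ℝ] E 3} {B : E 5 →L[ℝ] E 5}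
    (h1 : ∀ w, ν (J w) = w) (h2 : ∀ ξ, B (ξ - J (ν ξ)) = ξ - J (ν ξ)) (t : ℝ)
    (M : E 3 →L[ℝ] E 3) : (1 + t • (B - 1) + J.comp (M.comp ν)).det =
      (1 + t • (ν.comp (B.comp J) - 1) + M).det := by
  have h3 : 1 + t • (B - 1) + J.comp (M.comp ν) =
      1 + (t • (B.comp J - J) + J.comp M).comp ν := ContinuousLinearMap.ext fun ξ => by
    have h4 := h2 ξ
    rw [map_sub, sub_eq_sub_iff_sub_eq_sub] at h4
    simp [h4, add_assoc]
  rw [h3, fr2_det]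
  refine congrArg _ (ContinuousLinearMap.ext fun w => ?_)
  simp [h1, add_assoc]

/-- the normal frame of the standard sphere -/
noncomputable def fr2J (u : E 3) : E 3 →L[ℝ] E 5 :=
  fr ![inc u, !₂[0, 0, 0, 1, 0], !₂[0, 0, 0, 0, 1]]

theorem fr2_cd : ContDiff ℝ ∞ fr2J :=
  contDiff_fr.comp (contDiff_pi.2 fun k => by
    fin_cases k
    exacts [contDiff_inc, contDiff_const, contDiff_const])

theorem fr2_nu {u : E 3} (hu : u ∈ S2) (w : E 3) : fderiv ℝ tnu (inc u) (fr2J u w) = w := by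
  have h := mem_S2.1 hu
  rw [fderiv_tnu hu, inner_E3, fr2J, fr_apply]
  refine ml_ext ?_ ?_ ?_ <;> simp [Fin.sum_univ_three, inc, pr3]
  linear_combination w 0 * h

theorem fr2_tan {u : E 3} (hu : u ∈ S2) (ξ : E 5) :
    ∃ x, ⟪u, x⟫ = 0 ∧ ξ - fr2J u (fderiv ℝ tnu (inc u) ξ) = inc x := by
  refine ⟨pr3 ξ - ⟪u, pr3 ξ⟫ • u, ?_, ?_⟩
  · rw [inner_sub_right, inner_smul_right, real_inner_self_eq_norm_sq,
      mem_sphere_zero_iff_norm.1 hu]
    ring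
  · rw [fderiv_tnu hu, fr2J, fr_apply]
    generalize ⟪u, pr3 ξ⟫ = s
    ext i
    fin_cases i <;> simp [Fin.sum_univ_three, inc, pr3]

namespace Ctx

variable {c : Ctx} {ι : Type}

theorem fr2_inc {h : E 5 → c.Y} (hs : c.SmNear h Sc) {u : E 3} (hu : u ∈ S2) :
    HasFDerivAt (c.am fun y => h (inc y)) ((fderiv ℝ (c.am h) (inc u)).comp (fderiv ℝ inc u)) u :=
  (hs.differentiableAt (inc_mem_Sc.2 hu)).hasFDerivAt.comp u
    (contDiff_inc.differentiable (by simp) u).hasFDerivAt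

/-- Two framings of the same sphere are joined by a family with constant core. -/
theorem exists_ffam_two {h h' : E 5 → c.Y} (hs : c.SmNear h Sc) (hs' : c.SmNear h' Sc)
    (hg : ∀ v ∈ Sc, c.Sgn (c.q (h v)) (fderiv ℝ (c.am h) v) 1)
    (hg' : ∀ v ∈ Sc, c.Sgn (c.q (h' v)) (fderiv ℝ (c.am h') v) 1) (e : ∀ v ∈ Sc, h' v = h v) :
    ∃ H, c.FFam H ∧ (∀ᶠ v in 𝓝ˢ Sc, H (0, v) = h v ∧ H (1, v) = h' v) ∧
      ∀ t ∈ Icc (0 : ℝ) 1, ∀ v ∈ Sc, H (t, v) = h v := by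
  obtain ⟨O₁, o₁, k₁, s₁⟩ := id hs
  obtain ⟨O₂, o₂, k₂, s₂⟩ := id hs'
  have hA₁ : ContDiffOn ℝ ∞ (fderiv ℝ (c.am h)) O₁ := s₁.2.fderiv_of_isOpen o₁ (by simp)
  let O := (O₁ ∩ fderiv ℝ (c.am h) ⁻¹' {L | Function.Injective L}) ∩ (O₂ ∩ {v | pr3 v ≠ 0})
  have hO : IsOpen O := (hA₁.continuousOn.isOpen_inter_preimage o₁
    ContinuousLinearMap.isOpen_injective).inter (o₂.inter tl_isOpen)
  have hK : Sc ⊆ O := fun v hv =>
    ⟨⟨k₁ hv, (hg v hv).inj⟩, k₂ hv, ne_zero_of_S2 (mem_Sc.1 hv).1⟩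
  have hA : ContDiffOn ℝ ∞ (fderiv ℝ (c.am h)) O := hA₁.mono fun _ hv => hv.1.1
  obtain ⟨R, hR, hRA⟩ := exists_leftInv ∞ (e := fun _ => 1) contDiffOn_const hA
    (fun _ _ => mul_one 1) fun p hp v _ h0 => hp.1.2 (h0.trans (map_zero _).symm)
  have hB : ∀ u ∈ S2, ∃ B : E 5 →L[ℝ] E 5,
      fderiv ℝ (c.am h') (inc u) = (fderiv ℝ (c.am h) (inc u)).comp B ∧
      (∀ (t : ℝ) (M : E 3 →L[ℝ] E 3),
        (1 + t • (B - 1) + (fr2J u).comp (M.comp (fderiv ℝ tnu (inc u)))).det =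
        (1 + t • ((fderiv ℝ tnu (inc u)).comp (((R (inc u)).comp
          (fderiv ℝ (c.am h') (inc u))).comp (fr2J u)) - 1) + M).det) ∧ 0 < B.det := by
    intro u hu
    have hv := inc_mem_Sc.2 hu
    obtain ⟨B, h1, h2⟩ := (hg _ hv).exists_comp (e _ hv ▸ hg' _ hv)
    have h3 : (R (inc u)).comp (fderiv ℝ (c.am h') (inc u)) = B :=
      ContinuousLinearMap.ext fun ξ => by
        rw [h1]
        exact (hRA _ (hK hv)).1 _
    rw [h3]
    refine ⟨B, h1, fr2_lin (fr2_nu hu) fun ξ => ?_, by simpa using h2⟩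
    obtain ⟨x, h4, h5⟩ := fr2_tan hu ξ
    have h6 := fderiv_congr_S2 hu h4 (fr2_inc hs hu).differentiableAt
      (fr2_inc hs' hu).differentiableAt
      (eventually_nhdsWithin_of_forall fun y hy => by rw [e _ (inc_mem_Sc.2 hy)])
    rw [(fr2_inc hs hu).fderiv, (fr2_inc hs' hu).fderiv, h1] at h6
    simp only [ContinuousLinearMap.comp_apply, fderiv_inc] at h6
    rw [h5]
    exact (hg _ hv).inj h6
  obtain ⟨N, hN, hN1, hN2⟩ := pi2_smooth (hO.preimage contDiff_inc.continuous)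
    (fun u hu => hK (inc_mem_Sc.2 hu))
    (N := fun u => (fderiv ℝ tnu (inc u)).comp (((R (inc u)).comp
      (fderiv ℝ (c.am h') (inc u))).comp (fr2J u)))
    (((contDiffOn_tnu.fderiv_of_isOpen tl_isOpen (by simp)).comp contDiff_inc.contDiffOn
      fun _ hu => hu.2.2).clm_comp (((hR.comp contDiff_inc.contDiffOn fun _ hu => hu).clm_comp
      ((s₂.2.fderiv_of_isOpen o₂ (by simp)).comp contDiff_inc.contDiffOn
        fun _ hu => hu.2.1)).clm_comp fr2_cd.contDiffOn)) fun u hu => by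
      obtain ⟨B, -, h2, h3⟩ := hB u hu
      have h4 := h2 1 0
      simp only [one_smul, add_sub_cancel, ContinuousLinearMap.zero_comp,
        ContinuousLinearMap.comp_zero, add_zero] at h4
      exact h4 ▸ h3
  let G : ℝ × E 5 → E 3 →L[ℝ] E c.N := fun p => (fderiv ℝ (c.am h) p.2).comp
    ((fr2J (pr3 p.2)).comp (N (p.1, pr3 p.2) - p.1 • N (1, pr3 p.2) - (1 - p.1) • N (0, pr3 p.2)))
  have hp : ContDiff ℝ ∞ fun p : ℝ × E 5 => pr3 p.2 := contDiff_pr3.comp contDiff_snd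
  have hG : ContDiffOn ℝ ∞ G (univ ×ˢ O) :=
    (hA.comp contDiffOn_snd fun _ hp => hp.2).clm_comp ((fr2_cd.comp hp).clm_comp
      (((hN.comp (contDiff_fst.prodMk hp)).sub (contDiff_fst.smul
        (hN.comp (contDiff_const.prodMk hp)))).sub ((contDiff_const.sub contDiff_fst).smul
        (hN.comp (contDiff_const.prodMk hp))))).contDiffOn
  have hw : ContDiffOn ℝ ∞ (fun p : ℝ × E 5 => p.1 • (c.am h' p.2 - c.am h p.2) + G p (tnu p.2))
      (univ ×ˢ O) := (contDiffOn_fst.smul ((s₂.2.comp contDiffOn_snd fun _ hp => hp.2.2.1).sub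
      (s₁.2.comp contDiffOn_snd fun _ hp => hp.2.1.1))).add
      (hG.clm_apply (contDiffOn_tnu.comp contDiffOn_snd fun _ hp => hp.2.2.2))
  have ht : ∀ u ∈ S2, tnu (inc u) = 0 := fun u hu => by rw [← tube_zero, tnu_tube hu]
  have h0 : ∀ p ∈ Icc (0 : ℝ) 1 ×ˢ Sc,
      p.1 • (c.am h' p.2 - c.am h p.2) + G p (tnu p.2) = 0 := by
    rintro ⟨t, _⟩ ⟨-, u, hu, rfl⟩
    rw [ht u hu, map_zero, c.am_eq_iff.2 (congrArg c.q (e _ (inc_mem_Sc.2 hu))), sub_self,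
      smul_zero, add_zero]
  obtain ⟨H, h1, h2, h3⟩ := exists_push (hs.const (Icc 0 1)) (isOpen_univ.prod hO)
    (prod_mono (subset_univ _) hK) hw h0
  have h4 : ∀ t ∈ Icc (0 : ℝ) 1, ∀ v ∈ Sc, H (t, v) = h v := fun t ht v hv =>
    (h2.self_of_nhdsSet (t, v) ⟨ht, hv⟩).2 (h0 _ ⟨ht, hv⟩)
  have h5 := fun t (ht : t ∈ Icc (0 : ℝ) 1) =>
    ((continuous_const.prodMk continuous_id).tendsto_nhdsSet
      (s := Sc) (t := Icc (0 : ℝ) 1 ×ˢ Sc) fun v hv => ⟨ht, hv⟩).eventually h2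
  refine ⟨H, ⟨h1, ?_⟩, Filter.Eventually.and ((h5 0 (left_mem_Icc.2 zero_le_one)).mono
    fun v hv => hv.2 (by simp [G])) (eq_nhdsSet hs' (h1.slice (right_mem_Icc.2 zero_le_one))
      ((h5 1 (right_mem_Icc.2 zero_le_one)).mono fun v hv => hv.1.trans ?_) fun v hv =>
      (h4 1 (right_mem_Icc.2 zero_le_one) v hv).trans (e v hv).symm), h4⟩
  · rintro t ht' _ ⟨u, hu, rfl⟩
    have hv := inc_mem_Sc.2 hu
    obtain ⟨B, b1, b2, -⟩ := hB u hu
    have hn := (isOpen_univ.prod hO).mem_nhds (show (t, inc u) ∈ univ ×ˢ O from ⟨trivial, hK hv⟩)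
    have d1 := ((((hs'.differentiableAt hv).hasFDerivAt.sub
      (hs.differentiableAt hv).hasFDerivAt).const_smul t).add
      ((ni_slice ((hG.contDiffAt hn).differentiableAt (by simp))).clm_apply
        (tl_diff_tnu (hK hv).2.2).hasFDerivAt)).unique
      (ni_slice ((hw.contDiffAt hn).differentiableAt (by simp)))
    have d2 := (hg _ hv).comp (ε' := 1) (B := 1 + t • (B - 1) + (fr2J u).comp
      ((N (t, u) - t • N (1, u) - (1 - t) • N (0, u)).comp (fderiv ℝ tnu (inc u)))) (by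
        have h6 := hN2 (t, u) ⟨ht', hu⟩
        rw [b2, (hN1 u hu).1, ← (hN1 u hu).2, Units.val_one, Int.cast_one, one_mul]
        exact h6.trans_eq (congrArg _ (by module)))
    rw [h4 t ht' _ hv]
    refine (congrArg (c.Sgn _ · 1) (ContinuousLinearMap.ext fun ξ => ?_)).mpr d2
    have d3 := DFunLike.congr_fun d1 ξ
    rw [ht u hu, map_zero, add_zero] at d3
    have hm := mk_mem_prod ht' hv
    rw [fderiv_slice (h1.differentiableAt hm), h3 _ hm,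
      ← fderiv_slice ((hs.const _).differentiableAt hm)]
    refine (congrArg (fun z => _ + c.P _ z) d3.symm).trans ?_
    have d4 := (hg _ hv).P_eq
    simp [G, b1, pr3_inc, d4, add_assoc]
  · have h6 : ∀ w, G (1, v) w = 0 := fun w => by simp [G]
    simp only [id, h6, one_smul, add_zero]
    exact (congrArg c.ρ (add_sub_cancel _ _)).trans (c.ρ_ι _)

/-- Framings of the same link are equivalent, relative to a closed set that misses the cores. -/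
theorem fr2 [Finite ι] {h h' : ι → E 5 → c.Y} (hh : c.FL h) (hh' : c.FL h')
    (e : ∀ i, ∀ v ∈ Sc, h' i v = h i v) {C : Set c.M} (hC : IsClosed C)
    (hd : ∀ i, ∀ v ∈ Sc, c.q (h i v) ∉ C) :
    ∃ φ : c.Aut, (∀ i, ∀ᶠ v in 𝓝ˢ Sc, φ.up (h i v) = h' i v) ∧ ∀ y, c.q y ∈ C → φ.up y = y := by
  choose H hH h01 hc using fun i => exists_ffam_two (hh.sm i) (hh'.sm i) (hh.sgn i)
    (hh'.sgn i) (e i)
  choose O hO hK hS using fun i => (hH i).sm
  have hq : ∀ i, ContinuousOn (fun p => c.q (H i p)) (O i) := fun i =>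
    c.continuous_q.comp_continuousOn (hS i).1
  have h1 : ∀ i, ∃ U ∈ 𝓝ˢ Sc, ∀ t ∈ Icc (0 : ℝ) 1, InjOn (fun x => c.am (H i) (t, x)) U ∧
      ∀ x ∈ U, ((t, x) ∈ O i ∧ c.q (H i (t, x)) ∉ C) ∧
        ∀ v, fderiv ℝ (c.am (H i)) (t, x) (0, v) = 0 → v = 0 := fun i => by
    obtain ⟨A', K', -, o, hA, hKK, h2, h3⟩ := locinj
      ((hq i).isOpen_inter_preimage (hO i) hC.isOpen_compl) ((hS i).2.mono inter_subset_left)
      isCompact_Icc isCompact_Sc (fun p hp => ⟨hK i hp, by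
        rw [mem_preimage, hc i p.1 hp.1 p.2 hp.2]
        exact hd i _ hp.2⟩)
      (fun t ht x hx v hv => ((hH i).sgn t ht x hx).inj
        (((fderiv_slice ((hH i).sm.differentiableAt ⟨ht, hx⟩) v).trans hv).trans
          (map_zero _).symm)) fun t ht x hx y hy hxy => (hh.inj i i x hx y hy (by
        rw [← hc i t ht x hx, ← hc i t ht y hy]
        exact c.ι_inj hxy)).2
    exact ⟨K', o.mem_nhdsSet.2 hKK, fun t ht => ⟨(h3 t (hA ht)).1, fun x hx =>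
      ⟨h2 (mk_mem_prod (hA ht) hx), (h3 t (hA ht)).2 x hx⟩⟩⟩
  choose U hU hI using h1
  have h2 : ∀ p : ι × ι, ∃ V ∈ 𝓝ˢ Sc, V ⊆ U p.1 ∧ ∀ t ∈ Icc (0 : ℝ) 1, ∀ x ∈ V, ∀ y ∈ V,
      c.q (H p.1 (t, x)) = c.q (H p.2 (t, y)) → p.1 = p.2 ∧ x = y := by
    rintro ⟨i, j⟩
    obtain rfl | hij := eq_or_ne i j
    · exact ⟨U i, hU i, Subset.rfl, fun t ht x hx y hy hxy =>
        ⟨rfl, (hI i t ht).1 hx hy (congrArg c.ι hxy)⟩⟩
    · obtain ⟨A₁, K₁, K₂, -, o₁, o₂, hA, s₁, s₂, -, -, h3⟩ := sep_nhds (hO i) (hO j) (hq i) (hq j)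
        isCompact_Icc isCompact_Sc isCompact_Sc (hK i) (hK j) fun t ht x hx y hy hxy =>
          hij (hh.inj i j x hx y hy (by rwa [hc i t ht x hx, hc j t ht y hy] at hxy)).1
      exact ⟨U i ∩ (K₁ ∩ K₂), Filter.inter_mem (hU i) ((o₁.inter o₂).mem_nhdsSet.2
        (subset_inter s₁ s₂)), inter_subset_left, fun t ht x hx y hy hxy =>
        absurd hxy (h3 t (hA ht) x hx.2.1 y hy.2.2)⟩
  choose V hV hVU hJ using h2
  obtain ⟨δ, hδ, h3⟩ := exists_tube_subset (Filter.iInter_mem.2 hV)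
  have h4 : ∀ p, {v : E 5 | pr3 v ≠ 0 ∧ ‖tnu v‖ ≤ δ} ⊆ V p := fun p v hv =>
    tube_tnu hv.1 ▸ mem_iInter.1 (h3 _ (nrm_mem hv.1) _ hv.2) p
  have h5 := fun i t ht x hx => (hI i t ht).2 x (hVU (i, i) (h4 _ hx))
  obtain ⟨φ, h6, h7⟩ := ext (F := H) (κ := fun _ _ => (0 : ℝ)) (fun _ => contDiff_const)
    (fun _ => isCompact_thin_tube δ)
    (fun i => ⟨O i, hO i, fun p hp => (h5 i _ hp.1 _ hp.2).1.1, hS i⟩) (fun _ _ _ => rfl)
    (fun t ht i x hx v hv _ => (h5 i t ht x hx).2 v hv)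
    (fun t ht i j x hx y hy => hJ (i, j) t ht x (h4 _ hx) y (h4 _ hy)) hC
    fun t ht i x hx => (h5 i t ht x hx).1.2
  refine ⟨φ, fun i => ?_, h7⟩
  filter_upwards [h01 i, (isOpen_thin_tube δ).mem_nhdsSet.2 (by
    rintro _ ⟨u, hu, rfl⟩
    rw [← tube_zero]
    exact ⟨pr3_tube_ne hu 0, by rwa [tnu_tube hu, norm_zero]⟩)] with v h8 h9
  rw [← h8.1, h6 i v ⟨h9.1, h9.2.le⟩, h8.2]

end Ctx

end Pool.Agent.CSP
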