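import Pool.Agent.Lib.MP_436e1a_gt.I.Push
import Pool.Agent.Lib.MP_436e1a_gt.A.Gen
import Pool.Agent.Lib.MP_436e1a_gt.A.Proj
import Pool.Agent.Lib.MP_436e1a_gt.A.Transport

/-! An immersed sphere along which the tangent bundle is trivial has a framing. -/

open scoped Topology ContDiff RealInnerProductSpace
open Set

namespace Pool.Agent.CSP

theorem frame_approx {V W : Type} [NormedAddCommGroup V] [NormedSpace ℝ V] [FiniteDimensional ℝ V]
    [NormedAddCommGroup W] [NormedSpace ℝ W] [FiniteDimensional ℝ W] {K : Set V} (hK : IsCompact K)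
    {f : V → W} (hf : ContinuousOn f K) {P : V → W → Prop}
    (h : ∀ x ∈ K, ∀ᶠ z : V × W in 𝓝[K ×ˢ univ] (x, f x), P z.1 z.2) :
    ∃ g, ContDiff ℝ ∞ g ∧ ∀ x ∈ K, P x (g x) := by
  have h1 : ∀ᶠ δ : W in 𝓝 0, ∀ x ∈ K, x ∈ K → P x (f x + δ) :=
    hK.eventually_forall_of_forall_eventually fun x hx => by
      have h2 : ContinuousWithinAt (fun z : W × V => (z.2, f z.2 + z.1)) {z | z.2 ∈ K} (0, x) :=
        continuousWithinAt_snd.prodMk ((ContinuousWithinAt.comp (f := fun z : W × V => z.2)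
          (hf x hx) continuousWithinAt_snd fun _ hz => hz).add continuousWithinAt_fst)
      have h3 := h2.tendsto_nhdsWithin (t := K ×ˢ univ) fun z hz => ⟨hz, trivial⟩
      simp only [add_zero] at h3
      exact eventually_nhdsWithin_iff.1 (h3.eventually (h x hx))
  obtain ⟨ε, hε, h4⟩ := Metric.eventually_nhds_iff.1 h1
  obtain ⟨g, g1, -, g2⟩ := smoothkeep hK.isClosed isClosed_empty isOpen_empty subset_rfl hf
    contDiffOn_empty hε
  exact ⟨g, g1, fun x hx => by simpa using h4 ((dist_zero_right _).trans_lt (g2 x hx)) x hx hx⟩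

theorem frame_path {B : ℝ → E 5 →L[ℝ] E 5} (hB : ContinuousOn B (Icc 0 1))
    (hi : ∀ t ∈ Icc (0 : ℝ) 1, ∀ ξ, B t ξ = 0 → ξ = 0) (h0 : ∀ ξ, B 0 ξ = ξ) : 0 < (B 1).det := by
  by_contra! h
  obtain ⟨t, ht, e⟩ := intermediate_value_Icc' zero_le_one (f := fun t => (B t).det)
    (fun t ht => sgn_det_cont (hB t ht)) ⟨h, by simp only [sgn_det_one h0, zero_le_one]⟩
  exact sgn_det_ne (hi t ht) e

theorem frame_surj {B V W W' : Type} [NormedAddCommGroup B] [NormedSpace ℝ B]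
    [NormedAddCommGroup V] [NormedSpace ℝ V] [NormedAddCommGroup W] [NormedSpace ℝ W]
    [NormedAddCommGroup W'] [NormedSpace ℝ W'] {w : B × V → W} {w' : V → W'} {p : B × V}
    (h : DifferentiableAt ℝ w p) (h' : DifferentiableAt ℝ w' p.2)
    (s : ∀ y, ∃ b, fderiv ℝ w p (b, 0) = y) (s' : ∀ y, ∃ v, fderiv ℝ w' p.2 v = y) :
    (fderiv ℝ (fun p => (w p, w' p.2)) p).range = ⊤ := by
  have h1 : fderiv ℝ (fun p => (w p, w' p.2)) p = _ :=
    (h.hasFDerivAt.prodMk (h'.hasFDerivAt.comp p hasFDerivAt_snd)).fderiv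
  rw [h1]
  refine LinearMap.range_eq_top.2 fun y => ?_
  obtain ⟨v, hv⟩ := s' y.2
  obtain ⟨b, hb⟩ := s (y.1 - fderiv ℝ w p (0, v))
  refine ⟨(b, v), Prod.ext ?_ hv⟩
  show fderiv ℝ w p (b, v) = y.1
  rw [show ((b, v) : B × V) = (b, 0) + (0, v) by simp, map_add, hb, sub_add_cancel]

/-- the family that joins the inclusion to `M` -/
noncomputable def frameM (M : E 3 → E 3 →L[ℝ] E 5) (b : E 3 →L[ℝ] E 5) (p : ℝ × E 3) :
    E 3 →L[ℝ] E 5 := (1 - p.1) • tl_incL + p.1 • M p.2 + (p.1 * (1 - p.1)) • b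

theorem frameM_apply (M : E 3 → E 3 →L[ℝ] E 5) (b : E 3 →L[ℝ] E 5) (p : ℝ × E 3) (v : E 3) :
    frameM M b p v = (1 - p.1) • inc v + p.1 • M p.2 v + (p.1 * (1 - p.1)) • b v := rfl

theorem frameM_sm {X : Type} [NormedAddCommGroup X] [NormedSpace ℝ X] {s : Set X} {t : X → ℝ}
    {u : X → E 3} {b : X → E 3 →L[ℝ] E 5} {M : E 3 → E 3 →L[ℝ] E 5} {n : WithTop ℕ∞}
    (ht : ContDiffOn ℝ n t s) (hM : ContDiffOn ℝ n (fun x => M (u x)) s) (hb : ContDiffOn ℝ n b s) :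
    ContDiffOn ℝ n (fun x => frameM M (b x) (t x, u x)) s := by
  have h : ∀ {N : X → E 3 →L[ℝ] E 5}, ContDiffOn ℝ n N s → ContDiffOn ℝ n
      (fun x => (1 - t x) • tl_incL + t x • N x + (t x * (1 - t x)) • b x) s := fun _ => by fun_prop
  exact h hM

theorem frame_con {y : ℝ × E 3 × E 3} (h1 : ⟪y.2.1, y.2.1⟫ = 1) (h2 : ⟪y.2.1, y.2.2⟫ = 0)
    (h3 : ⟪y.2.2, y.2.2⟫ = 1) (z : ℝ × ℝ × ℝ) : ∃ v, fderiv ℝ (fun y : ℝ × E 3 × E 3 =>
      (⟪y.2.1, y.2.1⟫ - 1, ⟪y.2.1, y.2.2⟫, ⟪y.2.2, y.2.2⟫ - 1)) y v = z := by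
  have a := (hasFDerivAt_snd (𝕜 := ℝ) (p := y)).fst
  have b := (hasFDerivAt_snd (𝕜 := ℝ) (p := y)).snd
  have h := (((a.inner ℝ a).sub_const 1).prodMk
    ((a.inner ℝ b).prodMk ((b.inner ℝ b).sub_const 1))).fderiv
  have h2' : ⟪y.2.2, y.2.1⟫ = 0 := by rw [real_inner_comm, h2]
  refine ⟨(0, (z.1 / 2) • y.2.1, z.2.1 • y.2.1 + (z.2.2 / 2) • y.2.2), ?_⟩
  rw [h]
  simp only [ContinuousLinearMap.prod_apply, ContinuousLinearMap.comp_apply, fderivInnerCLM_apply,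
    ContinuousLinearMap.coe_fst', ContinuousLinearMap.coe_snd', inner_add_left, inner_add_right,
    real_inner_smul_left, real_inner_smul_right, h1, h2, h2', h3]
  ext <;> simp

theorem frame_gen {W : Set (E 3)} (hW : IsOpen W) (hS : S2 ⊆ W) {M : E 3 → E 3 →L[ℝ] E 5}
    (hM : ContDiffOn ℝ ∞ M W) (hi : ∀ u ∈ S2, ∀ v, ⟪u, v⟫ = 0 → M u v = 0 → v = 0) :
    ∃ b, ∀ p ∈ Icc (0 : ℝ) 1 ×ˢ S2, ∀ v, ⟪p.2, v⟫ = 0 → frameM M b p v = 0 → v = 0 := by
  borelize (E 3 →L[ℝ] E 5)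
  let O : Set ((E 3 →L[ℝ] E 5) × ℝ × E 3 × E 3) := {p | p.2.1 ∈ Ioo (0 : ℝ) 1 ∧ p.2.2.1 ∈ W}
  have hO : IsOpen O := (isOpen_Ioo.preimage (by fun_prop)).inter (hW.preimage (by fun_prop))
  let w : (E 3 →L[ℝ] E 5) × ℝ × E 3 × E 3 → E 5 := fun p => frameM M p.1 (p.2.1, p.2.2.1) p.2.2.2
  let w' : ℝ × E 3 × E 3 → ℝ × ℝ × ℝ := fun y =>
    (⟪y.2.1, y.2.1⟫ - 1, ⟪y.2.1, y.2.2⟫, ⟪y.2.2, y.2.2⟫ - 1)
  have hw : ContDiffOn ℝ ∞ w O := by
    have h1 : ContDiffOn ℝ ∞ (fun p : (E 3 →L[ℝ] E 5) × ℝ × E 3 × E 3 => M p.2.2.1) O :=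
      hM.comp (by fun_prop) fun p hp => hp.2
    exact (frameM_sm (by fun_prop) h1 contDiffOn_fst).clm_apply (by fun_prop)
  have hw' : ContDiff ℝ ∞ w' := by
    have a : ContDiff ℝ ∞ fun y : ℝ × E 3 × E 3 => y.2.1 := by fun_prop
    have b : ContDiff ℝ ∞ fun y : ℝ × E 3 × E 3 => y.2.2 := by fun_prop
    exact ((a.inner ℝ a).sub contDiff_const).prodMk
      ((a.inner ℝ b).prodMk ((b.inner ℝ b).sub contDiff_const))
  obtain ⟨b, hb⟩ := (gen0 (W := E 5 × ℝ × ℝ × ℝ) MeasureTheory.Measure.addHaar (n := 8) (by simp) hO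
    (w := fun p => (w p, w' p.2)) (hw.prodMk (hw'.comp contDiff_snd).contDiffOn) fun p hp h0 => by
      have d := (hw.contDiffAt (hO.mem_nhds hp)).differentiableAt (by simp)
      obtain ⟨e1, e2, e3⟩ : ⟪p.2.2.1, p.2.2.1⟫ = 1 ∧ ⟪p.2.2.1, p.2.2.2⟫ = 0 ∧
          ⟪p.2.2.2, p.2.2.2⟫ = 1 := by
        simpa only [w', Prod.mk_eq_zero, sub_eq_zero] using (Prod.mk_eq_zero.1 h0).2
      rw [frame_surj d (hw'.differentiable (by simp) _) (fun y => ?_) (frame_con e1 e2 e3)]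
      · simp
      have t0 : p.2.1 * (1 - p.2.1) ≠ 0 := mul_ne_zero hp.1.1.ne' (sub_pos.2 hp.1.2).ne'
      refine ⟨(innerSL ℝ p.2.2.2).smulRight ((p.2.1 * (1 - p.2.1))⁻¹ • y), tl_col d ?_⟩
      have h4 := ((hasDerivAt_id (0 : ℝ)).smul_const y).const_add (w p)
      rw [one_smul] at h4
      refine h4.congr_of_eventuallyEq (.of_forall fun s => ?_)
      simp only [w, frameM_apply, Prod.fst_add, Prod.snd_add, Prod.smul_fst, Prod.smul_snd,
        smul_zero, add_zero, add_apply, smul_apply, ContinuousLinearMap.smulRight_apply,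
        innerSL_apply_apply, e3, one_smul, smul_add, id, add_assoc]
      rw [smul_comm _ s, smul_inv_smul₀ t0]).exists
  refine ⟨b, fun p hp v h1 h2 => ?_⟩
  by_contra hv
  rcases hp.1.1.eq_or_lt with e | t0
  · rw [frameM_apply, ← e] at h2
    have h3 : inc v = 0 := by simpa using h2
    exact hv (by rw [← pr3_inc v, h3]; exact map_zero tl_prL)
  rcases hp.1.2.eq_or_lt with e | t1
  · rw [frameM_apply, e] at h2
    exact hv (hi _ hp.2 v h1 (by simpa using h2))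
  refine hb (p.1, p.2, nrm v) ⟨⟨t0, t1⟩, hS hp.2⟩ (Prod.ext ?_ ?_)
  · show frameM M b p (‖v‖⁻¹ • v) = 0
    rw [map_smul, h2, smul_zero]
  · show (⟪p.2, p.2⟫ - 1, ⟪p.2, ‖v‖⁻¹ • v⟫, ⟪nrm v, nrm v⟫ - 1) = (0 : ℝ × ℝ × ℝ)
    rw [real_inner_smul_right, h1, real_inner_self_eq_norm_sq, real_inner_self_eq_norm_sq,
      norm_nrm hv, mem_sphere_zero_iff_norm.1 hp.2]
    simp

/-- projection to the tangent plane -/
noncomputable def frameE (u : E 3) : E 3 →L[ℝ] E 3 := 1 - (innerSL ℝ u).smulRight u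

theorem frameE_apply (u v : E 3) : frameE u v = v - ⟪u, v⟫ • u := rfl

/-- normal coordinates -/
noncomputable def frameN (u : E 3) : E 5 →L[ℝ] E 3 :=
  ((innerSL ℝ u).comp tl_prL).smulRight !₂[1, 0, 0] +
    (EuclideanSpace.proj 3 : E 5 →L[ℝ] ℝ).smulRight !₂[0, 1, 0] +
    (EuclideanSpace.proj 4 : E 5 →L[ℝ] ℝ).smulRight !₂[0, 0, 1]

theorem frameN_apply (u : E 3) (ξ : E 5) : frameN u ξ = !₂[⟪u, pr3 ξ⟫, ξ 3, ξ 4] := by
  refine ml_ext ?_ ?_ ?_ <;> simp [frameN, tl_prL_apply]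

/-- the standard normal framing -/
noncomputable def frameJ (u : E 3) : E 3 →L[ℝ] E 5 :=
  fr ![inc u, !₂[0, 0, 0, 1, 0], !₂[0, 0, 0, 0, 1]]

theorem frameJ_apply (u w : E 3) :
    frameJ u w = !₂[w 0 * u 0, w 0 * u 1, w 0 * u 2, w 1, w 2] := by
  ext i
  fin_cases i <;> simp [frameJ, fr_apply, Fin.sum_univ_three, inc]

/-- the frame made of a tangential and a normal part -/
noncomputable def frameB {W : Type} [NormedAddCommGroup W] [NormedSpace ℝ W] (u : E 3)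
    (M n : E 3 →L[ℝ] W) : E 5 →L[ℝ] W := M.comp ((frameE u).comp tl_prL) + n.comp (frameN u)

theorem frameB_apply {W : Type} [NormedAddCommGroup W] [NormedSpace ℝ W] (u : E 3)
    (M n : E 3 →L[ℝ] W) (ξ : E 5) :
    frameB u M n ξ = M (frameE u (pr3 ξ)) + n (frameN u ξ) := rfl

theorem frameE_cont : Continuous frameE :=
  continuous_const.sub (((innerSL ℝ).contDiff (n := 0)).smulRight contDiff_id).continuous

theorem frameN_cont : Continuous frameN :=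
  ((((((innerSL ℝ).contDiff (n := 0)).clm_comp contDiff_const).smulRight
    contDiff_const).continuous).add continuous_const).add continuous_const

theorem frameJ_cont : Continuous frameJ := by
  refine contDiff_fr.continuous.comp (continuous_pi fun i => ?_)
  fin_cases i
  exacts [contDiff_inc.continuous, continuous_const, continuous_const]

theorem frameB_cont {X W : Type} [TopologicalSpace X] [NormedAddCommGroup W] [NormedSpace ℝ W]
    {s : Set X} {u : X → E 3} {M n : X → E 3 →L[ℝ] W} (hu : ContinuousOn u s)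
    (hM : ContinuousOn M s) (hn : ContinuousOn n s) :
    ContinuousOn (fun x => frameB (u x) (M x) (n x)) s :=
  (hM.clm_comp ((frameE_cont.comp_continuousOn hu).clm_comp continuousOn_const)).add
    (hn.clm_comp (frameN_cont.comp_continuousOn hu))

theorem frame_inner {u : E 3} (hu : u ∈ S2) (v : E 3) : ⟪u, frameE u v⟫ = 0 := by
  rw [frameE_apply, inner_sub_right, real_inner_smul_right, real_inner_self_eq_norm_sq,
    mem_sphere_zero_iff_norm.1 hu]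
  simp

theorem frame_split (u : E 3) (ξ : E 5) :
    inc (frameE u (pr3 ξ)) + frameJ u (frameN u ξ) = ξ := by
  ext i
  fin_cases i <;> simp [frameJ_apply, frameN_apply, frameE_apply, inc, pr3]

theorem frame_NJ {u : E 3} (hu : u ∈ S2) (w : E 3) : frameN u (frameJ u w) = w := by
  refine ml_ext ?_ ?_ ?_ <;> simp [frameJ_apply, frameN_apply, inner_E3, pr3]
  linear_combination w 0 * mem_S2.1 hu

theorem frame_Ninc {u v : E 3} (h : ⟪u, v⟫ = 0) : frameN u (inc v) = 0 := by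
  rw [frameN_apply, pr3_inc, h]
  refine ml_ext ?_ ?_ ?_ <;> simp [inc]

theorem frame_tr {F : ℝ × E 3 → E 3 →L[ℝ] E 5} (hF : ContinuousOn F (Icc 0 1 ×ˢ S2))
    (hb : ∀ p ∈ Icc (0 : ℝ) 1 ×ˢ S2, ∀ v, ⟪p.2, v⟫ = 0 → F p v = 0 → v = 0) :
    ∃ (R : ℝ × E 3 → E 5 →L[ℝ] E 3) (Θ : ℝ × E 3 → E 5 →L[ℝ] E 5),
      ContinuousOn Θ (Icc 0 1 ×ˢ S2) ∧ (∀ u ∈ S2, Θ (0, u) = 1) ∧ ∀ p ∈ Icc (0 : ℝ) 1 ×ˢ S2,
        (∀ v, R p (F p (frameE p.2 v)) = frameE p.2 v) ∧ (∀ z, frameE p.2 (R p z) = R p z) ∧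
        (∀ z, F p (R p (Θ p z)) = Θ p (F (0, p.2) (R (0, p.2) z))) ∧ Function.Injective (Θ p) := by
  obtain ⟨R, r1, r2⟩ := exists_leftInv 0 (O := Icc (0 : ℝ) 1 ×ˢ S2) (e := fun p => frameE p.2)
    (contDiffOn_zero.2 (frameE_cont.comp continuous_snd).continuousOn) (contDiffOn_zero.2 hF)
    (fun p hp => ContinuousLinearMap.ext fun v => by
      show frameE p.2 (frameE p.2 v) = frameE p.2 v
      rw [frameE_apply, frame_inner hp.2, zero_smul, sub_zero])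
    fun p hp v hv => hb p hp v (hv ▸ frame_inner hp.2 v)
  obtain ⟨Θ, t1, t2, t3, t4⟩ := transport2 0 (convex_Icc 0 1) subset_rfl (isCompact_sphere 0 1)
    subset_rfl (P := fun _ => 1) (Q := fun p => (F p).comp (R p)) contDiffOn_const
    ((contDiffOn_zero.2 hF).clm_comp r1) (fun _ _ => one_mul _)
    (fun p hp => ContinuousLinearMap.ext fun z => by
      show F p (R p (F p (R p z))) = F p (R p z)
      rw [← (r2 p hp).2 z, (r2 p hp).1])
    (fun _ _ => one_mul _) fun _ _ => mul_one _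
  exact ⟨R, Θ, contDiffOn_zero.1 t1, t2, fun p hp => ⟨(r2 p hp).1, (r2 p hp).2,
    fun z => DFunLike.congr_fun (t3 _ hp).2 z,
    (ContinuousLinearMap.isUnit_iff_bijective.1 (t4 _ hp)).1⟩⟩

theorem frame_inj {u : E 3} (hu : u ∈ S2) {F : E 3 →L[ℝ] E 5} {R R₀ : E 5 →L[ℝ] E 3}
    {Θ : E 5 →L[ℝ] E 5} (hb : ∀ v, ⟪u, v⟫ = 0 → F v = 0 → v = 0)
    (r1 : ∀ v, R (F (frameE u v)) = frameE u v) (r2 : ∀ z, frameE u (R₀ z) = R₀ z)
    (t3 : ∀ z, F (R (Θ z)) = Θ (inc (R₀ z))) (t4 : Function.Injective Θ) (ξ : E 5)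
    (h : frameB u F (Θ.comp (frameJ u)) ξ = 0) : ξ = 0 := by
  simp only [frameB_apply, ContinuousLinearMap.comp_apply] at h
  have h1 := congrArg (fun z => F (R z)) h
  simp only [map_add, map_zero, r1, t3] at h1
  have h3 := congrArg (frameN u) (t4 (add_left_cancel (h.trans h1.symm)))
  rw [frame_NJ hu, ← r2, frame_Ninc (frame_inner hu _)] at h3
  rw [h3, map_zero, map_zero, add_zero] at h
  rw [← frame_split u ξ, h3, hb _ (frame_inner hu _) h, map_zero, add_zero]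
  exact map_zero tl_incL

theorem frame_core {W : Set (E 3)} (hW : IsOpen W) (hS : S2 ⊆ W) {M : E 3 → E 3 →L[ℝ] E 5}
    (hM : ContDiffOn ℝ ∞ M W) (hi : ∀ u ∈ S2, ∀ v, ⟪u, v⟫ = 0 → M u v = 0 → v = 0) :
    ∃ n : E 3 → E 3 →L[ℝ] E 5, ContinuousOn n S2 ∧ ∀ u ∈ S2, 0 < (frameB u (M u) (n u)).det := by
  obtain ⟨b, hb⟩ := frame_gen hW hS hM hi
  have hF : ContinuousOn (frameM M b) (Icc 0 1 ×ˢ S2) :=
    (frameM_sm (u := Prod.snd) contDiffOn_fst ((hM.mono hS).comp contDiffOn_snd fun p hp => hp.2)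
      contDiffOn_const).continuousOn
  have e1 : ∀ u, frameM M b (1, u) = M u := fun u =>
    ContinuousLinearMap.ext fun v => by simp [frameM_apply]
  have e0 : ∀ u v, frameM M b (0, u) v = inc v := fun u v => by simp [frameM_apply]
  generalize frameM M b = F at hb hF e1 e0
  obtain ⟨R, Θ, t1, t2, t3⟩ := frame_tr hF hb
  have c1 : ContinuousOn (fun u => Θ (1, u)) S2 :=
    t1.comp (f := fun u => ((1 : ℝ), u)) (by fun_prop) fun u hu => ⟨right_mem_Icc.2 zero_le_one, hu⟩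
  refine ⟨fun u => (Θ (1, u)).comp (frameJ u), c1.clm_comp frameJ_cont.continuousOn, fun u hu => ?_⟩
  have c2 : ContinuousOn (fun t => Θ (t, u)) (Icc 0 1) :=
    t1.comp (f := fun t => (t, u)) (by fun_prop) fun t ht => ⟨ht, hu⟩
  have c3 : ContinuousOn (fun t => F (t, u)) (Icc 0 1) :=
    hF.comp (f := fun t => (t, u)) (by fun_prop) fun t ht => ⟨ht, hu⟩
  rw [← e1]
  refine frame_path (B := fun t => frameB u (F (t, u)) ((Θ (t, u)).comp (frameJ u)))
    (frameB_cont continuousOn_const c3 (c2.clm_comp continuousOn_const)) (fun t ht => ?_) fun ξ => ?_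
  · obtain ⟨r1, -, r3, r4⟩ := t3 (t, u) ⟨ht, hu⟩
    simp only [e0] at r3
    exact frame_inj hu (hb (t, u) ⟨ht, hu⟩) r1 (t3 (0, u) ⟨left_mem_Icc.2 zero_le_one, hu⟩).2.1 r3 r4
  · simp only [frameB_apply, ContinuousLinearMap.comp_apply, e0, t2 u hu]
    exact frame_split u ξ

/-- A bundle monomorphism of the tangent bundle of the sphere into the trivial bundle `E 5` has a
positively oriented normal framing. -/
theorem exists_normal {W : Set (E 3)} (hW : IsOpen W) (hS : S2 ⊆ W) {M : E 3 → E 3 →L[ℝ] E 5}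
    (hM : ContDiffOn ℝ ∞ M W) (hi : ∀ u ∈ S2, ∀ v, ⟪u, v⟫ = 0 → M u v = 0 → v = 0) :
    ∃ (W' : Set (E 3)) (n : E 3 → E 3 →L[ℝ] E 5), IsOpen W' ∧ S2 ⊆ W' ∧ ContDiffOn ℝ ∞ n W' ∧
      ∀ u ∈ S2, ∀ B : E 5 →L[ℝ] E 5, (∀ ξ, B ξ = M u (pr3 ξ - ⟪u, pr3 ξ⟫ • u) +
        n u !₂[⟪u, pr3 ξ⟫, ξ 3, ξ 4]) → 0 < B.det := by
  obtain ⟨n, n1, n2⟩ := frame_core hW hS hM hi
  have h1 : ContinuousOn (fun z : E 3 × (E 3 →L[ℝ] E 5) => frameB z.1 (M z.1) z.2) (S2 ×ˢ univ) :=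
    frameB_cont continuousOn_fst
      ((hM.continuousOn.mono hS).comp continuousOn_fst fun p hp => hp.1) continuousOn_snd
  obtain ⟨g, g1, g2⟩ := frame_approx (isCompact_sphere 0 1) n1
    (P := fun u N => 0 < (frameB u (M u) N).det) fun u hu =>
      (sgn_det_cont (h1 (u, n u) ⟨hu, trivial⟩)).eventually (lt_mem_nhds (n2 u hu))
  refine ⟨univ, g, isOpen_univ, subset_univ _, g1.contDiffOn, fun u hu B hB => ?_⟩
  rw [show B = frameB u (M u) (g u) from ContinuousLinearMap.ext fun ξ => by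
    rw [hB, frameB_apply, frameE_apply, frameN_apply]]
  exact g2 u hu

namespace Ctx

variable {c : Ctx} {ι : Type}

/-- Smooth the coframe, take a normal framing, smooth it and push in the normal directions. -/
theorem exists_frame1 {a : E 3 → c.Y} (ha : c.SmNear a S2) (hi : c.Imm a) (hf : c.Flat a S2) :
    ∃ h : E 5 → c.Y, c.SmNear h Sc ∧
      (∀ v ∈ Sc, c.Sgn (c.q (h v)) (fderiv ℝ (c.am h) v) 1) ∧ ∀ x ∈ S2, h (inc x) = a x := by
  obtain ⟨k, k1, k2⟩ := hf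
  have hq : ContinuousOn (fun u => c.q (a u)) S2 := c.continuous_q.comp_continuousOn ha.continuousOn
  obtain ⟨C, c1, c2⟩ := frame_approx (isCompact_sphere 0 1) k1
    (P := fun u C => c.Cof (c.q (a u)) C) fun u hu =>
      (((hq.comp continuousOn_fst fun p hp => hp.1).prodMk continuousOn_snd) (u, k u)
        (mk_mem_prod hu (mem_univ _))).eventually (c.isOpen_cof.mem_nhds (k2 u hu))
  obtain ⟨O, o1, o2, o3⟩ := id ha
  have hD : ContDiffOn ℝ ∞ (fderiv ℝ (c.am a)) O := o3.2.fderiv_of_isOpen o1 (by simp)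
  obtain ⟨n, n1, n2⟩ := frame_core o1 o2 (M := fun u => (C u).comp (fderiv ℝ (c.am a) u))
    (c1.contDiffOn.clm_comp hD) fun u hu v h1 h2 =>
      hi u hu v h1 ((c2 u hu).inj (P_fderiv_am (ha.differentiableAt hu) v) h2)
  obtain ⟨A, a1, a2⟩ := exists_frame_of_cof hq c1.continuous.continuousOn c2
  have h1 : ContinuousOn (fun z : E 3 × (E 3 →L[ℝ] E c.N) => (C z.1).comp
      (frameB z.1 (fderiv ℝ (c.am a) z.1) ((c.P (c.q (a z.1))).comp z.2))) (S2 ×ˢ univ) :=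
    (c1.continuous.comp continuous_fst).continuousOn.clm_comp (frameB_cont continuousOn_fst
      ((hD.continuousOn.mono o2).comp continuousOn_fst fun p hp => hp.1)
      (((c.continuous_P.comp_continuousOn hq).comp continuousOn_fst fun p hp => hp.1).clm_comp
        continuousOn_snd))
  obtain ⟨g, g1, g2⟩ := frame_approx (isCompact_sphere 0 1) (a1.clm_comp n1)
    (P := fun u N => 0 < ((C u).comp
      (frameB u (fderiv ℝ (c.am a) u) ((c.P (c.q (a u))).comp N))).det) fun u hu =>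
      (sgn_det_cont (h1 (u, (A u).comp (n u)) ⟨hu, trivial⟩)).eventually (lt_mem_nhds
        ((n2 u hu).trans_eq (congrArg ContinuousLinearMap.det (ContinuousLinearMap.ext fun ξ => by
          simp only [frameB_apply, ContinuousLinearMap.comp_apply, map_add, (a2 u hu).1.P_eq,
            (a2 u hu).2]))))
  have hφ : ContDiffOn ℝ ∞ (fun v : E 5 => nrm (pr3 v)) {v | pr3 v ≠ 0} :=
    contDiffOn_nrm.comp contDiff_pr3.contDiffOn fun v hv => hv
  have hS : Sc ⊆ {v | pr3 v ≠ 0} := fun v hv => ne_zero_of_S2 (mem_Sc.1 hv).1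
  have e1 : ∀ x ∈ S2, nrm (pr3 (inc x)) = x := fun x hx => by rw [pr3_inc, nrm_of_S2 hx]
  have e2 : ∀ x ∈ S2, tnu (inc x) = 0 := fun x hx => by rw [← tube_zero, tnu_tube hx]
  obtain ⟨h, p1, p2, p3⟩ := exists_push (ha.comp tl_isOpen hS hφ fun v hv => nrm_mem (hS hv))
    tl_isOpen hS (w := fun v => g (nrm (pr3 v)) (tnu v))
    ((g1.comp_contDiffOn hφ).clm_apply contDiffOn_tnu) (by
      rintro _ ⟨x, hx, rfl⟩
      rw [e2 x hx, map_zero])
  have e3 : ∀ x ∈ S2, h (inc x) = a x := fun x hx => by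
    rw [(p2.self_of_nhdsSet _ (inc_mem_Sc.2 hx)).2 (by rw [e2 x hx, map_zero]), e1 x hx]
  refine ⟨h, p1, ?_, e3⟩
  rintro _ ⟨x, hx, rfl⟩
  have hv := inc_mem_Sc.2 hx
  have d1 := (hφ.contDiffAt (tl_isOpen.mem_nhds (hS hv))).differentiableAt (by simp)
  have d2 : ∀ ξ, fderiv ℝ (fun v : E 5 => nrm (pr3 v)) (inc x) ξ = frameE x (pr3 ξ) := fun ξ => by
    rw [fderiv_fun_comp _ (lnk_diff_nrm (hS hv)) (contDiff_pr3.differentiable (by simp) _),
      ContinuousLinearMap.comp_apply, fderiv_pr3, pr3_inc,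
      fderiv_nrm (mem_sphere_zero_iff_norm.1 hx), frameE_apply]
  have e4 : fderiv ℝ (c.am h) (inc x) =
      frameB x (fderiv ℝ (c.am a) x) ((c.P (c.q (a x))).comp (g x)) := by
    ext1 ξ
    rw [p3 _ hv, am_comp, fderiv_fun_comp _ (by rw [e1 x hx]; exact ha.differentiableAt hx) d1,
      fderiv_clm_apply (c := fun v => g (nrm (pr3 v)))
        ((g1.differentiable (by simp) _).comp _ d1) (tl_diff_tnu (hS hv))]
    simp only [e1 x hx, e2 x hx, map_zero, add_zero, ContinuousLinearMap.comp_apply, d2,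
      fderiv_tnu hx, frameB_apply, frameN_apply]
  refine (e3 x hx ▸ c2 x hx : c.Cof (c.q (h (inc x))) (C x)).sgn_iff.2
    ⟨P_fderiv_am (p1.differentiableAt hv), ?_⟩
  rw [e4]
  simpa using g2 x hx

theorem Link.exists_fl {L : ι → E 3 → c.Y} (hL : c.Link L) (hf : ∀ i, c.Flat (L i) S2) :
    ∃ h, c.FL h ∧ ∀ i, ∀ x ∈ S2, h i (inc x) = L i x := by
  choose h h1 h2 h3 using fun i => exists_frame1 (hL.sm i) (hL.imm i) (hf i)
  refine ⟨h, ⟨h1, h2, ?_⟩, h3⟩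
  rintro i j _ ⟨x, hx, rfl⟩ _ ⟨y, hy, rfl⟩ e
  rw [h3 i x hx, h3 j y hy] at e
  exact (hL.inj i j x hx y hy e).imp_right (congrArg inc)

end Ctx

end Pool.Agent.CSP
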