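import Pool.Agent.Lib.MP_436e1a_gt.B.LnkL
import Pool.Agent.Lib.MP_436e1a_gt.B.Lift
import Pool.Agent.Lib.MP_436e1a_gt.A.SmoothRel

/-! Smooth pushes near compact sets; smooth families from homotopies. -/

open scoped Topology ContDiff
open Set

namespace Pool.Agent.CSP

namespace Ctx

variable {c : Ctx} {V : Type} [NormedAddCommGroup V] [NormedSpace ℝ V]

/-- the retraction of a smooth map that is close to a continuous one lifts -/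
theorem push_aux {O : Set V} {f : V → c.Y} (hf : ContinuousOn f O) {g : V → E c.N}
    (hg : ContDiffOn ℝ ∞ g O) {δ : ℝ} (hδ : ∀ x, ∀ w : E c.N, ‖w‖ < δ → c.ι x + w ∈ c.U)
    (h : ∀ v ∈ O, ‖g v - c.am f v‖ < δ) :
    ∃ f', c.SmOn f' O ∧ ∀ v ∈ O, c.am f' v = c.ρ (g v) ∧ (g v = c.am f v → f' v = f v) := by
  have hU : ∀ v ∈ O, ∀ s ∈ Icc (0 : ℝ) 1, c.am f v + s • (g v - c.am f v) ∈ c.U := by
    intro v hv s hs
    refine hδ _ _ (lt_of_le_of_lt ?_ (h v hv))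
    rw [norm_smul, Real.norm_of_nonneg hs.1]
    exact mul_le_of_le_one_left (norm_nonneg _) hs.2
  obtain ⟨H, a1, -, a3, a4⟩ := c.lift_push hf (w := fun v => g v - c.am f v)
    (hg.continuousOn.sub (c.continuousOn_am hf)) hU
  have h1 : (1 : ℝ) ∈ Icc (0 : ℝ) 1 := right_mem_Icc.2 zero_le_one
  have e : ∀ v ∈ O, c.am (fun v => H (1, v)) v = c.ρ (g v) := fun v hv => by
    have e1 := a3 (1, v) ⟨h1, hv⟩
    rwa [one_smul, add_sub_cancel] at e1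
  refine ⟨fun v => H (1, v), ⟨a1.comp (by fun_prop) fun v hv => ⟨h1, hv⟩, ?_⟩, fun v hv =>
    ⟨e v hv, fun e1 => a4 v hv (sub_eq_zero.2 e1) 1 h1⟩⟩
  refine (c.contDiffOn_ρ.comp hg fun v hv => ?_).congr e
  have e1 := hU v hv 1 h1
  rwa [one_smul, add_sub_cancel] at e1

/-- Push a smooth map by a smooth field that vanishes on `K`. -/
theorem exists_push {K O : Set V} {f : V → c.Y} (hf : c.SmNear f K) (hO : IsOpen O) (hK : K ⊆ O)
    {w : V → E c.N} (hw : ContDiffOn ℝ ∞ w O) (h0 : ∀ v ∈ K, w v = 0) :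
    ∃ f', c.SmNear f' K ∧
      (∀ᶠ v in 𝓝ˢ K, c.am f' v = c.ρ (c.am f v + w v) ∧ (w v = 0 → f' v = f v)) ∧
      ∀ v ∈ K, ∀ u, fderiv ℝ (c.am f') v u =
        fderiv ℝ (c.am f) v u + c.P (c.q (f v)) (fderiv ℝ w v u) := by
  obtain ⟨δ, hδ0, hδ⟩ := c.exists_rad
  obtain ⟨O₀, hO₀, hK₀, hs⟩ := id hf
  have hO₁ : IsOpen (O₀ ∩ (O ∩ w ⁻¹' Metric.ball 0 δ)) :=
    hO₀.inter (hw.continuousOn.isOpen_inter_preimage hO Metric.isOpen_ball)
  have hK₁ : K ⊆ O₀ ∩ (O ∩ w ⁻¹' Metric.ball 0 δ) := fun v hv =>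
    ⟨hK₀ hv, hK hv, by rw [mem_preimage, h0 v hv]; exact Metric.mem_ball_self hδ0⟩
  obtain ⟨f', h1, h2⟩ := push_aux (O := O₀ ∩ (O ∩ w ⁻¹' Metric.ball 0 δ))
    (hs.1.mono inter_subset_left) (g := fun v => c.am f v + w v)
    ((hs.2.mono inter_subset_left).add (hw.mono fun v hv => hv.2.1)) hδ fun v hv => by
      rw [add_sub_cancel_left]
      exact mem_ball_zero_iff.1 hv.2.2
  refine ⟨f', ⟨_, hO₁, hK₁, h1⟩, ?_, fun v hv u => ?_⟩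
  · filter_upwards [hO₁.mem_nhdsSet.2 hK₁] with v hv
    exact ⟨(h2 v hv).1, fun e => (h2 v hv).2 (by rw [e, add_zero])⟩
  · have e : c.am f' =ᶠ[𝓝 v] fun v => c.ρ (c.am f v + w v) := by
      filter_upwards [hO₁.mem_nhds (hK₁ hv)] with v hv using (h2 v hv).1
    have d1 := hf.differentiableAt hv
    have d2 : DifferentiableAt ℝ w v :=
      (hw.contDiffAt (hO.mem_nhds (hK hv))).differentiableAt (by simp)
    have e1 : c.am f v + w v = c.ι (c.q (f v)) := by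
      rw [h0 v hv, add_zero]
      rfl
    have d3 : HasFDerivAt c.ρ (c.P (c.q (f v))) (c.am f v + w v) := by
      rw [e1]
      exact (c.sm_ρ (c.A.mem_U _)).hasFDerivAt
    have d4 : HasFDerivAt (fun v => c.ρ (c.am f v + w v))
        ((c.P (c.q (f v))).comp (fderiv ℝ (c.am f) v + fderiv ℝ w v)) v :=
      HasFDerivAt.comp (f := fun v => c.am f v + w v) v d3 (d1.hasFDerivAt.add d2.hasFDerivAt)
    rw [e.fderiv_eq, d4.fderiv, ContinuousLinearMap.comp_apply, add_apply, map_add,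
      P_fderiv_am d1]

/-- two lifts of the same map that agree on `K` agree near `K` (`lift_eventually`) -/
theorem eq_nhdsSet {K : Set V} {f f' : V → c.Y} (hf : c.SmNear f K) (hf' : c.SmNear f' K)
    (h : ∀ᶠ v in 𝓝ˢ K, c.am f' v = c.am f v) (e : ∀ v ∈ K, f' v = f v) :
    ∀ᶠ v in 𝓝ˢ K, f' v = f v := by
  rw [eventually_nhdsSet_iff_forall] at h ⊢
  intro v hv
  have h1 := c.lift_eventually (O := univ) (hf'.continuousAt hv).continuousWithinAt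
    (hf.continuousAt hv).continuousWithinAt
    (((h v hv).mono fun y hy => c.am_eq_iff.1 hy).filter_mono nhdsWithin_le_nhds) (e v hv)
  rwa [nhdsWithin_univ] at h1

/-- A homotopy between smooth spheres can be made smooth. -/
theorem fam_of_htp {a a' : E 3 → c.Y} (ha : c.SmNear a S2) (ha' : c.SmNear a' S2)
    (H : HtpOn S2 a a') : ∃ f : ℝ × E 3 → c.Y, c.SmNear f (Icc 0 1 ×ˢ S2) ∧
      ∀ x ∈ S2, f (0, x) = a x ∧ f (1, x) = a' x := by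
  obtain ⟨H, hH, H0, H1⟩ := H
  obtain ⟨δ, hδ0, hδ⟩ := c.exists_rad
  obtain ⟨f₀, hf₀⟩ : ∃ f₀ : ℝ × E 3 → c.Y,
      f₀ = fun p => H (max 0 (min 1 (3 * p.1 - 1)), nrm p.2) := ⟨_, rfl⟩
  have hc : ContinuousOn f₀ (univ ×ˢ {0}ᶜ) := by
    rw [hf₀]
    refine hH.comp (ContinuousOn.prodMk (by fun_prop)
      (contDiffOn_nrm.continuousOn.comp continuousOn_snd fun p hp => hp.2)) fun p hp => ?_
    exact ⟨⟨le_max_left _ _, max_le zero_le_one (min_le_left _ _)⟩, nrm_mem hp.2⟩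
  have e0 : ∀ p ∈ Iio (1 / 3 : ℝ) ×ˢ ({0}ᶜ : Set (E 3)), f₀ p = a (nrm p.2) := fun p hp => by
    have h1 : p.1 < 1 / 3 := hp.1
    simp only [hf₀]
    rw [max_eq_left (min_le_of_right_le (by linarith)), H0 _ (nrm_mem hp.2)]
  have e1 : ∀ p ∈ Ioi (2 / 3 : ℝ) ×ˢ ({0}ᶜ : Set (E 3)), f₀ p = a' (nrm p.2) := fun p hp => by
    have h1 : 2 / 3 < p.1 := hp.1
    simp only [hf₀]
    rw [min_eq_left (by linarith), max_eq_right zero_le_one, H1 _ (nrm_mem hp.2)]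
  have o0 : IsOpen (Iio (1 / 3 : ℝ) ×ˢ ({0}ᶜ : Set (E 3))) :=
    isOpen_Iio.prod isOpen_compl_singleton
  have o1 : IsOpen (Ioi (2 / 3 : ℝ) ×ˢ ({0}ᶜ : Set (E 3))) :=
    isOpen_Ioi.prod isOpen_compl_singleton
  have s0 := (ha.nrm.comp contDiffOn_snd fun p hp => hp.2).congr e0
  have s1 := (ha'.nrm.comp contDiffOn_snd fun p hp => hp.2).congr e1
  have m0 : ∀ x ∈ S2, ((0 : ℝ), x) ∈ Iio (1 / 3 : ℝ) ×ˢ ({0}ᶜ : Set (E 3)) := fun x hx =>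
    ⟨by norm_num, ne_zero_of_S2 hx⟩
  have m1 : ∀ x ∈ S2, ((1 : ℝ), x) ∈ Ioi (2 / 3 : ℝ) ×ˢ ({0}ᶜ : Set (E 3)) := fun x hx =>
    ⟨by norm_num, ne_zero_of_S2 hx⟩
  have hK : {p : ℝ × E 3 | 1 / 2 ≤ ‖p.2‖} ⊆ univ ×ˢ {0}ᶜ := fun p hp => ⟨trivial, fun e => by
    have h1 : 1 / 2 ≤ ‖p.2‖ := hp
    rw [show p.2 = 0 from e, norm_zero] at h1
    linarith⟩
  have hO : {p : ℝ × E 3 | 1 / 2 < ‖p.2‖} ⊆ {p : ℝ × E 3 | 1 / 2 ≤ ‖p.2‖} := fun p hp =>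
    le_of_lt (show 1 / 2 < ‖p.2‖ from hp)
  have hS : ∀ (t : ℝ), ∀ x ∈ S2, (t, x) ∈ {p : ℝ × E 3 | 1 / 2 < ‖p.2‖} := fun t x hx => by
    show 1 / 2 < ‖x‖
    rw [mem_sphere_zero_iff_norm.1 hx]
    norm_num
  obtain ⟨g, hg, hgC, hgK⟩ := smoothkeep (K := {p : ℝ × E 3 | 1 / 2 ≤ ‖p.2‖})
    (C := {0} ×ˢ S2 ∪ {1} ×ˢ S2) (isClosed_le continuous_const (by fun_prop))
    ((isClosed_singleton.prod Metric.isClosed_sphere).union
      (isClosed_singleton.prod Metric.isClosed_sphere)) (o0.union o1)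
    (by
      rintro ⟨t, x⟩ (⟨rfl, hx⟩ | ⟨rfl, hx⟩)
      exacts [Or.inl (m0 x hx), Or.inr (m1 x hx)])
    (c.continuousOn_am (hc.mono hK))
    (fun p hp => (hp.elim (fun h => s0.2.contDiffAt (o0.mem_nhds h))
      fun h => s1.2.contDiffAt (o1.mem_nhds h)).contDiffWithinAt) hδ0
  obtain ⟨f, h1, h2⟩ := push_aux (hc.mono (hO.trans hK)) hg.contDiffOn hδ fun p hp => hgK p (hO hp)
  refine ⟨f, ⟨_, isOpen_lt continuous_const (by fun_prop), fun p hp => hS p.1 p.2 hp.2, h1⟩,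
    fun x hx => ⟨?_, ?_⟩⟩
  · rw [(h2 _ (hS 0 x hx)).2 (hgC (Or.inl ⟨rfl, hx⟩)), e0 _ (m0 x hx), nrm_of_S2 hx]
  · rw [(h2 _ (hS 1 x hx)).2 (hgC (Or.inr ⟨rfl, hx⟩)), e1 _ (m1 x hx), nrm_of_S2 hx]

end Ctx

end Pool.Agent.CSP
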