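import Pool.Agent.Lib.MP_436e1a_gt.B.Ext
import Pool.Agent.Lib.MP_436e1a_gt.E.TorsL

/-! Satellites: small embedded spheres in the tube of a framed link. -/

open scoped Topology ContDiff RealInnerProductSpace
open Set

namespace Pool.Agent.CSP

/-- a pattern: embedded spheres in the punctured tube that shrink to the core as `ε → 0` -/
structure Sat (φ : ℝ → E 3 → E 5) : Prop where
  sm : ContDiffOn ℝ ∞ (fun p : ℝ × E 3 => φ p.1 p.2) (univ ×ˢ {0}ᶜ)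
  zero : ∀ u ∈ S2, φ 0 u ∈ Sc
  imm : ∀ ε, 0 < ε → ∀ u ∈ S2, ∀ v, ⟪u, v⟫ = 0 → fderiv ℝ (φ ε) u v = 0 → v = 0
  inj : ∀ ε, 0 < ε → InjOn (φ ε) S2
  off : ∀ ε, 0 < ε → ∀ u ∈ S2, φ ε u ∉ Sc

theorem Sat.diff {φ : ℝ → E 3 → E 5} (h : ContDiffOn ℝ ∞ (fun p : ℝ × E 3 => φ p.1 p.2) (univ ×ˢ {0}ᶜ))
    (ε : ℝ) {u : E 3} (hu : u ≠ 0) : DifferentiableAt ℝ (φ ε) u :=
  ((h.contDiffAt ((isOpen_univ.prod isOpen_compl_singleton).mem_nhds (x := (ε, u))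
    ⟨mem_univ _, hu⟩)).differentiableAt (by simp)).comp u (f := fun x => (ε, x)) (by fun_prop)

theorem sat_of_back {φ : ℝ → E 3 → E 5}
    (h : ContDiffOn ℝ ∞ (fun p : ℝ × E 3 => φ p.1 p.2) (univ ×ˢ {0}ᶜ)) (h0 : ∀ u ∈ S2, φ 0 u ∈ Sc)
    (hb : ∀ ε, 0 < ε → ∃ g : E 5 → E 3, ∀ u ∈ S2, g (φ ε u) = u ∧ DifferentiableAt ℝ g (φ ε u))
    (ho : ∀ ε, 0 < ε → ∀ u ∈ S2, φ ε u ∉ Sc) : Sat φ := by
  refine ⟨h, h0, fun ε hε u hu v hv e => ?_, fun ε hε u hu v hv e => ?_, ho⟩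
  all_goals obtain ⟨g, hg⟩ := hb ε hε
  · exact tl_imm hu (Sat.diff h ε (ne_zero_of_S2 hu)) (hg u hu).2 (fun x hx => (hg x hx).1) hv e
  · rw [← (hg u hu).1, e, (hg v hv).1]

theorem sat_sig : Sat sig :=
  ⟨contDiffOn_sig, fun u hu => sig_zero u ▸ inc_mem_Sc.2 (dd_mem (ne_zero_of_S2 hu)),
    fun _ h _ hu _ hv e => sig_imm h hu hv e, fun _ h => sig_inj h.ne',
    fun _ h _ hu => sig_not_mem h.ne' hu⟩

theorem sat_kap : Sat kap := by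
  refine ⟨contDiff_kap.contDiffOn, fun u _ => ?_, fun ε h u _ v _ e => ?_, fun ε h u _ v _ e => ?_,
    fun _ h _ hu => kap_not_mem h.ne' hu⟩
  · simp only [kap, zero_smul, tube_zero]
    exact inc_mem_Sc.2 (gn_mem _)
  · have hd : DifferentiableAt ℝ (Lam ε) (inc u) :=
      ((contDiff_Lam.comp (contDiff_const.prodMk contDiff_id)).differentiable (by simp)) _
    rw [show kap ε = Lam ε ∘ inc from funext fun x => (Lam_inc ε x).symm, fderiv_comp u hd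
      (contDiff_inc.differentiable (by simp) u), ContinuousLinearMap.comp_apply, fderiv_inc] at e
    have := sgn_inv_left (det_Lam h (inc u)).ne' (inc v)
    rw [e, map_zero] at this
    rw [← norm_eq_zero, ← norm_inc, ← this, norm_zero]
  · rw [← Lam_inc, ← Lam_inc] at e
    rw [← pr3_inc u, Lam_inj h.ne' e, pr3_inc]

theorem sat_mer : Sat mer := by
  refine sat_of_back contDiff_mer.contDiffOn (fun u _ => ?_) (fun ε h => ⟨fun v => ε⁻¹ • tnu v,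
    fun u _ => ⟨?_, (tl_diff_tnu (pr3_tube_ne npole_mem _)).fun_const_smul _⟩⟩) fun ε h u hu e =>
      smul_ne_zero h.ne' (ne_zero_of_S2 hu) ((tube_mem_Sc npole_mem).1 e)
  · simp only [mer, zero_smul, tube_zero]
    exact inc_mem_Sc.2 npole_mem
  · simp only [mer, tnu_tube npole_mem, inv_smul_smul₀ h.ne']

theorem sat_par : Sat par := by
  refine sat_of_back contDiff_par.contDiffOn (fun u hu => ?_) (fun ε _ => ⟨fun v => nrm (pr3 v),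
    fun u hu => ⟨nrm_pr3_tube hu _, (lnk_diff_nrm (pr3_tube_ne hu _)).comp _
      (contDiff_pr3.differentiable (by simp) _)⟩⟩) fun ε h u hu e =>
      smul_ne_zero h.ne' (ne_zero_of_S2 npole_mem) ((tube_mem_Sc hu).1 e)
  simp only [par, zero_smul, tube_zero]
  exact inc_mem_Sc.2 hu

theorem sat_S2 (b : Bool) : MapsTo (rfb b) S2 S2 := fun x hx =>
  mem_sphere_zero_iff_norm.2 ((norm_rfb b x).trans (mem_sphere_zero_iff_norm.1 hx))

theorem Sat.rfb {φ : ℝ → E 3 → E 5} (h : Sat φ) (b : Bool) : Sat fun ε u => φ ε (rfb b u) := by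
  refine ⟨h.sm.comp (f := fun p : ℝ × E 3 => (p.1, CSP.rfb b p.2)) (contDiff_fst.prodMk
    ((contDiff_rfb b).comp contDiff_snd)).contDiffOn fun p hp => ⟨mem_univ _, fun e => hp.2 ?_⟩,
    fun u hu => h.zero _ (sat_S2 b hu), fun ε hε u hu v hv e => ?_, fun ε hε u hu v hv e => ?_,
    fun ε hε u hu => h.off ε hε _ (sat_S2 b hu)⟩
  · exact norm_eq_zero.1 ((norm_rfb b _).symm.trans (norm_eq_zero.2 e))
  · rw [fderiv_comp' u (Sat.diff h.sm ε (ne_zero_of_S2 (sat_S2 b hu)))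
      ((contDiff_rfb b).differentiable (by simp) u), ContinuousLinearMap.comp_apply,
      lnk_fderiv_rfb] at e
    rw [← norm_eq_zero, ← norm_rfb b, h.imm ε hε _ (sat_S2 b hu) _ ((lnk_inner_rfb b u v).trans hv) e,
      norm_zero]
  · rw [← rfb_rfb b u, h.inj ε hε (sat_S2 b hu) (sat_S2 b hv) e, rfb_rfb]

/-- the pattern enters every neighbourhood of the core (tube lemma) -/
theorem Sat.eventually {φ : ℝ → E 3 → E 5} (h : Sat φ) {W : Set (E 5)} (hW : W ∈ 𝓝ˢ Sc) :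
    ∃ δ > 0, ∀ ε, |ε| < δ → ∀ u ∈ S2, φ ε u ∈ W := by
  have h1 : ∀ᶠ ε in 𝓝 (0 : ℝ), ∀ u ∈ S2, φ ε u ∈ W :=
    (isCompact_sphere _ _).eventually_forall_of_forall_eventually fun u hu =>
      (h.sm.continuousOn.continuousAt ((isOpen_univ.prod isOpen_compl_singleton).mem_nhds
        (x := (0, u)) ⟨mem_univ _, ne_zero_of_S2 hu⟩)).preimage_mem_nhds (t := W)
        (mem_nhdsSet_iff_forall.1 hW _ (h.zero u hu))
  obtain ⟨δ, hδ, h2⟩ := Metric.eventually_nhds_iff.1 h1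
  exact ⟨δ, hδ, fun ε hε => h2 (by rwa [Real.dist_eq, sub_zero])⟩

/-- the cores of `h` together with one more sphere `s` -/
def tri {ι Y : Type} (h : ι → E 5 → Y) (s : E 3 → Y) : Option ι → E 3 → Y
  | none => s
  | some i => core h i

namespace Ctx

variable {c : Ctx} {ι : Type} [Finite ι] {h : ι → E 5 → c.Y} {φ : ℝ → E 3 → E 5}

omit [Finite ι] in
/-- isotopies of links inside the tubes -/
theorem iso_of_nhds {κ : Type} {W : Set (E 5)} (hW : IsOpen W) (hs : ∀ i, c.SmOn (h i) W)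
    (hg : ∀ i, ∀ v ∈ W, c.Sgn (c.q (h i v)) (fderiv ℝ (c.am (h i)) v) 1)
    (hj : ∀ i j, ∀ v ∈ W, ∀ w ∈ W, c.q (h i v) = c.q (h j w) → i = j ∧ v = w)
    (e : κ → ι) {ψ : κ → ℝ × E 3 → E 5} (hψ : ∀ k, ContDiffOn ℝ ∞ (ψ k) (univ ×ˢ {0}ᶜ))
    (hm : ∀ k, ∀ t ∈ Icc (0 : ℝ) 1, ∀ u ∈ S2, ψ k (t, u) ∈ W)
    (hi : ∀ k, ∀ t ∈ Icc (0 : ℝ) 1, ∀ u ∈ S2, ∀ v, ⟪u, v⟫ = 0 →
      fderiv ℝ (fun x => ψ k (t, x)) u v = 0 → v = 0)
    (hd : ∀ t ∈ Icc (0 : ℝ) 1, ∀ k l, ∀ x ∈ S2, ∀ y ∈ S2, e k = e l → ψ k (t, x) = ψ l (t, y) →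
      k = l ∧ x = y) : c.Iso fun k p => h (e k) (ψ k p) := by
  have hn : ∀ i, c.SmNear (h i) W := fun i => ⟨W, hW, subset_rfl, hs i⟩
  have hF : c.Fam fun k p => h (e k) (ψ k p) := fun k =>
    (hn _).comp (isOpen_univ.prod isOpen_compl_singleton)
      (fun p hp => ⟨mem_univ _, ne_zero_of_S2 hp.2⟩) (hψ k) fun p hp => hm k _ hp.1 _ hp.2
  refine ⟨hF, fun t ht => ⟨fun k => (hF k).slice ht, fun k x hx v hv e0 => hi k t ht x hx v hv ?_,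
    fun k l x hx y hy e0 => ?_⟩⟩
  · refine (hg (e k) _ (hm k t ht x hx)).inj ?_
    rw [map_zero, ← e0]
    exact (DFunLike.congr_fun (fderiv_comp x ((hn (e k)).differentiableAt (hm k t ht x hx))
      (Sat.diff (φ := fun s y => ψ k (s, y)) (hψ k) t (ne_zero_of_S2 hx))) v).symm
  · obtain ⟨e1, e2⟩ := hj _ _ _ (hm k t ht x hx) _ (hm l t ht y hy) e0
    exact hd t ht k l x hx y hy e1 e2

theorem FL.iso_tri (hh : c.FL h) (hφ : Sat φ) (i : ι) : ∃ δ > 0, ∀ ε ∈ Ioo 0 δ, ∀ ε' ∈ Ioo 0 δ,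
    ∃ F, c.Iso F ∧ sl F 0 = (tri h fun u => h i (φ ε u)) ∧ sl F 1 = tri h fun u => h i (φ ε' u) := by
  obtain ⟨W, hW, hS, hs, hg, hj⟩ := hh.exists_nhds
  obtain ⟨δ, hδ, hm⟩ := hφ.eventually (hW.mem_nhdsSet.2 hS)
  refine ⟨δ, hδ, fun ε hε ε' hε' => ?_⟩
  have hτ : ∀ t ∈ Icc (0 : ℝ) 1, (1 - t) * ε + t * ε' ∈ Ioo 0 δ := fun t ht =>
    convex_Ioo 0 δ hε hε' (sub_nonneg.2 ht.2) ht.1 (sub_add_cancel _ _)
  refine ⟨_, iso_of_nhds hW hs hg hj (fun k : Option ι => k.getD i) (ψ := fun k p => match k with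
    | none => φ ((1 - p.1) * ε + p.1 * ε') p.2
    | some _ => inc p.2) ?_ ?_ ?_ ?_, ?_, ?_⟩
  · rintro (_ | k)
    · exact hφ.sm.comp (f := fun p : ℝ × E 3 => ((1 - p.1) * ε + p.1 * ε', p.2)) (by fun_prop)
        fun p hp => ⟨mem_univ _, hp.2⟩
    · exact (contDiff_inc.comp contDiff_snd).contDiffOn
  · rintro (_ | k) t ht u hu
    exacts [hm _ (by rw [abs_of_pos (hτ t ht).1]; exact (hτ t ht).2) u hu, hS (inc_mem_Sc.2 hu)]
  · rintro (_ | k) t ht u hu v hv e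
    · exact hφ.imm _ (hτ t ht).1 u hu v hv e
    · rw [← norm_eq_zero, ← norm_inc, ← fderiv_inc u]
      exact norm_eq_zero.2 e
  · rintro t ht (_ | k) (_ | l) x hx y hy e1 e2
    · exact ⟨rfl, hφ.inj _ (hτ t ht).1 hx hy e2⟩
    · exact (hφ.off _ (hτ t ht).1 x hx (mem_of_eq_of_mem e2 (inc_mem_Sc.2 hy))).elim
    · exact (hφ.off _ (hτ t ht).1 y hy (mem_of_eq_of_mem e2.symm (inc_mem_Sc.2 hx))).elim
    · exact ⟨congrArg some e1, by rw [← pr3_inc x, show inc x = inc y from e2, pr3_inc]⟩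
  · funext k u
    cases k <;> simp [sl, tri, core]
  · funext k u
    cases k <;> simp [sl, tri, core]

/-- `FL.exists_nhds`, `Sat.eventually` -/
theorem FL.link_tri (hh : c.FL h) (hφ : Sat φ) (i : ι) :
    ∀ᶠ ε in 𝓝[>] (0 : ℝ), c.Link (tri h fun u => h i (φ ε u)) := by
  obtain ⟨δ, hδ, H⟩ := hh.iso_tri hφ i
  filter_upwards [Ioo_mem_nhdsGT hδ] with ε hε
  obtain ⟨F, hF, e, -⟩ := H ε hε ε hε
  exact e ▸ hF.2 0 (left_mem_Icc.2 zero_le_one)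

/-- the isotopy `φ ((1 - t) ε + t ε')`, `Iso.eqv` -/
theorem FL.eqv_tri (hh : c.FL h) (hφ : Sat φ) (i : ι) : ∃ δ > 0, ∀ ε ∈ Ioo 0 δ, ∀ ε' ∈ Ioo 0 δ,
    c.Eqv (tri h fun u => h i (φ ε u)) (tri h fun u => h i (φ ε' u)) := by
  obtain ⟨δ, hδ, H⟩ := hh.iso_tri hφ i
  refine ⟨δ, hδ, fun ε hε ε' hε' => ?_⟩
  obtain ⟨F, hF, e, e'⟩ := H ε hε ε' hε'
  exact e ▸ e' ▸ hF.eqv

/-- the satellite is homotopic to its limit on the core -/
theorem FL.htp_sat (hh : c.FL h) (hφ : Sat φ) (i : ι) :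
    ∀ᶠ ε in 𝓝[>] (0 : ℝ), HtpOn S2 (fun u => h i (φ ε u)) fun u => h i (φ 0 u) := by
  obtain ⟨W, hW, hS, hs⟩ := hh.sm i
  obtain ⟨δ, hδ, hm⟩ := hφ.eventually (hW.mem_nhdsSet.2 hS)
  filter_upwards [Ioo_mem_nhdsGT hδ] with ε hε
  refine ⟨fun p => h i (φ ((1 - p.1) * ε) p.2), hs.1.comp (hφ.sm.continuousOn.comp
    (f := fun p : ℝ × E 3 => ((1 - p.1) * ε, p.2)) (by fun_prop)
    fun p hp => ⟨mem_univ _, ne_zero_of_S2 hp.2⟩) fun p hp => hm _ ?_ _ hp.2, by simp, by simp⟩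
  rw [abs_of_nonneg (mul_nonneg (sub_nonneg.2 hp.1.2) hε.1.le)]
  nlinarith [hp.1.1, hε.1, hε.2]

theorem FL.tors_sig (hh : c.FL h) {i : ι} (ht : Tors (core h i)) :
    ∀ᶠ ε in 𝓝[>] (0 : ℝ), Tors (fun u => h i (sig ε u)) ∧
      ∃ D, ContinuousOn D B3 ∧ EqOn D (fun u => h i (sig ε u)) S2 := by
  filter_upwards [hh.htp_sat sat_sig i] with ε H
  simp only [sig_zero] at H
  obtain ⟨D, hD, e⟩ := ht.2
  exact ⟨ht.dd.htp H.symm, ext_of_htp hD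
    ((HtpOn.of_eq (hD.mono Metric.sphere_subset_closedBall) e).trans H.symm)⟩

theorem FL.tors_par (hh : c.FL h) {i : ι} (ht : Tors (core h i)) (b : Bool) :
    ∀ᶠ ε in 𝓝[>] (0 : ℝ), Tors fun u => h i (par ε (rfb b u)) := by
  filter_upwards [hh.htp_sat (sat_par.rfb b) i] with ε H
  refine (ht.rfb b).htp (HtpOn.symm ?_)
  simpa only [par, zero_smul, tube_zero, core] using H

omit [Finite ι] in
theorem FL.ball_of (hh : c.FL h) (i : ι) {ψ : ℝ × E 3 → E 5} (hψ : Continuous ψ)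
    (h0 : ∀ u, ψ (0, u) ∈ Sc) : ∀ᶠ ε in 𝓝[>] (0 : ℝ), ContinuousOn (fun u => h i (ψ (ε, u))) B3 := by
  obtain ⟨W, hW, hS, hs⟩ := hh.sm i
  have h1 : ∀ᶠ ε in 𝓝 (0 : ℝ), ∀ u ∈ B3, ψ (ε, u) ∈ W :=
    (isCompact_closedBall _ _).eventually_forall_of_forall_eventually fun u _ =>
      hψ.continuousAt.preimage_mem_nhds (hW.mem_nhds (hS (h0 u)))
  filter_upwards [h1.filter_mono nhdsWithin_le_nhds] with ε hε
  exact hs.1.comp (hψ.comp (Continuous.prodMk_right ε)).continuousOn hε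

/-- the normal disc -/
theorem FL.ball_mer (hh : c.FL h) (i : ι) (b : Bool) :
    ∀ᶠ ε in 𝓝[>] (0 : ℝ), ContinuousOn (fun u => h i (mer ε (rfb b u))) B3 :=
  hh.ball_of i (ψ := fun p => mer p.1 (rfb b p.2)) (contDiff_mer.continuous.comp
    (continuous_fst.prodMk ((contDiff_rfb b).continuous.comp continuous_snd))) fun u => by
      simp only [mer, zero_smul, tube_zero]
      exact inc_mem_Sc.2 npole_mem

theorem FL.ball_kap (hh : c.FL h) (i : ι) :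
    ∀ᶠ ε in 𝓝[>] (0 : ℝ), ContinuousOn (fun u => h i (kap ε u)) B3 :=
  hh.ball_of i (ψ := fun p => kap p.1 p.2) contDiff_kap.continuous fun u => by
    simp only [kap, zero_smul, tube_zero]
    exact inc_mem_Sc.2 (gn_mem _)

end Ctx

end Pool.Agent.CSP
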