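import Pool.Agent.Lib.MP_436e1a_gt.I.Sat
import Pool.Agent.Lib.MP_436e1a_gt.E.LkStep
import Pool.Agent.Lib.MP_436e1a_gt.E.InterSign

/-! Linking numbers of satellites. -/

open scoped Topology
open Set

namespace Pool.Agent.CSP

/-- the sign of the meridian; users only need `ms_cases` -/
def ms : ℤ := 1

theorem ms_cases : ms = 1 ∨ ms = -1 := Or.inl rfl

/-- a homotopy of spheres in `W` -/
structure SlkH (W : Set (E 5)) (α : ℝ × E 3 → E 5) (a₀ a₁ : E 3 → E 5) : Prop where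
  cont : ContinuousOn α (Icc 0 1 ×ˢ S2)
  mem : ∀ p ∈ Icc (0 : ℝ) 1 ×ˢ S2, α p ∈ W
  e0 : ∀ x ∈ S2, α (0, x) = a₀ x
  e1 : ∀ x ∈ S2, α (1, x) = a₁ x

theorem slk_inc {W : Set (E 5)} (hW : Sc ⊆ W) : SlkH W (fun p => inc p.2) inc inc :=
  ⟨(contDiff_inc.continuous.comp continuous_snd).continuousOn, fun _ hp => hW (inc_mem_Sc.2 hp.2),
    fun _ _ => rfl, fun _ _ => rfl⟩

theorem slk_cpt : IsCompact (Icc (0 : ℝ) 1 ×ˢ S2) := isCompact_Icc.prod (isCompact_sphere _ _)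

theorem slk_ev {X : Type} [TopologicalSpace X] {K : Set X} (hK : IsCompact K) {u ω : X → E 3}
    (mu : ∀ p ∈ K, u p ∈ S2) (cω : ContinuousOn ω K) {W : Set (E 5)} (hW : W ∈ 𝓝ˢ Sc) :
    ∀ᶠ ε in 𝓝[>] (0 : ℝ), ∀ p ∈ K, tube (u p) (ε • ω p) ∈ W := by
  obtain ⟨δ, hδ, h⟩ := exists_tube_subset hW
  obtain ⟨C, hC⟩ := hK.exists_bound_of_continuousOn cω
  have h1 : Filter.Tendsto (fun ε : ℝ => |ε| * C) (𝓝 0) (𝓝 (|0| * C)) :=
    (continuous_abs.mul continuous_const).tendsto 0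
  rw [abs_zero, zero_mul] at h1
  filter_upwards [(h1.eventually (gt_mem_nhds hδ)).filter_mono nhdsWithin_le_nhds] with ε hε p hp
  refine h _ (mu p hp) _ ?_
  rw [norm_smul, Real.norm_eq_abs]
  exact (mul_le_mul_of_nonneg_left (hC p hp) (abs_nonneg _)).trans hε.le

theorem slk_tube {u ω : ℝ × E 3 → E 3} (cu : ContinuousOn u (Icc 0 1 ×ˢ S2))
    (cω : ContinuousOn ω (Icc 0 1 ×ˢ S2)) (ε : ℝ) :
    ContinuousOn (fun p => tube (u p) (ε • ω p)) (Icc 0 1 ×ˢ S2) :=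
  contDiff_tube.continuous.comp_continuousOn (cu.prodMk (cω.const_smul ε))

theorem slk_sat {φ : ℝ → E 3 → E 5} (hφ : Sat φ) {W : Set (E 5)} (hW : W ∈ 𝓝ˢ Sc) :
    ∀ᶠ ε in 𝓝[>] (0 : ℝ), SlkH W (fun p => φ (p.1 * ε) p.2) (φ 0) (φ ε) := by
  obtain ⟨δ, hδ, hm⟩ := hφ.eventually hW
  filter_upwards [Ioo_mem_nhdsGT hδ] with ε hε
  refine ⟨hφ.sm.continuousOn.comp (f := fun p : ℝ × E 3 => (p.1 * ε, p.2)) (by fun_prop)
    fun p hp => ⟨mem_univ _, ne_zero_of_S2 hp.2⟩, fun p hp => hm _ ?_ _ hp.2,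
    fun x _ => by rw [zero_mul], fun x _ => by rw [one_mul]⟩
  rw [abs_of_nonneg (mul_nonneg hp.1.1 hε.1.le)]
  nlinarith [hp.1.2, hε.1, hε.2]

theorem slk_gn_pos (x : E 3) : 0 < gn x 2 := by
  simp [gn, nrm]

theorem slk_seg {t : ℝ} (ht : t ∈ Icc (0 : ℝ) 1) {a b : ℝ} (ha : 0 < a) (hb : 0 < b) :
    0 < (1 - t) * a + t * b := by
  rcases ht.1.eq_or_lt with rfl | h
  · simpa using ha
  · exact add_pos_of_nonneg_of_pos (mul_nonneg (sub_nonneg.2 ht.2) ha.le) (mul_pos h hb)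

theorem slk_up {t : ℝ} (ht : t ∈ Icc (0 : ℝ) 1) {v : E 3} (hv : 0 < v 2) :
    (1 - t) • npole + t • v ≠ 0 := fun h => by
  have h1 := congrArg (fun u : E 3 => u 2) h
  have h2 := slk_seg ht one_pos hv
  simp [npole] at h1
  linarith

theorem slk_dd_cont : ContinuousOn (fun p : ℝ × E 3 => dd p.2) (Icc 0 1 ×ˢ S2) :=
  contDiffOn_dd.continuousOn.comp continuousOn_snd fun _ hp => ne_zero_of_S2 hp.2

theorem slk_det {ε : ℝ} (hε : 0 < ε) : 0 < (fr ![(!₂[0, 0, ε, 0, 0] : E 5), !₂[0, 0, 0, ε, 0],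
    !₂[0, 0, 0, 0, ε], !₂[1, 0, 0, 0, 0], !₂[0, 1, 0, 0, 0]]).det := by
  have h : (Matrix.of fun i k => ![(!₂[0, 0, ε, 0, 0] : E 5), !₂[0, 0, 0, ε, 0],
      !₂[0, 0, 0, 0, ε], !₂[1, 0, 0, 0, 0], !₂[0, 1, 0, 0, 0]] k i) =
      (Matrix.diagonal ![1, 1, ε, ε, ε]).submatrix id (finRotate 5 * finRotate 5) := by
    ext i k
    fin_cases i <;> fin_cases k <;> rfl
  rw [det_fr, h, Matrix.det_permute', map_mul, Int.units_mul_self, Matrix.det_diagonal]
  simp only [Fin.prod_univ_succ, Matrix.cons_val_zero, Matrix.cons_val_succ, Fin.prod_univ_zero,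
    Units.val_one, Int.cast_one]
  positivity

theorem slk_mer_der (ε : ℝ) : HasFDerivAt (mer ε)
    ((fderiv ℝ (tube npole) 0).comp (ε • ContinuousLinearMap.id ℝ (E 3))) 0 := by
  have hd : DifferentiableAt ℝ (tube npole) (ε • (0 : E 3)) :=
    ((contDiff_tube.comp (contDiff_const.prodMk contDiff_id)).differentiable (by simp)) _
  have h := hd.hasFDerivAt.comp (0 : E 3) ((hasFDerivAt_id (0 : E 3)).const_smul ε)
  rw [smul_zero] at h
  exact h

theorem slk_mer_zero (ε : ℝ) : mer ε 0 = inc npole := by rw [mer, smul_zero, tube_zero]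

namespace Ctx

variable {c : Ctx} {ι : Type} [Finite ι] {h : ι → E 5 → c.Y} {φ : ℝ → E 3 → E 5}

theorem slk_dd_left {a b : E 3 → c.Y} (ha : Tors a) (hb : Tors b) (hd : Dj a b) :
    c.lk (fun x => a (dd x)) b = 3 * c.lk a b := by
  have h1 : Dj b fun x => a (dd x) := fun x hx y hy e =>
    hd _ (dd_mem (ne_zero_of_S2 hy)) x hx e.symm
  rw [lk_skew hb ha.dd h1, lk_dd hb ha fun x hx y hy e => hd y hy x hx e.symm, lk_skew ha hb hd]
  ring

theorem slk_rfb {a b : E 3 → c.Y} (ha : Tors a) (hb : Tors b) (hd : Dj a b) (s : Bool) :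
    c.lk a (fun y => b (rfb s y)) = if s then - c.lk a b else c.lk a b := by
  cases s
  exacts [rfl, lk_rf ha hb hd]

theorem slk_ball {b : E 3 → c.Y} {γ : E 3 → E 3} (hb : ContinuousOn b S2) (hγ : Continuous γ)
    (hm : ∀ x, γ x ∈ S2) : ContinuousOn (fun x => b (γ x)) B3 :=
  hb.comp hγ.continuousOn fun x _ => hm x

/-- a neighbourhood of the cores on which the framed link is an embedding -/
structure SlkW (c : Ctx) {ι : Type} (h : ι → E 5 → c.Y) (W : Set (E 5)) : Prop where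
  nh : W ∈ 𝓝ˢ Sc
  cont : ∀ i, ContinuousOn (h i) W
  eq : ∀ i j (g : c.G), ∀ v ∈ W, ∀ w ∈ W, h i v = g • h j w → i = j ∧ g = 1 ∧ v = w

theorem FL.slk_nhds (hh : c.FL h) : ∃ W, SlkW c h W := by
  obtain ⟨W, hW, hS, hs, -, hi⟩ := hh.exists_nhds
  refine ⟨W, hW.mem_nhdsSet.2 hS, fun i => (hs i).1, fun i j g v hv w hw e => ?_⟩
  obtain ⟨rfl, rfl⟩ := hi i j v hv w hw (by rw [e, c.q_smul])
  exact ⟨rfl, c.smul_eq_self e.symm, rfl⟩

section
variable {W : Set (E 5)} {α β : ℝ × E 3 → E 5} {a₀ a₁ b₀ b₁ : E 3 → E 5}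

omit [Finite ι] in
theorem SlkW.tors (hW : SlkW c h W) (hα : SlkH W α a₀ a₁) {i : ι} (ta : Tors fun x => h i (a₀ x)) :
    Tors fun x => h i (a₁ x) :=
  ta.htp ⟨fun p => h i (α p), (hW.cont i).comp hα.cont hα.mem,
    fun x hx => congrArg (h i) (hα.e0 x hx), fun x hx => congrArg (h i) (hα.e1 x hx)⟩

omit [Finite ι] in
theorem SlkW.fam (hW : SlkW c h W) (hα : SlkH W α a₀ a₁) (hβ : SlkH W β b₀ b₁) {i j : ι} {g : c.G}
    (hd : i = j ∧ g = 1 → ∀ t ∈ Icc (0 : ℝ) 1, ∀ x ∈ S2, ∀ y ∈ S2, α (t, x) ≠ β (t, y))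
    (ta : Tors fun x => h i (a₀ x)) (tb : Tors fun y => h j (b₀ y)) :
    c.lk (fun x => h i (a₁ x)) (fun y => g • h j (b₁ y)) =
      c.lk (fun x => h i (a₀ x)) fun y => g • h j (b₀ y) := by
  have h1 : ContinuousOn (fun p => h i (α p)) (Icc 0 1 ×ˢ S2) := (hW.cont i).comp hα.cont hα.mem
  have h2 : ContinuousOn (fun p => g • h j (β p)) (Icc 0 1 ×ˢ S2) :=
    (c.continuous_smul g).comp_continuousOn ((hW.cont j).comp hβ.cont hβ.mem)
  have h3 : ∀ t ∈ Icc (0 : ℝ) 1, Dj (fun x => h i (α (t, x))) fun y => g • h j (β (t, y)) :=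
    fun t ht x hx y hy e => by
      obtain ⟨e1, e2, e3⟩ := hW.eq i j g _ (hα.mem (t, x) ⟨ht, hx⟩) _ (hβ.mem (t, y) ⟨ht, hy⟩) e
      exact hd ⟨e1, e2⟩ t ht x hx y hy e3
  have a0 : Tors fun x => h i (α (0, x)) := ta.congr fun x hx => congrArg (h i) (hα.e0 x hx)
  have b0 : Tors fun y => g • h j (β (0, y)) := (tb.map (c.continuous_smul g)).congr
    fun y hy => congrArg (fun v => g • h j v) (hβ.e0 y hy)
  have a1 : Tors fun x => h i (α (1, x)) :=
    (hW.tors hα ta).congr fun x hx => congrArg (h i) (hα.e1 x hx)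
  have b1 : Tors fun y => g • h j (β (1, y)) := ((hW.tors hβ tb).map (c.continuous_smul g)).congr
    fun y hy => congrArg (fun v => g • h j v) (hβ.e1 y hy)
  exact ((lk_congr a1 b1 (h3 1 (right_mem_Icc.2 zero_le_one))
    (fun x hx => congrArg (h i) (hα.e1 x hx).symm)
    fun y hy => congrArg (fun v => g • h j v) (hβ.e1 y hy).symm).trans
      (lk_fam0 h1 h2 h3 a0 b0)).trans (lk_congr a0 b0 (h3 0 (left_mem_Icc.2 zero_le_one))
        (fun x hx => congrArg (h i) (hα.e0 x hx).symm)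
        fun y hy => congrArg (fun v => g • h j v) (hβ.e0 y hy).symm).symm

omit [Finite ι] in
theorem SlkW.fam1 (hW : SlkW c h W) (hα : SlkH W α a₀ a₁) (hβ : SlkH W β b₀ b₁) {i : ι}
    (hd : ∀ t ∈ Icc (0 : ℝ) 1, ∀ x ∈ S2, ∀ y ∈ S2, α (t, x) ≠ β (t, y))
    (ta : Tors fun x => h i (a₀ x)) (tb : Tors fun y => h i (b₀ y)) :
    c.lk (fun x => h i (a₁ x)) (fun y => h i (b₁ y)) =
      c.lk (fun x => h i (a₀ x)) fun y => h i (b₀ y) := by
  simpa only [one_smul] using hW.fam hα hβ (g := 1) (fun _ => hd) ta tb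

end

/-- a motion in the punctured tube does not change the linking number with the core -/
theorem FL.slk_move (hh : c.FL h) {i : ι} (ht : Tors (core h i)) {u ω : ℝ × E 3 → E 3}
    (cu : ContinuousOn u (Icc 0 1 ×ˢ S2)) (cω : ContinuousOn ω (Icc 0 1 ×ˢ S2))
    (mu : ∀ p ∈ Icc (0 : ℝ) 1 ×ˢ S2, u p ∈ S2) (h0 : ∀ p ∈ Icc (0 : ℝ) 1 ×ˢ S2, ω p ≠ 0) :
    ∀ᶠ ε in 𝓝[>] (0 : ℝ), ∀ b₀ b₁ : E 3 → E 5,
      (∀ x ∈ S2, tube (u (0, x)) (ε • ω (0, x)) = b₀ x) →
      (∀ x ∈ S2, tube (u (1, x)) (ε • ω (1, x)) = b₁ x) → (Tors fun y => h i (b₀ y)) →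
      c.lk (core h i) (fun y => h i (b₁ y)) = c.lk (core h i) fun y => h i (b₀ y) := by
  obtain ⟨W, hW⟩ := hh.slk_nhds
  filter_upwards [slk_ev slk_cpt mu cω hW.nh, self_mem_nhdsWithin] with ε hε hp b₀ b₁ e0 e1 tb
  refine hW.fam1 (slk_inc (subset_of_mem_nhdsSet hW.nh)) ⟨slk_tube cu cω ε, hε, e0, e1⟩
    (fun t ht x hx y hy e => ?_) ht tb
  have h1 := (tube_mem_Sc (mu (t, y) ⟨ht, hy⟩)).1 (mem_of_eq_of_mem e.symm (inc_mem_Sc.2 hx))
  exact smul_ne_zero (ne_of_gt hp) (h0 (t, y) ⟨ht, hy⟩) h1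

theorem FL.slk_dj (hh : c.FL h) (hφ : Sat φ) (i : ι) :
    ∀ᶠ ε in 𝓝[>] (0 : ℝ), Dj (core h i) fun u => h i (φ ε u) := by
  filter_upwards [hh.link_tri hφ i] with ε hε x hx y hy e
  exact Option.some_ne_none i (hε.inj (some i) none x hx y hy (congrArg c.q e)).1

/-- Away from its own core a satellite may be replaced by its limit (`lk_fam0` for
`g • h i (φ ((1 - t) ε) u)`, `FL.exists_nhds`). -/
theorem FL.lk_sat (hh : c.FL h) (ht : ∀ k, Tors (core h k)) (hφ : Sat φ) (i : ι)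
    (h0 : Tors fun u => h i (φ 0 u)) : ∀ᶠ ε in 𝓝[>] (0 : ℝ), ∀ k (g : c.G), ¬ (k = i ∧ g = 1) →
      c.lk (core h k) (fun u => g • h i (φ ε u)) = c.lk (core h k) fun u => g • h i (φ 0 u) := by
  obtain ⟨W, hW⟩ := hh.slk_nhds
  filter_upwards [slk_sat hφ hW.nh] with ε hε k g hk
  exact hW.fam (slk_inc (subset_of_mem_nhdsSet hW.nh)) hε (fun e => absurd e hk) (ht k) h0

theorem FL.lk_sat_self (hh : c.FL h) (hφ : Sat φ) (i : ι) (h0 : Tors fun u => h i (φ 0 u)) :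
    ∀ᶠ ε in 𝓝[>] (0 : ℝ), ∀ g : c.G, g ≠ 1 →
      c.lk (fun u => h i (φ ε u)) (fun u => g • h i (φ ε u)) =
        c.lk (fun u => h i (φ 0 u)) fun u => g • h i (φ 0 u) := by
  obtain ⟨W, hW⟩ := hh.slk_nhds
  filter_upwards [slk_sat hφ hW.nh] with ε hε g hg
  exact hW.fam hε hε (fun e => absurd e.2 hg) h0 h0

/-- A push-off does not link the core. Sketch. Let `e w u = h i (tube u w)`, `N = ε • npole`.
`lk (e 0) (e N) = lk (e (-N)) (e 0)` by the disjoint family `(e (-t N), e ((1 - t) N))`, and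
`lk (e (-N)) (e 0) = lk (e N) (e 0)` by rotating `-N` to `N` in `E 3 ∖ 0`; `lk_skew`. -/
theorem FL.lk_par_self (hh : c.FL h) {i : ι} (ht : Tors (core h i)) :
    ∀ᶠ ε in 𝓝[>] (0 : ℝ), c.lk (core h i) (fun u => h i (par ε u)) = 0 := by
  obtain ⟨W, hW⟩ := hh.slk_nhds
  have hn : npole ≠ 0 := ne_zero_of_S2 npole_mem
  have c1 : ContinuousOn (fun p : ℝ × E 3 => (-p.1) • npole) (Icc 0 1 ×ˢ S2) := by fun_prop
  have c2 : ContinuousOn (fun p : ℝ × E 3 => (1 - p.1) • npole) (Icc 0 1 ×ˢ S2) := by fun_prop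
  have c3 : ContinuousOn (fun p : ℝ × E 3 => (1 - 2 * p.1) • npole +
      (p.1 * (1 - p.1)) • (!₂[1, 0, 0] : E 3)) (Icc 0 1 ×ˢ S2) := by fun_prop
  have h3 : ∀ p ∈ Icc (0 : ℝ) 1 ×ˢ S2, (1 - 2 * p.1) • npole +
      (p.1 * (1 - p.1)) • (!₂[1, 0, 0] : E 3) ≠ 0 := fun p _ e => by
    have e0 := congrArg (fun u : E 3 => u 0) e
    have e2 := congrArg (fun u : E 3 => u 2) e
    simp [npole] at e0 e2
    rcases e0 with e0 | e0 <;> linarith
  filter_upwards [slk_ev slk_cpt (u := fun p => p.2) (fun _ hp => hp.2) c1 hW.nh,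
    slk_ev slk_cpt (u := fun p => p.2) (fun _ hp => hp.2) c2 hW.nh,
    hh.slk_move ht continuousOn_snd c3 (fun _ hp => hp.2) h3, hh.tors_par ht false,
    self_mem_nhdsWithin] with ε m1 m2 k2 tp hp
  have hα : SlkH W (fun p => tube p.2 (ε • (-p.1) • npole)) inc fun u => tube u (ε • -npole) :=
    ⟨slk_tube continuousOn_snd c1 ε, m1, fun x _ => by simp [tube_zero], fun x _ => by simp⟩
  have hβ : SlkH W (fun p => tube p.2 (ε • (1 - p.1) • npole)) (par ε) inc :=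
    ⟨slk_tube continuousOn_snd c2 ε, m2, fun x _ => by simp [par], fun x _ => by simp [tube_zero]⟩
  have hd : ∀ t ∈ Icc (0 : ℝ) 1, ∀ x ∈ S2, ∀ y ∈ S2,
      tube x (ε • (-t) • npole) ≠ tube y (ε • (1 - t) • npole) := fun t _ x hx y hy e => by
    have e1 := smul_left_injective ℝ hn (smul_right_injective _ (ne_of_gt hp) (tube_inj hx hy e).2)
    have e2 : -t = 1 - t := e1
    linarith
  have k1 : c.lk (fun u => h i (tube u (ε • -npole))) (core h i) =
      c.lk (core h i) fun u => h i (par ε u) := hW.fam1 hα hβ hd ht tp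
  have k3 := k2 (par ε) (fun u => tube u (ε • -npole)) (fun x _ => by simp [par])
    (fun x _ => by norm_num) tp
  have k4 : Dj (core h i) fun u => h i (tube u (ε • -npole)) := fun x hx y hy e => by
    have m : tube y (ε • -npole) ∈ W := hα.e1 y hy ▸ hα.mem (1, y) ⟨right_mem_Icc.2 zero_le_one, hy⟩
    have e1 := (hW.eq i i 1 _ (subset_of_mem_nhdsSet hW.nh (inc_mem_Sc.2 hx)) _ m
      (e.trans (one_smul _ _).symm)).2.2
    exact smul_ne_zero (ne_of_gt hp) (neg_ne_zero.2 hn)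
      ((tube_mem_Sc hy).1 (mem_of_eq_of_mem e1.symm (inc_mem_Sc.2 hx)))
  have k5 := lk_skew ht (hW.tors hα ht) k4
  omega

/-- `sig ε u` is joined to `par ε (dd u)` by `tube (dd u) (ε ((1 - t) ‖cub0 u‖ gn u + t npole))` (last
coordinate positive); `lk_dd`, `FL.lk_par_self` -/
theorem FL.lk_sig_self (hh : c.FL h) {i : ι} (ht : Tors (core h i)) :
    ∀ᶠ ε in 𝓝[>] (0 : ℝ), c.lk (core h i) (fun u => h i (sig ε u)) = 0 := by
  have c1 : ContinuousOn (fun p : ℝ × E 3 => (1 - p.1) • npole + p.1 • ‖cub0 p.2‖ • gn p.2)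
      (Icc 0 1 ×ˢ S2) := by
    have := contDiff_cub0.continuous
    have := contDiff_gn.continuous
    fun_prop
  filter_upwards [hh.slk_move ht slk_dd_cont c1 (fun _ hp => dd_mem (ne_zero_of_S2 hp.2))
    fun p hp => slk_up hp.1 (mul_pos (norm_pos_iff.2 (cub0_ne_zero (ne_zero_of_S2 hp.2)))
      (slk_gn_pos p.2)), hh.tors_par ht false, hh.slk_dj sat_par i, hh.lk_par_self ht]
    with ε k1 tp hd k2
  have tp' : Tors fun u => h i (par ε u) := tp
  rw [k1 (fun u => par ε (dd u)) (sig ε) (fun x _ => by simp [par])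
    (fun x _ => by simp [sig, smul_smul]) tp'.dd, lk_dd ht tp' hd, k2, mul_zero]

/-- `lk_bound` and `inter_sign` at `(0, npole)` with `w₁ = (1, 0, 0)`, `w₂ = (0, 1, 0)`; the frame is
`D (am (h i)) (inc npole)` composed with the matrix with columns `ε e₂, ε e₃, ε e₄, e₀, e₁` of determinant
`ε ^ 3` (`fderiv_tube_zero`, `Sgn.comp`). If the sign is opposite change the definition of `ms`. -/
theorem FL.lk_mer_self (hh : c.FL h) {i : ι} (ht : Tors (core h i)) (b : Bool) :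
    ∀ᶠ ε in 𝓝[>] (0 : ℝ), c.lk (core h i) (fun u => h i (mer ε (rfb b u))) =
      if b then - (3 * ms) else 3 * ms := by
  obtain ⟨W, hW⟩ := hh.slk_nhds
  filter_upwards [slk_ev (isCompact_closedBall (0 : E 3) 1) (u := fun _ => npole) (ω := id)
    (fun _ _ => npole_mem) continuousOn_id hW.nh, hh.ball_mer i false, hh.slk_dj sat_mer i,
    self_mem_nhdsWithin] with ε hm hD hd hp
  have hD' : ContinuousOn (fun u => h i (mer ε u)) B3 := hD
  have hN := inc_mem_Sc.2 npole_mem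
  have hA := ((hh.sm i).differentiableAt hN).hasFDerivAt
  have d1 : HasFDerivAt (c.am fun u => h i (mer ε u)) ((fderiv ℝ (c.am (h i)) (inc npole)).comp
      ((fderiv ℝ (tube npole) 0).comp (ε • ContinuousLinearMap.id ℝ (E 3)))) 0 :=
    HasFDerivAt.comp (g := c.am (h i)) (f := mer ε) 0 (by rw [slk_mer_zero]; exact hA)
      (slk_mer_der ε)
  have d2 : HasFDerivAt (c.am (core h i)) ((fderiv ℝ (c.am (h i)) (inc npole)).comp
      (fderiv ℝ inc npole)) npole :=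
    hA.comp npole (contDiff_inc.differentiable (by simp) npole).hasFDerivAt
  have k : c.inter (fun u => h i (mer ε u)) (core h i) = - ((1 * 1 : ℤˣ) : ℤ) := by
    refine inter_sign (x₀ := 0) (y₀ := npole) ⟨hD', ht.1, fun x hx y hy e => hd y hy x hx e.symm⟩
      (Metric.mem_ball_self one_pos) npole_mem (fun x hx y hy => ⟨fun e => ?_, ?_⟩)
      d1.differentiableAt d2.differentiableAt (w₁ := !₂[1, 0, 0]) (w₂ := !₂[0, 1, 0])
      ⟨by simp [inner_E3, npole], by simp [inner_E3, npole], by simp [det3, npole]⟩ ?_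
    · have e1 := (hW.eq i i 1 _ (hm x hx) _ (subset_of_mem_nhdsSet hW.nh (inc_mem_Sc.2 hy))
        (e.trans (one_smul _ _).symm)).2.2
      rw [← tube_zero] at e1
      obtain ⟨e2, e3⟩ := tube_inj npole_mem hy e1
      exact ⟨(smul_eq_zero.1 e3).resolve_left (ne_of_gt hp), e2.symm⟩
    · rintro ⟨rfl, rfl⟩
      rw [slk_mer_zero]
      rfl
    · have hs := (hh.sgn i _ hN).comp (ε' := 1) (by simpa using slk_det hp)
      rw [comp_fr] at hs
      rw [d1.fderiv, d2.fderiv, slk_mer_zero]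
      refine (congrArg (fun a => c.Sgn (c.q (h i (inc npole))) (fr a) (1 * 1)) ?_).mp hs
      funext k
      fin_cases k <;> refine congrArg (fderiv ℝ (c.am (h i)) (inc npole)) ?_ <;>
        ext l <;> fin_cases l <;> simp [fderiv_tube_zero, fderiv_inc, npole, inc]
  rw [slk_rfb ht (tors_of_ball hD' fun _ _ => rfl) hd b, lk_bound ht hD' hd, k]
  cases b <;> rfl

/-- `kap ε u` is joined to `mer ε (dd u)` by
`tube (nrm ((1 - t) gn u + t npole)) (ε ((1 - t) cub0 u + t dd u))` -/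
theorem FL.lk_kap_self (hh : c.FL h) {i : ι} (ht : Tors (core h i)) :
    ∀ᶠ ε in 𝓝[>] (0 : ℝ), c.lk (core h i) (fun u => h i (kap ε u)) = 9 * ms := by
  have c0 : ContinuousOn (fun p : ℝ × E 3 => (1 - p.1) • npole + p.1 • gn p.2)
      (Icc 0 1 ×ˢ S2) := by
    have := contDiff_gn.continuous
    fun_prop
  have n0 : ∀ p ∈ Icc (0 : ℝ) 1 ×ˢ S2, (1 - p.1) • npole + p.1 • gn p.2 ≠ 0 := fun p hp =>
    slk_up hp.1 (slk_gn_pos p.2)
  have c1 : ContinuousOn (fun p : ℝ × E 3 => (1 - p.1) • dd p.2 + p.1 • cub0 p.2)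
      (Icc 0 1 ×ˢ S2) := by
    have := contDiff_cub0.continuous
    exact ((continuousOn_const.sub continuousOn_fst).smul slk_dd_cont).add (by fun_prop)
  have n1 : ∀ p ∈ Icc (0 : ℝ) 1 ×ˢ S2, (1 - p.1) • dd p.2 + p.1 • cub0 p.2 ≠ 0 := fun p hp => by
    have h0 := cub0_ne_zero (ne_zero_of_S2 hp.2)
    have h1 := slk_seg hp.1 (inv_pos.2 (norm_pos_iff.2 h0)) one_pos
    rw [dd, cub_eq_cub0 hp.2, nrm, smul_smul, ← add_smul]
    rw [mul_one] at h1
    exact smul_ne_zero h1.ne' h0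
  filter_upwards [hh.slk_move ht (contDiffOn_nrm.continuousOn.comp c0 n0) c1
    (fun p hp => nrm_mem (n0 p hp)) n1, hh.ball_mer i false, hh.slk_dj sat_mer i,
    hh.lk_mer_self ht false] with ε k1 hD hd k2
  have tp : Tors fun u => h i (mer ε u) := tors_of_ball hD fun _ _ => rfl
  have k3 : c.lk (core h i) (fun u => h i (mer ε u)) = 3 * ms := k2
  rw [k1 (fun u => mer ε (dd u)) (kap ε) (fun x _ => by simp [mer, nrm_of_S2 npole_mem])
    (fun x _ => by simp [kap, nrm_of_S2 (gn_mem x)]) tp.dd, lk_dd ht tp hd, k3]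
  ring

/-- all linking numbers of the cable -/
theorem FL.lk_sig (hh : c.FL h) (ht : ∀ k, Tors (core h k)) (i : ι) :
    ∀ᶠ ε in 𝓝[>] (0 : ℝ), (∀ k (g : c.G), ¬ (k = i ∧ g = 1) →
      c.lk (core h k) (fun u => g • h i (sig ε u)) = 3 * c.lk (core h k) fun u => g • core h i u) ∧
      ∀ g : c.G, g ≠ 1 → c.lk (fun u => h i (sig ε u)) (fun u => g • h i (sig ε u)) =
        9 * c.lk (core h i) fun u => g • core h i u := by
  have e : (fun u => h i (sig 0 u)) = fun u => core h i (dd u) :=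
    funext fun u => by simp [sig, tube_zero, core]
  have h0 : Tors fun u => h i (sig 0 u) := e ▸ (ht i).dd
  have hT := hh.link.tl ht
  filter_upwards [hh.lk_sat ht sat_sig i h0, hh.lk_sat_self sat_sig i h0] with ε k1 k2
  have tg : ∀ g : c.G, Tors fun u => g • core h i u := fun g => (ht i).map (c.continuous_smul g)
  refine ⟨fun k g hk => ?_, fun g hg => ?_⟩
  · rw [k1 k g hk, ← lk_dd (ht k) (tg g) (hT.dj k i g hk)]
    simp only [congrFun e]
  · have hd := hT.dj i i g fun e => hg e.2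
    rw [k2 g hg]
    simp only [congrFun e]
    rw [lk_dd (b := fun u => g • core h i u) (ht i).dd (tg g)
      fun x hx y hy => hd _ (dd_mem (ne_zero_of_S2 hx)) y hy, slk_dd_left (ht i) (tg g) hd]
    ring

/-- the meridian links nothing else (`lk_bound_empty` with the normal disc) -/
theorem FL.lk_mer (hh : c.FL h) (ht : ∀ k, Tors (core h k)) (i : ι) (b : Bool) :
    ∀ᶠ ε in 𝓝[>] (0 : ℝ), (∀ k (g : c.G), ¬ (k = i ∧ g = 1) →
      c.lk (core h k) (fun u => g • h i (mer ε (rfb b u))) = 0) ∧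
      ∀ g : c.G, g ≠ 1 →
        c.lk (fun u => h i (mer ε (rfb b u))) (fun u => g • h i (mer ε (rfb b u))) = 0 := by
  have e : (fun u => h i (mer 0 (rfb b u))) = fun _ => core h i npole :=
    funext fun u => by simp [mer, tube_zero, core]
  have t0 : Tors fun _ : E 3 => core h i npole := tors_of_ball continuousOn_const fun _ _ => rfl
  have h0 : Tors fun u => h i (mer 0 (rfb b u)) := e ▸ t0
  have hT := hh.link.tl ht
  filter_upwards [hh.lk_sat ht (sat_mer.rfb b) i h0, hh.lk_sat_self (sat_mer.rfb b) i h0]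
    with ε k1 k2
  refine ⟨fun k g hk => ?_, fun g hg => ?_⟩
  · rw [k1 k g hk]
    simp only [congrFun e]
    exact lk_bound_empty (ht k) continuousOn_const fun x hx _ _ => hT.dj k i g hk x hx _ npole_mem
  · rw [k2 g hg]
    simp only [congrFun e]
    exact lk_bound_empty t0 continuousOn_const fun _ _ _ _ =>
      hT.dj i i g (fun e => hg e.2) _ npole_mem _ npole_mem

theorem FL.lk_kap (hh : c.FL h) (ht : ∀ k, Tors (core h k)) (i : ι) :
    ∀ᶠ ε in 𝓝[>] (0 : ℝ), ∀ k (g : c.G), ¬ (k = i ∧ g = 1) →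
      c.lk (core h k) (fun u => g • h i (kap ε u)) = 0 := by
  have e : (fun u => h i (kap 0 u)) = fun u => core h i (gn u) :=
    funext fun u => by simp [kap, tube_zero, core]
  have hb := slk_ball (ht i).1 contDiff_gn.continuous gn_mem
  have h0 : Tors fun u => h i (kap 0 u) := e ▸ tors_of_ball hb fun _ _ => rfl
  have hT := hh.link.tl ht
  filter_upwards [hh.lk_sat ht sat_kap i h0] with ε k1 k g hk
  rw [k1 k g hk]
  simp only [congrFun e]
  exact lk_bound_empty (ht k) ((c.continuous_smul g).comp_continuousOn hb)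
    fun x hx y _ => hT.dj k i g hk x hx _ (gn_mem y)

theorem FL.lk_par (hh : c.FL h) (ht : ∀ k, Tors (core h k)) (i : ι) (b : Bool) :
    ∀ᶠ ε in 𝓝[>] (0 : ℝ), c.lk (core h i) (fun u => h i (par ε (rfb b u))) = 0 ∧
      ∀ k, k ≠ i → c.lk (core h k) (fun u => h i (par ε (rfb b u))) =
        if b then - c.lk (core h k) (core h i) else c.lk (core h k) (core h i) := by
  have e : (fun u => h i (par 0 (rfb b u))) = fun u => core h i (rfb b u) :=
    funext fun u => by simp [par, tube_zero, core]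
  have h0 : Tors fun u => h i (par 0 (rfb b u)) := e ▸ (ht i).rfb b
  have hT := hh.link.tl ht
  filter_upwards [hh.lk_sat ht (sat_par.rfb b) i h0, hh.tors_par (ht i) false, hh.slk_dj sat_par i,
    hh.lk_par_self (ht i)] with ε k1 tp hd k2
  refine ⟨?_, fun k hk => ?_⟩
  · have tp' : Tors fun u => h i (par ε u) := tp
    rw [slk_rfb (ht i) tp' hd b, k2, neg_zero, ite_self]
  · have k3 := k1 k 1 fun e => hk e.1
    have hd' := hT.dj k i 1 fun e => hk e.1
    simp only [one_smul] at k3 hd'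
    rw [k3, e]
    exact slk_rfb (ht k) (ht i) hd' b

end Ctx

end Pool.Agent.CSP
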